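import Mathlib

/-!
One-variable inequalities for the metric graph problem.
-/

namespace Q186.ME

open Real Set

theorem le_of_hasDerivAt {f f' : ℝ → ℝ} {a b : ℝ} (hab : a ≤ b)
    (hd : ∀ x ∈ Icc a b, HasDerivAt f (f' x) x) (h0 : ∀ x ∈ Icc a b, 0 ≤ f' x) : f a ≤ f b := by
  have hm : MonotoneOn f (Icc a b) := by
    refine monotoneOn_of_deriv_nonneg (convex_Icc a b)
      (fun x hx => (hd x hx).continuousAt.continuousWithinAt)
      (fun x hx => ?_) (fun x hx => ?_)
    · rw [interior_Icc] at hx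
      exact (hd x (Ioo_subset_Icc_self hx)).differentiableAt.differentiableWithinAt
    · rw [interior_Icc] at hx
      rw [(hd x (Ioo_subset_Icc_self hx)).deriv]
      exact h0 x (Ioo_subset_Icc_self hx)
  exact hm (left_mem_Icc.2 hab) (right_mem_Icc.2 hab) hab

/-- the energy comparison -/
theorem energy {f f' m m' Ef : ℝ → ℝ} {s a b : ℝ} (hab : a ≤ b)
    (hf : ∀ x, HasDerivAt f (f' x) x) (hm : ∀ x, HasDerivAt m (m' x) x)
    (hm' : ∀ x, HasDerivAt m' (s ^ 2 * m x) x)
    (hE : ∀ x, HasDerivAt Ef (f' x ^ 2 + s ^ 2 * f x ^ 2) x) (h1 : f a = m a) (h2 : f b = m b) :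
    m b * m' b - m a * m' a ≤ Ef b - Ef a := by
  have key := le_of_hasDerivAt (f := fun x => Ef x - 2 * m' x * (f x - m x) - m x * m' x)
    (f' := fun x => (f' x - m' x) ^ 2 + s ^ 2 * (f x - m x) ^ 2) hab
    (fun x _ => by
      have h3 := ((hE x).sub (((hm' x).const_mul 2).mul ((hf x).sub (hm x)))).sub
        ((hm x).mul (hm' x))
      refine h3.congr_deriv ?_
      simp only [Pi.sub_apply]
      ring)
    (fun x _ => by positivity)
  simp only [h1, h2, sub_self, mul_zero, sub_zero] at key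
  linarith

/-- `G_s(a) = ∫_0^a (1-t^2)^(-s) dt` -/
noncomputable def Gs (s a : ℝ) : ℝ := ∫ t in (0:ℝ)..a, (1 - t ^ 2) ^ (-s)

theorem Gs_zero (s : ℝ) : Gs s 0 = 0 := intervalIntegral.integral_same

theorem Gs_neg (s a : ℝ) : Gs s (-a) = -Gs s a := by
  unfold Gs
  have h := intervalIntegral.integral_comp_neg (a := 0) (b := a) (fun t : ℝ => (1 - t ^ 2) ^ (-s))
  simp only [neg_sq, neg_zero] at h
  rw [h, intervalIntegral.integral_symm]

theorem one_sub_sq_pos {t : ℝ} (ht : t ∈ Ioo (-1:ℝ) 1) : 0 < 1 - t ^ 2 := by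
  nlinarith [ht.1, ht.2]

theorem hasDerivAt_Gs (s : ℝ) {a : ℝ} (ha : a ∈ Ioo (-1:ℝ) 1) :
    HasDerivAt (Gs s) ((1 - a ^ 2) ^ (-s)) a := by
  have hc : ContinuousOn (fun t : ℝ => (1 - t ^ 2) ^ (-s)) (Ioo (-1) 1) := by
    intro t ht
    have : ContinuousAt (fun t : ℝ => (1 - t ^ 2) ^ (-s)) t :=
      ContinuousAt.rpow_const (by fun_prop) (Or.inl (one_sub_sq_pos ht).ne')
    exact this.continuousWithinAt
  have hsub : uIcc (0:ℝ) a ⊆ Ioo (-1) 1 := by
    intro t ht
    rcases le_total 0 a with h | h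
    · rw [uIcc_of_le h] at ht; exact ⟨by linarith [ht.1], by linarith [ht.2, ha.2]⟩
    · rw [uIcc_of_ge h] at ht; exact ⟨by linarith [ht.1, ha.1], by linarith [ht.2]⟩
  refine intervalIntegral.integral_hasDerivAt_right
    ((hc.mono hsub).intervalIntegrable) ?_ (hc.continuousAt (isOpen_Ioo.mem_nhds ha))
  exact hc.stronglyMeasurableAtFilter isOpen_Ioo a ha

theorem le_Gs {s a : ℝ} (hs : 0 ≤ s) (ha0 : 0 ≤ a) (ha1 : a < 1) : a ≤ Gs s a := by
  have h := le_of_hasDerivAt (f := fun x => Gs s x - x) (f' := fun x => (1 - x ^ 2) ^ (-s) - 1)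
    ha0 (fun x hx => (hasDerivAt_Gs s ⟨by linarith [hx.1], by linarith [hx.2]⟩).sub
      (hasDerivAt_id x))
    (fun x hx => by
      have hx1 : x ∈ Ioo (-1:ℝ) 1 := ⟨by linarith [hx.1], by linarith [hx.2]⟩
      have h1 := one_sub_sq_pos hx1
      have h2 : 1 ≤ (1 - x ^ 2) ^ (-s) :=
        Real.one_le_rpow_of_pos_of_le_one_of_nonpos h1 (by nlinarith [sq_nonneg x]) (by linarith)
      linarith)
  simp only [Gs_zero] at h
  linarith

theorem Gs_nonneg {s a : ℝ} (hs : 0 ≤ s) (ha0 : 0 ≤ a) (ha1 : a < 1) : 0 ≤ Gs s a :=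
  ha0.trans (le_Gs hs ha0 ha1)

/-! ### hyperbolic functions -/

theorem hasDerivAt_tanh' (x : ℝ) : HasDerivAt Real.tanh (1 / Real.cosh x ^ 2) x := by
  have h : HasDerivAt (fun y => Real.sinh y / Real.cosh y)
      ((Real.cosh x * Real.cosh x - Real.sinh x * Real.sinh x) / Real.cosh x ^ 2) x :=
    (Real.hasDerivAt_sinh x).div (Real.hasDerivAt_cosh x) (Real.cosh_pos x).ne'
  have h2 : (fun y => Real.sinh y / Real.cosh y) = Real.tanh := by
    funext y; rw [Real.tanh_eq_sinh_div_cosh]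
  rw [h2] at h
  refine h.congr_deriv ?_
  have := Real.cosh_sq x
  congr 1
  nlinarith

theorem tanh_mem (x : ℝ) : Real.tanh x ∈ Ioo (-1:ℝ) 1 := ⟨Real.neg_one_lt_tanh x, Real.tanh_lt_one x⟩

theorem one_sub_tanh_sq (x : ℝ) : 1 - Real.tanh x ^ 2 = (Real.cosh x ^ 2)⁻¹ := by
  rw [Real.tanh_eq_sinh_div_cosh, div_pow]
  have h := Real.cosh_sq x
  have hc := (Real.cosh_pos x).ne'
  field_simp
  linarith

theorem hasDerivAt_I (s x : ℝ) :
    HasDerivAt (fun y => Gs s (Real.tanh y)) (Real.cosh x ^ (2 * s - 2)) x := by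
  have h := (hasDerivAt_Gs s (tanh_mem x)).comp x (hasDerivAt_tanh' x)
  refine h.congr_deriv ?_
  have hc := Real.cosh_pos x
  rw [one_sub_tanh_sq, Real.inv_rpow (by positivity), ← Real.rpow_natCast (Real.cosh x) 2,
    ← Real.rpow_mul hc.le, ← Real.rpow_neg hc.le, one_div, ← Real.rpow_neg hc.le,
    ← Real.rpow_add hc]
  congr 1
  push_cast
  ring

/-- `F(x) = cosh^(2s) x tanh x - (1-s) G_s(tanh x)` -/
noncomputable def Ff (s x : ℝ) : ℝ :=
  Real.cosh x ^ (2 * s) * Real.tanh x - (1 - s) * Gs s (Real.tanh x)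

theorem Ff_neg (s x : ℝ) : Ff s (-x) = -Ff s x := by
  unfold Ff
  rw [Real.cosh_neg, Real.tanh_neg, Gs_neg]
  ring

theorem cosh_rpow_aux (s x : ℝ) :
    Real.cosh x ^ (2 * s) = Real.cosh x ^ (2 * s - 2) * Real.cosh x ^ 2 := by
  have hc := Real.cosh_pos x
  rw [← Real.rpow_natCast (Real.cosh x) 2, ← Real.rpow_add hc]
  congr 1
  push_cast
  ring

theorem hasDerivAt_cosh_rpow (r x : ℝ) :
    HasDerivAt (fun y => Real.cosh y ^ r) (r * Real.cosh x ^ (r - 1) * Real.sinh x) x := by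
  have hc := Real.cosh_pos x
  have h := (Real.hasDerivAt_cosh x).rpow_const (p := r) (Or.inl hc.ne')
  refine h.congr_deriv ?_
  ring

theorem hasDerivAt_Ff (s x : ℝ) :
    HasDerivAt (Ff s) (s * Real.cosh x ^ (2 * s - 2) * (2 * Real.cosh x ^ 2 - 1)) x := by
  have h := ((hasDerivAt_cosh_rpow (2 * s) x).mul (hasDerivAt_tanh' x)).sub
    ((hasDerivAt_I s x).const_mul (1 - s))
  refine h.congr_deriv ?_
  have hc := Real.cosh_pos x
  have h1 : Real.cosh x ^ (2 * s - 1) = Real.cosh x ^ (2 * s - 2) * Real.cosh x := by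
    rw [← Real.rpow_add_one hc.ne']
    congr 1
    ring
  rw [h1, cosh_rpow_aux s x, Real.tanh_eq_sinh_div_cosh]
  have h2 := Real.sinh_sq x
  field_simp
  rw [h2]
  ring

/-- the edge inequality in hyperbolic coordinates -/
theorem edge_ineq {s α β : ℝ} (hs : 0 < s) (hl : 0 < α + β) :
    ((1 + Real.exp (-(s * (α + β))) ^ 2) *
        ((Real.cosh α ^ s) ^ 2 + (Real.cosh β ^ s) ^ 2) / 2 -
      2 * Real.exp (-(s * (α + β))) * (Real.cosh α ^ s * Real.cosh β ^ s)) /
      (1 - Real.exp (-(s * (α + β))) ^ 2) ≤ (Ff s α + Ff s β) / 2 := by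
  set a := Real.cosh α ^ s with ha
  set b := Real.cosh β ^ s with hb
  have hS : 0 < Real.sinh (s * (α + β)) := Real.sinh_pos_iff.2 (by positivity)
  -- the solution m
  let m : ℝ → ℝ := fun x => (a * Real.sinh (s * (x + β)) + b * Real.sinh (s * (α - x))) /
    Real.sinh (s * (α + β))
  let m' : ℝ → ℝ := fun x => s * (a * Real.cosh (s * (x + β)) - b * Real.cosh (s * (α - x))) /
    Real.sinh (s * (α + β))
  have d1 : ∀ x, HasDerivAt (fun x => s * (x + β)) s x := fun x => by
    simpa using ((hasDerivAt_id x).add_const β).const_mul s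
  have d2 : ∀ x, HasDerivAt (fun x => s * (α - x)) (-s) x := fun x => by
    simpa using ((hasDerivAt_id x).const_sub α).const_mul s
  have hm : ∀ x, HasDerivAt m (m' x) x := by
    intro x
    have h1 := (((d1 x).sinh.const_mul a).add ((d2 x).sinh.const_mul b)).div_const
      (Real.sinh (s * (α + β)))
    refine h1.congr_deriv ?_
    simp only [m']
    ring
  have hm' : ∀ x, HasDerivAt m' (s ^ 2 * m x) x := by
    intro x
    have h1 := ((((d1 x).cosh.const_mul a).sub ((d2 x).cosh.const_mul b)).const_mul s).div_const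
      (Real.sinh (s * (α + β)))
    refine h1.congr_deriv ?_
    simp only [m]
    ring
  have hE : ∀ x, HasDerivAt (fun x => s * Ff s x)
      ((s * Real.cosh x ^ (s - 1) * Real.sinh x) ^ 2 + s ^ 2 * (Real.cosh x ^ s) ^ 2) x := by
    intro x
    refine ((hasDerivAt_Ff s x).const_mul s).congr_deriv ?_
    have hc := Real.cosh_pos x
    have h1 : (Real.cosh x ^ (s - 1)) ^ 2 = Real.cosh x ^ (2 * s - 2) := by
      rw [← Real.rpow_natCast (Real.cosh x ^ (s - 1)) 2, ← Real.rpow_mul hc.le]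
      congr 1; push_cast; ring
    have h2 : (Real.cosh x ^ s) ^ 2 = Real.cosh x ^ (2 * s - 2) * Real.cosh x ^ 2 := by
      rw [← cosh_rpow_aux, ← Real.rpow_natCast (Real.cosh x ^ s) 2, ← Real.rpow_mul hc.le]
      congr 1; push_cast; ring
    rw [mul_pow, mul_pow, h1, h2, Real.sinh_sq]
    ring
  have hen := energy (f := fun x => Real.cosh x ^ s) (m := m) (m' := m')
    (f' := fun x => s * Real.cosh x ^ (s - 1) * Real.sinh x) (s := s) (a := -β) (b := α)
    (by linarith) (fun x => hasDerivAt_cosh_rpow s x) hm hm' hE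
    (by
      simp only [m, Real.cosh_neg, neg_add_cancel, mul_zero, Real.sinh_zero, zero_add,
        sub_neg_eq_add]
      rw [mul_div_assoc, div_self hS.ne', mul_one])
    (by
      simp only [m, sub_self, mul_zero, Real.sinh_zero, add_zero]
      rw [mul_div_assoc, div_self hS.ne', mul_one])
  have hmα : m α = a := by
    simp only [m, sub_self, mul_zero, Real.sinh_zero, add_zero]
    field_simp
  have hmβ : m (-β) = b := by
    simp only [m, neg_add_cancel, mul_zero, Real.sinh_zero, zero_add, sub_neg_eq_add]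
    field_simp
  rw [hmα, hmβ, Ff_neg] at hen
  have hm'α : m' α = s * (a * Real.cosh (s * (α + β)) - b) / Real.sinh (s * (α + β)) := by
    simp only [m', sub_self, mul_zero, Real.cosh_zero, mul_one]
  have hm'β : m' (-β) = s * (a - b * Real.cosh (s * (α + β))) / Real.sinh (s * (α + β)) := by
    simp only [m', neg_add_cancel, mul_zero, Real.cosh_zero, mul_one, sub_neg_eq_add]
  rw [hm'α, hm'β] at hen
  -- convert to exponentials
  set q := Real.exp (-(s * (α + β))) with hq
  have hq0 : 0 < q := Real.exp_pos _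
  have hq1 : q < 1 := by
    rw [hq]
    have : 0 < s * (α + β) := by positivity
    exact Real.exp_lt_one_iff.2 (by linarith)
  have hqq : 0 < 1 - q ^ 2 := by nlinarith
  have hexp : Real.exp (s * (α + β)) = q⁻¹ := by rw [hq, Real.exp_neg, inv_inv]
  have hcosh : Real.cosh (s * (α + β)) = (1 + q ^ 2) / (2 * q) := by
    rw [Real.cosh_eq, hexp, ← hq]; field_simp
  have hsinh : Real.sinh (s * (α + β)) = (1 - q ^ 2) / (2 * q) := by
    rw [Real.sinh_eq, hexp, ← hq]; field_simp
  rw [hcosh, hsinh] at hen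
  have e1 : a * (s * (a * ((1 + q ^ 2) / (2 * q)) - b) / ((1 - q ^ 2) / (2 * q))) -
      b * (s * (a - b * ((1 + q ^ 2) / (2 * q))) / ((1 - q ^ 2) / (2 * q))) =
      2 * s * (((1 + q ^ 2) * (a ^ 2 + b ^ 2) / 2 - 2 * q * (a * b)) / (1 - q ^ 2)) := by
    field_simp
    ring
  rw [e1] at hen
  have h2 : 2 * s * (((1 + q ^ 2) * (a ^ 2 + b ^ 2) / 2 - 2 * q * (a * b)) / (1 - q ^ 2)) ≤
      2 * s * ((Ff s α + Ff s β) / 2) := by linarith
  exact le_of_mul_le_mul_left h2 (by positivity)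

/-- deletion inequality: for `x ≥ 0`, `cosh^(2s)(1 - tanh) + (1-s) G ≤ 1`. -/
theorem deletion_ineq {s x : ℝ} (hs : 0 ≤ s) (hx : 0 ≤ x) :
    Real.cosh x ^ (2 * s) * (1 - Real.tanh x) + (1 - s) * Gs s (Real.tanh x) ≤ 1 := by
  have h := le_of_hasDerivAt
    (f := fun y => -(Real.cosh y ^ (2 * s) - Ff s y))
    (f' := fun y => -(2 * s * Real.cosh y ^ (2 * s - 1) * Real.sinh y -
      s * Real.cosh y ^ (2 * s - 2) * (2 * Real.cosh y ^ 2 - 1))) hx
    (fun y _ => ((hasDerivAt_cosh_rpow (2 * s) y).sub (hasDerivAt_Ff s y)).neg)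
    (fun y _ => by
      have hc := Real.cosh_pos y
      have h1 : Real.cosh y ^ (2 * s - 1) = Real.cosh y ^ (2 * s - 2) * Real.cosh y := by
        rw [← Real.rpow_add_one hc.ne']
        congr 1
        ring
      rw [h1]
      have hP : 0 < Real.cosh y ^ (2 * s - 2) := Real.rpow_pos_of_pos hc _
      have h2 : -(2 * s * (Real.cosh y ^ (2 * s - 2) * Real.cosh y) * Real.sinh y -
          s * Real.cosh y ^ (2 * s - 2) * (2 * Real.cosh y ^ 2 - 1)) =
          s * Real.cosh y ^ (2 * s - 2) *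
            (2 * Real.cosh y * (Real.cosh y - Real.sinh y) - 1) := by ring
      rw [h2]
      refine mul_nonneg (mul_nonneg hs hP.le) ?_
      rw [Real.cosh_sub_sinh, Real.cosh_eq]
      have h3 : Real.exp y * Real.exp (-y) = 1 := by rw [← Real.exp_add, add_neg_cancel, Real.exp_zero]
      have h4 : 2 * ((Real.exp y + Real.exp (-y)) / 2) * Real.exp (-y) - 1 =
        Real.exp (-y) ^ 2 := by
        have : 2 * ((Real.exp y + Real.exp (-y)) / 2) * Real.exp (-y) - 1 =
          Real.exp y * Real.exp (-y) + Real.exp (-y) ^ 2 - 1 := by ring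
        rw [this, h3]; ring
      rw [h4]; positivity)
  simp only [Ff, Real.cosh_zero, Real.one_rpow, Real.tanh_zero, Gs_zero] at h
  nlinarith

end Q186.ME
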