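import Pool.Agent.Q186.ME.Paths

/-!
Counting circuits of a relation with lengths; growth rate versus sub- and supersolutions.
-/

namespace Q186.ME

open Filter Topology

section
variable {E : Type*} [Fintype E] [DecidableEq E] (R : E → E → Prop) [DecidableRel R] (ℓ : E → ℝ)

/-- circuits of length at most `t`. -/
def circ (t : ℝ) : Set (Cycle E) :=
  {c | c ≠ Cycle.nil ∧ c.Chain R ∧ (c.toMultiset.map ℓ).sum ≤ t}

omit [Fintype E] [DecidableEq E] [DecidableRel R] in
theorem sum_ge_of_min {m : ℝ} (hm : ∀ e, m ≤ ℓ e) (l : List E) :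
    m * l.length ≤ (l.map ℓ).sum := by
  induction l with
  | nil => simp
  | cons a l ih =>
    simp only [List.length_cons, List.map_cons, List.sum_cons, Nat.cast_add, Nat.cast_one]
    have := hm a
    linarith

omit [Fintype E] [DecidableEq E] [DecidableRel R] in
theorem sum_le_of_max {m : ℝ} (hm : ∀ e, ℓ e ≤ m) (l : List E) :
    (l.map ℓ).sum ≤ m * l.length := by
  induction l with
  | nil => simp
  | cons a l ih =>
    simp only [List.length_cons, List.map_cons, List.sum_cons, Nat.cast_add, Nat.cast_one]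
    have := hm a
    linarith

omit [DecidableEq E] [DecidableRel R] in
theorem circ_finite {m : ℝ} (hm0 : 0 < m) (hm : ∀ e, m ≤ ℓ e) (t : ℝ) : (circ R ℓ t).Finite := by
  refine ((List.finite_length_le E ⌊t / m⌋₊).image (fun l : List E => (l : Cycle E))).subset ?_
  rintro c ⟨-, -, h⟩
  induction c using Quotient.inductionOn' with
  | h l =>
    refine ⟨l, ?_, rfl⟩
    have h1 : ((l : Cycle E).toMultiset.map ℓ).sum ≤ t := h
    rw [Cycle.coe_toMultiset, Multiset.map_coe, Multiset.sum_coe] at h1
    have h2 := sum_ge_of_min ℓ hm l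
    refine Nat.le_floor ?_
    rw [le_div_iff₀ hm0]
    linarith

/-- closed lists based at `e` with `n` steps and length at most `t`. -/
noncomputable def CL (n : ℕ) (e : E) (t : ℝ) : Finset (List E) :=
  (PL R n e e).filter fun l => (l.map ℓ).sum ≤ t

theorem coe_mem_circ {n : ℕ} (hn : 1 ≤ n) {e : E} {t : ℝ} {l : List E} (hl : l ∈ CL R ℓ n e t) :
    (l : Cycle E) ∈ circ R ℓ t := by
  obtain ⟨h1, h2⟩ := Finset.mem_filter.1 hl
  obtain ⟨h3, h4, h5⟩ := (mem_PL R n e e l).1 h1
  cases l with
  | nil => simp at h3; omega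
  | cons a l =>
    simp at h5
    subst h5
    refine ⟨?_, ?_, ?_⟩
    · rw [Ne, Cycle.coe_eq_nil]; simp
    · rw [Cycle.chain_coe_cons]
      exact h4
    · rw [Cycle.coe_toMultiset, Multiset.map_coe, Multiset.sum_coe]
      exact h2

theorem card_CL_le {m : ℝ} (hm0 : 0 < m) (hm : ∀ e, m ≤ ℓ e) {n : ℕ} (hn : 1 ≤ n) (e : E) (t : ℝ) :
    (CL R ℓ n e t).card ≤ n * (circ R ℓ t).ncard := by
  classical
  have hfin := circ_finite R ℓ hm0 hm t
  set F := hfin.toFinset with hF
  have h1 : CL R ℓ n e t ⊆
      (F ×ˢ Finset.range n).image fun p => (Quotient.out p.1 : List E).rotate p.2 := by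
    intro l hl
    have hmem := coe_mem_circ R ℓ hn hl
    have hlen := ((mem_PL R n e e l).1 (Finset.mem_filter.1 hl).1).1
    have hrot : (Quotient.out (l : Cycle E) : List E) ~r l := by
      have : ((Quotient.out (l : Cycle E) : List E) : Cycle E) = (l : Cycle E) :=
        Quotient.out_eq' _
      exact Cycle.coe_eq_coe.1 this
    obtain ⟨k, hk⟩ := hrot
    rw [Finset.mem_image]
    have hlen2 : (Quotient.out (l : Cycle E) : List E).length = n := by
      rw [← hlen]
      have := congrArg List.length hk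
      rwa [List.length_rotate] at this
    refine ⟨((l : Cycle E), k % n), ?_, ?_⟩
    · rw [Finset.mem_product]
      exact ⟨by rw [hF, Set.Finite.mem_toFinset]; exact hmem,
        Finset.mem_range.2 (Nat.mod_lt _ (by omega))⟩
    · simp only
      conv_lhs => rw [← hlen2]
      rw [List.rotate_mod]
      exact hk
  calc (CL R ℓ n e t).card ≤ _ := Finset.card_le_card h1
    _ ≤ (F ×ˢ Finset.range n).card := Finset.card_image_le
    _ = n * (circ R ℓ t).ncard := by
      rw [Finset.card_product, Finset.card_range, Set.ncard_eq_toFinset_card _ hfin, mul_comm]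

theorem ncard_circ_le {m : ℝ} (hm0 : 0 < m) (hm : ∀ e, m ≤ ℓ e) (t : ℝ) :
    (circ R ℓ t).ncard ≤ ∑ n ∈ Finset.range (⌊t / m⌋₊ + 1), ∑ e : E, (CL R ℓ n e t).card := by
  classical
  have h1 : circ R ℓ t ⊆ ↑(((Finset.range (⌊t / m⌋₊ + 1)).biUnion fun n =>
      (Finset.univ : Finset E).biUnion fun e => CL R ℓ n e t).image
        (fun l : List E => (l : Cycle E))) := by
    rintro c ⟨hc1, hc2, hc3⟩
    obtain ⟨l, rfl⟩ : ∃ l : List E, (l : Cycle E) = c := Quotient.exists_rep c
    · cases l with
      | nil => exact absurd rfl hc1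
      | cons a l =>
        have h1 : (((a :: l : List E) : Cycle E).toMultiset.map ℓ).sum ≤ t := hc3
        rw [Cycle.coe_toMultiset, Multiset.map_coe, Multiset.sum_coe] at h1
        have h2 := sum_ge_of_min ℓ hm (a :: l)
        have h4 : Cycle.Chain R ((a :: l : List E) : Cycle E) := hc2
        rw [Cycle.chain_coe_cons] at h4
        rw [Finset.mem_coe, Finset.mem_image]
        refine ⟨a :: l, ?_, rfl⟩
        rw [Finset.mem_biUnion]
        refine ⟨(a :: l).length, ?_, ?_⟩
        · rw [Finset.mem_range, Nat.lt_succ_iff]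
          refine Nat.le_floor ?_
          rw [le_div_iff₀ hm0]
          linarith
        · rw [Finset.mem_biUnion]
          refine ⟨a, Finset.mem_univ _, ?_⟩
          rw [CL, Finset.mem_filter, mem_PL]
          exact ⟨⟨rfl, h4, rfl⟩, h1⟩
  calc (circ R ℓ t).ncard ≤ _ := Set.ncard_le_ncard h1 (Finset.finite_toSet _)
    _ = _ := Set.ncard_coe_finset _
    _ ≤ _ := Finset.card_image_le
    _ ≤ _ := Finset.card_biUnion_le
    _ ≤ _ := Finset.sum_le_sum fun n _ => Finset.card_biUnion_le

end

end Q186.ME
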