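import Mathlib

/-!
Finite metric graphs in the sense of Serre (oriented edges with an orientation reversal), their
subgraphs, circuits, entropy, and the optimal subgraph entropy constant `C r`.
-/

namespace Q186.ME

open Filter

/-- A graph with vertex set `V` and set `E` of ORIENTED edges; `inv` is the orientation reversal
(so a geometric edge is a pair `{e, inv e}`; loops and multiple edges are allowed), together with a
length function `len` on the geometric edges. -/
structure MGraph (V E : Type) where
  org : E → V
  inv : E → E
  inv_inv : ∀ e, inv (inv e) = e
  inv_ne : ∀ e, inv e ≠ e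
  len : E → ℝ
  len_inv : ∀ e, len (inv e) = len e
  len_pos : ∀ e, 0 < len e

namespace MGraph

variable {V E : Type} (G : MGraph V E)

/-- Terminus of an oriented edge. -/
def ter (e : E) : V := G.org (G.inv e)

/-- `f` may follow `e` in a path without backtracking. -/
def Follows (e f : E) : Prop := G.ter e = G.org f ∧ f ≠ G.inv e

/-- Length of a cyclic sequence of oriented edges. -/
def cycLen (c : Cycle E) : ℝ := (c.toMultiset.map G.len).sum

/-- The graph is (nonempty and) connected. -/
def Connected : Prop :=
  Nonempty V ∧ ∀ v w : V, Relation.ReflTransGen (fun a b => ∃ e, G.org e = a ∧ G.ter e = b) v w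

/-- `rk π₁ = #(geometric edges) - #(vertices) + 1` for a connected graph; here `#E` is twice the
number of geometric edges. -/
def HasRank [Fintype V] [Fintype E] (_G : MGraph V E) (r : ℕ) : Prop :=
  Fintype.card E + 2 = 2 * (Fintype.card V + r)

/-- A subgraph: a set of vertices and edges closed under reversal and under taking endpoints. -/
structure Subgraph (G : MGraph V E) where
  verts : Set V
  edges : Set E
  inv_mem : ∀ e ∈ edges, G.inv e ∈ edges
  org_mem : ∀ e ∈ edges, G.org e ∈ verts

/-- The graph as a subgraph of itself. -/
def whole : G.Subgraph := ⟨Set.univ, Set.univ, fun _ _ => trivial, fun _ _ => trivial⟩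

variable {G}

/-- The circuits of length at most `t` of a subgraph: (nonempty) cyclic sequences of oriented edges
of the subgraph, each followed by an edge starting at its terminus and without backtracking. -/
def Subgraph.circuits (H : G.Subgraph) (t : ℝ) : Set (Cycle E) :=
  {c | c ≠ Cycle.nil ∧ c.Chain G.Follows ∧ (∀ e ∈ c, e ∈ H.edges) ∧ G.cycLen c ≤ t}

/-- The entropy of a subgraph (with the restricted length function). -/
noncomputable def Subgraph.entropy (H : G.Subgraph) : ℝ :=
  limsup (fun t : ℝ => Real.log ((H.circuits t).ncard : ℝ) / t) atTop

variable (G)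

/-- The largest entropy of a proper subgraph (a maximum over a finite set). -/
noncomputable def maxProper : ℝ := sSup {x : ℝ | ∃ H : G.Subgraph, H ≠ G.whole ∧ x = H.entropy}

end MGraph

/-- The values `max_{G' ⊊ G} h_{G'}` over all metric graphs of rank `r` and entropy one. -/
def values (r : ℕ) : Set ℝ :=
  {x : ℝ | ∃ (V E : Type) (_ : Fintype V) (_ : Fintype E) (G : MGraph V E),
    G.Connected ∧ G.HasRank r ∧ G.whole.entropy = 1 ∧ x = G.maxProper}

/-- The optimal subgraph entropy constant. -/
noncomputable def C (r : ℕ) : ℝ := sInf (values r)

end Q186.ME
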