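import Pool.Agent.Q186.ME.Ana

/-!
The vertex inequality.
-/

namespace Q186.ME

open Real Set

/-- `η_s(a) = (1-a²)^s G_s(a)` -/
noncomputable def eta (s a : ℝ) : ℝ := (1 - a ^ 2) ^ s * Gs s a

theorem eta_neg (s a : ℝ) : eta s (-a) = -eta s a := by
  unfold eta; rw [Gs_neg, neg_sq]; ring

theorem eta_zero (s : ℝ) : eta s 0 = 0 := by unfold eta; rw [Gs_zero, mul_zero]

theorem hasDerivAt_eta (s : ℝ) {a : ℝ} (ha : a ∈ Ioo (-1:ℝ) 1) :
    HasDerivAt (eta s) (1 - 2 * s * (a * (1 - a ^ 2) ^ (s - 1) * Gs s a)) a := by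
  have hpos := one_sub_sq_pos ha
  have h0 : HasDerivAt (fun x : ℝ => 1 - x ^ 2) (-(2 * a)) a := by
    simpa using ((hasDerivAt_id a).pow 2).const_sub 1
  have h1 := (h0.rpow_const (p := s) (Or.inl hpos.ne')).mul (hasDerivAt_Gs s ha)
  refine h1.congr_deriv ?_
  have h2 : (1 - a ^ 2) ^ s * (1 - a ^ 2) ^ (-s) = 1 := by
    rw [← Real.rpow_add hpos, add_neg_cancel, Real.rpow_zero]
  rw [h2]
  ring

theorem eta'_anti {s a b : ℝ} (hs0 : 0 ≤ s) (hs1 : s ≤ 1) (ha : 0 ≤ a) (hab : a ≤ b) (hb : b < 1) :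
    1 - 2 * s * (b * (1 - b ^ 2) ^ (s - 1) * Gs s b) ≤
      1 - 2 * s * (a * (1 - a ^ 2) ^ (s - 1) * Gs s a) := by
  have ha1 : a < 1 := lt_of_le_of_lt hab hb
  have hpa := one_sub_sq_pos (t := a) ⟨by linarith, ha1⟩
  have hpb := one_sub_sq_pos (t := b) ⟨by linarith, hb⟩
  have h1 : (1 - a ^ 2) ^ (s - 1) ≤ (1 - b ^ 2) ^ (s - 1) :=
    Real.rpow_le_rpow_of_nonpos hpb (by nlinarith) (by linarith)
  have h2 : Gs s a ≤ Gs s b := le_of_hasDerivAt hab
    (fun x hx => hasDerivAt_Gs s ⟨by linarith [hx.1], by linarith [hx.2]⟩)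
    (fun x hx => (Real.rpow_pos_of_pos (one_sub_sq_pos ⟨by linarith [hx.1], by linarith [hx.2]⟩) _).le)
  have h3 : 0 ≤ Gs s a := Gs_nonneg hs0 ha ha1
  have h4 : 0 ≤ (1 - a ^ 2) ^ (s - 1) := (Real.rpow_pos_of_pos hpa _).le
  have h5 : a * (1 - a ^ 2) ^ (s - 1) * Gs s a ≤ b * (1 - b ^ 2) ^ (s - 1) * Gs s b :=
    mul_le_mul (mul_le_mul hab h1 h4 (ha.trans hab)) h2 h3
      (mul_nonneg (ha.trans hab) (h4.trans h1))
  nlinarith

/-- Step 3 -/
theorem G_diff {s A : ℝ} (hs0 : 0 ≤ s) (hA : 1 / 2 ≤ A) (hA1 : A < 1) :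
    (1 - A) * (4 * A * (1 - A)) ^ (-s) ≤ Gs s A - Gs s (2 * A - 1) := by
  set k := (4 * A * (1 - A)) ^ (-s) with hk
  have h := le_of_hasDerivAt (f := fun x => Gs s x - k * x)
    (f' := fun x => (1 - x ^ 2) ^ (-s) - k) (a := 2 * A - 1) (b := A) (by linarith)
    (fun x hx => by
      refine ((hasDerivAt_Gs s (a := x) ⟨by linarith [hx.1], by linarith [hx.2]⟩).sub
        ((hasDerivAt_id x).const_mul k)).congr_deriv ?_
      ring)
    (fun x hx => by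
      have hx1 := one_sub_sq_pos (t := x) ⟨by linarith [hx.1], by linarith [hx.2]⟩
      have : k ≤ (1 - x ^ 2) ^ (-s) := by
        refine Real.rpow_le_rpow_of_nonpos hx1 ?_ (by linarith)
        nlinarith [hx.1, hx.2]
      linarith)
  nlinarith

/-- Step 4 -/
theorem G_lower {s B : ℝ} (hs0 : 0 ≤ s) (hs1 : s < 1) (hB0 : 0 ≤ B) (hB1 : B < 1) :
    (2:ℝ) ^ (-s) * (1 - (1 - B) ^ (1 - s)) / (1 - s) ≤ Gs s B := by
  have hs : 0 < 1 - s := by linarith
  have h := le_of_hasDerivAt (f := fun x => Gs s x + (2:ℝ) ^ (-s) * (1 - x) ^ (1 - s) / (1 - s))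
    (f' := fun x => (1 - x ^ 2) ^ (-s) - (2:ℝ) ^ (-s) * (1 - x) ^ (-s)) hB0
    (fun x hx => by
      have hx1 : 0 < 1 - x := by linarith [hx.2]
      have h0 : HasDerivAt (fun x : ℝ => 1 - x) (-1) x := by
        simpa using (hasDerivAt_id x).const_sub 1
      have h1 := (hasDerivAt_Gs s (a := x) ⟨by linarith [hx.1], by linarith [hx.2]⟩).add
        (((h0.rpow_const (p := 1 - s) (Or.inl hx1.ne')).const_mul ((2:ℝ) ^ (-s))).div_const (1 - s))
      refine h1.congr_deriv ?_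
      rw [show (1 - s - 1 : ℝ) = -s by ring]
      field_simp
      ring)
    (fun x hx => by
      have hx1 : 0 < 1 - x := by linarith [hx.2]
      have hx2 := one_sub_sq_pos (t := x) ⟨by linarith [hx.1], by linarith [hx.2]⟩
      rw [← Real.mul_rpow (by norm_num) hx1.le]
      have : (2 * (1 - x)) ^ (-s) ≤ (1 - x ^ 2) ^ (-s) :=
        Real.rpow_le_rpow_of_nonpos hx2 (by nlinarith [hx.1]) (by linarith)
      linarith)
  simp only [Gs_zero, sub_zero, Real.one_rpow] at h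
  have e : (2:ℝ) ^ (-s) * (1 - (1 - B) ^ (1 - s)) / (1 - s) =
      (2:ℝ) ^ (-s) * 1 / (1 - s) - (2:ℝ) ^ (-s) * (1 - B) ^ (1 - s) / (1 - s) := by
    field_simp
  rw [e]
  linarith

/-- Step 5 -/
theorem G_key {s A c : ℝ} (hs0 : 0 ≤ s) (hs1 : s < 1) (hA : 1 / 2 ≤ A) (hA1 : A < 1)
    (hc1 : c ≤ (2:ℝ) ^ (-s)) (hc2 : c ≤ Real.log 2) :
    c ≤ 2 * Gs s A - (2:ℝ) ^ s * Gs s (2 * A - 1) := by
  have hs : 0 < 1 - s := by linarith
  set t := (2 * (1 - A)) ^ (1 - s) with ht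
  have hv : 0 < 1 - A := by linarith
  have ht0 : 0 ≤ t := (Real.rpow_pos_of_pos (by linarith) _).le
  have ht1 : t ≤ 1 := Real.rpow_le_one (by linarith) (by linarith) hs.le
  have h2s : (2:ℝ) ^ s * (2:ℝ) ^ (-s) = 1 := by
    rw [← Real.rpow_add (by norm_num), add_neg_cancel, Real.rpow_zero]
  have hps : 0 < (2:ℝ) ^ s := Real.rpow_pos_of_pos (by norm_num) _
  have hps' : 0 < (2:ℝ) ^ (-s) := Real.rpow_pos_of_pos (by norm_num) _
  have h2s1 : (2:ℝ) ^ s ≤ 2 := by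
    calc (2:ℝ) ^ s ≤ (2:ℝ) ^ (1:ℝ) := Real.rpow_le_rpow_of_exponent_le (by norm_num) hs1.le
      _ = 2 := Real.rpow_one 2
  -- first term
  have h1 : (2:ℝ) ^ (-s) * t ≤ 2 * (Gs s A - Gs s (2 * A - 1)) := by
    have h3 := G_diff hs0 hA hA1
    have h4 : (4 * (1 - A)) ^ (-s) ≤ (4 * A * (1 - A)) ^ (-s) := by
      refine Real.rpow_le_rpow_of_nonpos ?_ ?_ (by linarith)
      · have : 0 < A := by linarith
        positivity
      · nlinarith
    have h5 : (2:ℝ) ^ (-s) * t = 2 * ((1 - A) * (4 * (1 - A)) ^ (-s)) := by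
      have e1 : (4 * (1 - A)) ^ (-s) = (2:ℝ) ^ (-s) * (2 * (1 - A)) ^ (-s) := by
        rw [← Real.mul_rpow (by norm_num) (by linarith)]
        congr 1
        ring
      have e2 : t = (2 * (1 - A)) * (2 * (1 - A)) ^ (-s) := by
        rw [ht, show (1 - s : ℝ) = 1 + (-s) by ring, Real.rpow_add (by linarith), Real.rpow_one]
      rw [e1, e2]
      ring
    rw [h5]
    have h6 := mul_le_mul_of_nonneg_left h4 hv.le
    linarith
  -- second term
  have h2 : Real.log 2 * (1 - t) ≤ (2 - (2:ℝ) ^ s) * Gs s (2 * A - 1) := by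
    have h3 := G_lower (B := 2 * A - 1) hs0 hs1 (by linarith) (by linarith)
    rw [show (1 - (2 * A - 1) : ℝ) = 2 * (1 - A) by ring, ← ht] at h3
    have h4 : (2 - (2:ℝ) ^ s) * ((2:ℝ) ^ (-s) * (1 - t) / (1 - s)) ≤
        (2 - (2:ℝ) ^ s) * Gs s (2 * A - 1) := mul_le_mul_of_nonneg_left h3 (by linarith)
    refine le_trans ?_ h4
    have h5 : (2 - (2:ℝ) ^ s) * (2:ℝ) ^ (-s) = (2:ℝ) ^ (1 - s) - 1 := by
      rw [sub_mul, h2s, show (1 - s : ℝ) = 1 + (-s) by ring, Real.rpow_add (by norm_num),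
        Real.rpow_one]
    have h6 : (1 - s) * Real.log 2 ≤ (2:ℝ) ^ (1 - s) - 1 := by
      rw [Real.rpow_def_of_pos (by norm_num)]
      have := Real.add_one_le_exp (Real.log 2 * (1 - s))
      linarith
    have h7 : (2 - (2:ℝ) ^ s) * ((2:ℝ) ^ (-s) * (1 - t) / (1 - s)) =
        ((2:ℝ) ^ (1 - s) - 1) * (1 - t) / (1 - s) := by
      rw [← h5]; ring
    rw [h7, le_div_iff₀ hs]
    have h8 := mul_le_mul_of_nonneg_right h6 (by linarith : 0 ≤ 1 - t)
    linarith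
  have h3 : c * t ≤ (2:ℝ) ^ (-s) * t := mul_le_mul_of_nonneg_right hc1 ht0
  have h4 : c * (1 - t) ≤ Real.log 2 * (1 - t) := mul_le_mul_of_nonneg_right hc2 (by linarith)
  nlinarith

theorem eta_double {s A c : ℝ} (hs0 : 0 ≤ s) (hs1 : s < 1) (hA : 1 / 2 ≤ A) (hA1 : A < 1)
    (hc1 : c ≤ (2:ℝ) ^ (-s)) (hc2 : c ≤ Real.log 2) :
    c * (1 - A ^ 2) ^ s ≤ 2 * eta s A - eta s (2 * A - 1) := by
  have hpos := one_sub_sq_pos (t := A) ⟨by linarith, hA1⟩
  have hB := Gs_nonneg (s := s) (a := 2 * A - 1) hs0 (by linarith) (by linarith)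
  have h1 : (1 - (2 * A - 1) ^ 2) ^ s ≤ (2:ℝ) ^ s * (1 - A ^ 2) ^ s := by
    rw [← Real.mul_rpow (by norm_num) hpos.le]
    refine Real.rpow_le_rpow ?_ ?_ hs0
    · nlinarith
    · nlinarith
  have h2 := G_key hs0 hs1 hA hA1 hc1 hc2
  unfold eta
  have h3 : (1 - (2 * A - 1) ^ 2) ^ s * Gs s (2 * A - 1) ≤
      (2:ℝ) ^ s * (1 - A ^ 2) ^ s * Gs s (2 * A - 1) := mul_le_mul_of_nonneg_right h1 hB
  have h4 : (1 - A ^ 2) ^ s * c ≤
      (1 - A ^ 2) ^ s * (2 * Gs s A - (2:ℝ) ^ s * Gs s (2 * A - 1)) :=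
    mul_le_mul_of_nonneg_left h2 (Real.rpow_pos_of_pos hpos _).le
  nlinarith

theorem two_term {s a b c : ℝ} (hs0 : 0 ≤ s) (hs1 : s < 1) (hab : a ≤ b) (hb : b < 1)
    (hsum : 1 ≤ a + b) (hc1 : c ≤ (2:ℝ) ^ (-s)) (hc2 : c ≤ Real.log 2) :
    c * (1 - b ^ 2) ^ s ≤ eta s a + eta s b - eta s (a + b - 1) := by
  have h := le_of_hasDerivAt (f := fun t => -(eta s t - eta s (t + (b - 1))))
    (f' := fun t => -((1 - 2 * s * (t * (1 - t ^ 2) ^ (s - 1) * Gs s t)) -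
      (1 - 2 * s * ((t + (b - 1)) * (1 - (t + (b - 1)) ^ 2) ^ (s - 1) * Gs s (t + (b - 1)))))) hab
    (fun x hx => by
      refine ((hasDerivAt_eta s ⟨by linarith [hx.1], by linarith [hx.2]⟩).sub
        (HasDerivAt.comp_add_const x (b - 1) (hasDerivAt_eta s ⟨by linarith [hx.1], by linarith [hx.2]⟩))).neg)
    (fun x hx => by
      have := eta'_anti (s := s) (a := x + (b - 1)) (b := x) hs0 hs1.le (by linarith [hx.1])
        (by linarith) (by linarith [hx.2])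
      linarith)
  have h2 := eta_double (s := s) (A := b) (c := c) hs0 hs1 (by linarith) hb hc1 hc2
  rw [show (2 * b - 1 : ℝ) = b + (b - 1) by ring] at h2
  rw [show (a + b - 1 : ℝ) = a + (b - 1) by ring]
  linarith

/-- two-term inequality in the variable `p` (`a = 1 - 2p`). -/
theorem two_term_p {s x y c μ : ℝ} (hs0 : 0 ≤ s) (hs1 : s < 1) (hx : 0 < x) (hy : 0 < y)
    (hxy : x + y ≤ 1 / 2) (hc0 : 0 ≤ c) (hc1 : c ≤ (2:ℝ) ^ (-s)) (hc2 : c ≤ Real.log 2)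
    (hμ0 : 0 ≤ μ) (hμx : μ ≤ 4 * x * (1 - x)) (hμy : μ ≤ 4 * y * (1 - y)) :
    c * μ ^ s ≤ eta s (1 - 2 * x) + eta s (1 - 2 * y) - eta s (1 - 2 * (x + y)) := by
  rcases le_total y x with h | h
  · have h1 := two_term (s := s) (a := 1 - 2 * x) (b := 1 - 2 * y) (c := c) hs0 hs1 (by linarith)
      (by linarith) (by linarith) hc1 hc2
    rw [show (1 - 2 * x + (1 - 2 * y) - 1 : ℝ) = 1 - 2 * (x + y) by ring] at h1
    refine le_trans (mul_le_mul_of_nonneg_left ?_ hc0) h1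
    exact Real.rpow_le_rpow hμ0 (by nlinarith) hs0
  · have h1 := two_term (s := s) (a := 1 - 2 * y) (b := 1 - 2 * x) (c := c) hs0 hs1 (by linarith)
      (by linarith) (by linarith) hc1 hc2
    rw [show (1 - 2 * y + (1 - 2 * x) - 1 : ℝ) = 1 - 2 * (x + y) by ring] at h1
    have h2 : c * μ ^ s ≤ c * (1 - (1 - 2 * x) ^ 2) ^ s :=
      mul_le_mul_of_nonneg_left (Real.rpow_le_rpow hμ0 (by nlinarith) hs0) hc0
    linarith

theorem tele {ι : Type*} [DecidableEq ι] {s c μ : ℝ} (hs0 : 0 ≤ s) (hs1 : s < 1)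
    (hc0 : 0 ≤ c) (hc1 : c ≤ (2:ℝ) ^ (-s)) (hc2 : c ≤ Real.log 2) (hμ0 : 0 ≤ μ) (p : ι → ℝ)
    (D : Finset ι) (hD : D.Nonempty) :
    (∀ e ∈ D, 0 < p e) → (∀ e ∈ D, μ ≤ 4 * p e * (1 - p e)) → (∑ e ∈ D, p e ≤ 1 / 2) →
    0 < ∑ e ∈ D, p e ∧ μ ≤ 4 * (∑ e ∈ D, p e) * (1 - ∑ e ∈ D, p e) ∧
    c * (D.card - 1) * μ ^ s ≤ ∑ e ∈ D, eta s (1 - 2 * p e) - eta s (1 - 2 * ∑ e ∈ D, p e) := by
  induction hD using Finset.Nonempty.cons_induction with
  | singleton a =>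
    intro h1 h2 h3
    simp only [Finset.sum_singleton, Finset.card_singleton, Nat.cast_one, sub_self, mul_zero,
      zero_mul, le_refl, and_true]
    exact ⟨h1 a (Finset.mem_singleton_self a), h2 a (Finset.mem_singleton_self a)⟩
  | cons a D ha hne ih =>
    intro h1 h2 h3
    rw [Finset.sum_cons] at h3
    have hpa : 0 < p a := h1 a (Finset.mem_cons_self a D)
    have hμa : μ ≤ 4 * p a * (1 - p a) := h2 a (Finset.mem_cons_self a D)
    obtain ⟨i1, i2, i3⟩ := ih (fun e he => h1 e (Finset.mem_cons_of_mem he))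
      (fun e he => h2 e (Finset.mem_cons_of_mem he)) (by linarith)
    rw [Finset.sum_cons, Finset.sum_cons, Finset.card_cons]
    refine ⟨by linarith, ?_, ?_⟩
    · nlinarith
    · have h4 := two_term_p hs0 hs1 hpa i1 h3 hc0 hc1 hc2 hμ0 hμa i2
      push_cast
      nlinarith

/-- The vertex inequality. -/
theorem vertex_ineq {ι : Type*} [DecidableEq ι] {s c μ : ℝ} (hs0 : 0 ≤ s) (hs1 : s < 1)
    (hc0 : 0 ≤ c) (hc1 : c ≤ (2:ℝ) ^ (-s)) (hc2 : c ≤ Real.log 2) (hμ0 : 0 ≤ μ) (p : ι → ℝ)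
    (D : Finset ι) (hcard : 2 ≤ D.card) (hp : ∀ e ∈ D, 0 < p e)
    (hμ : ∀ e ∈ D, μ ≤ 4 * p e * (1 - p e)) (hsum : ∑ e ∈ D, p e = 1) :
    c * (D.card - 2) * μ ^ s ≤ ∑ e ∈ D, eta s (1 - 2 * p e) := by
  by_cases hbig : ∃ e ∈ D, 1 / 2 < p e
  · obtain ⟨e, he, hpe⟩ := hbig
    have hins : D = insert e (D.erase e) := (Finset.insert_erase he).symm
    have hs2 : p e + ∑ x ∈ D.erase e, p x = 1 := by
      rw [← hsum, Finset.add_sum_erase D p he]
    have hs3 : eta s (1 - 2 * p e) + ∑ x ∈ D.erase e, eta s (1 - 2 * p x) =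
        ∑ x ∈ D, eta s (1 - 2 * p x) := Finset.add_sum_erase D (fun x => eta s (1 - 2 * p x)) he
    have hc : (D.erase e).card = D.card - 1 := Finset.card_erase_of_mem he
    have hne : (D.erase e).Nonempty := by
      rw [← Finset.card_pos, hc]; omega
    obtain ⟨-, -, h3⟩ := tele hs0 hs1 hc0 hc1 hc2 hμ0 p (D.erase e) hne
      (fun x hx => hp x (Finset.mem_of_mem_erase hx))
      (fun x hx => hμ x (Finset.mem_of_mem_erase hx)) (by linarith)
    rw [hc, Nat.cast_sub (by omega)] at h3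
    have h4 : eta s (1 - 2 * p e) = -eta s (1 - 2 * ∑ x ∈ D.erase e, p x) := by
      rw [← eta_neg]
      congr 1
      linarith
    rw [← hs3, h4]
    push_cast at h3
    linarith
  · push Not at hbig
    have hc1' : c ≤ 1 := hc1.trans (Real.rpow_le_one_of_one_le_of_nonpos (by norm_num) (by linarith))
    have hterm : ∀ e ∈ D, μ ^ s * (1 - 2 * p e) ≤ eta s (1 - 2 * p e) := by
      intro e he
      have h1 := hp e he
      have h2 := hbig e he
      unfold eta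
      refine mul_le_mul ?_ (le_Gs hs0 (by linarith) (by linarith)) (by linarith) ?_
      · refine Real.rpow_le_rpow hμ0 ?_ hs0
        have := hμ e he
        nlinarith
      · exact Real.rpow_nonneg (by nlinarith) _
    have h5 := Finset.sum_le_sum hterm
    rw [← Finset.mul_sum, Finset.sum_sub_distrib, ← Finset.mul_sum, hsum] at h5
    simp only [Finset.sum_const, nsmul_eq_mul, mul_one] at h5
    refine le_trans ?_ h5
    have hcd : (0:ℝ) ≤ D.card - 2 := by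
      have : (2:ℝ) ≤ D.card := by exact_mod_cast hcard
      linarith
    have := mul_nonneg (mul_nonneg (by linarith : 0 ≤ 1 - c) hcd) (Real.rpow_nonneg hμ0 s)
    linarith

end Q186.ME
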