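import Pool.Agent.Q186.ME.Graph
import Pool.Agent.Q186.ME.Vert

/-!
The quadratic form of a subgraph: ground state positivity.
-/

namespace Q186.ME

namespace MGraph

variable {V E : Type} (G : MGraph V E) [Fintype V] [Fintype E] [DecidableEq V] [DecidableEq E]

/-- orientation reversal as an equivalence -/
def invEquiv : E ≃ E := ⟨G.inv, G.inv, G.inv_inv, G.inv_inv⟩

omit [Fintype V] [DecidableEq V] [Fintype E] [DecidableEq E] in
theorem sum_inv (K : Finset E) (hK : ∀ e ∈ K, G.inv e ∈ K) (τ : E → ℝ) :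
    ∑ e ∈ K, τ (G.inv e) = ∑ e ∈ K, τ e := by
  refine Finset.sum_nbij' (i := G.inv) (j := G.inv) hK hK ?_ ?_ ?_
  · intro e _; exact G.inv_inv e
  · intro e _; exact G.inv_inv e
  · intro e _; rfl

omit [Fintype V] [DecidableEq V] [Fintype E] [DecidableEq E] in
theorem two_mul_sum (K : Finset E) (hK : ∀ e ∈ K, G.inv e ∈ K) (τ : E → ℝ) :
    2 * ∑ e ∈ K, τ e = ∑ e ∈ K, (τ e + τ (G.inv e)) := by
  rw [Finset.sum_add_distrib, sum_inv G K hK]; ring

/-- vertex sums -/
def vs (K : Finset E) (g : E → ℝ) (v : V) : ℝ := ∑ e ∈ K.filter (fun e => G.org e = v), g e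

/-- the form -/
noncomputable def form (K : Finset E) (q : E → ℝ) (x : V → ℝ) : ℝ :=
  ∑ v, x v ^ 2 + ∑ e ∈ K, (q e ^ 2 * x (G.org e) ^ 2 - q e * x (G.org e) * x (G.ter e)) / (1 - q e ^ 2)

theorem ground_state (K : Finset E) (hK : ∀ e ∈ K, G.inv e ∈ K) (q : E → ℝ)
    (hq0 : ∀ e, 0 < q e) (hq1 : ∀ e, q e < 1) (hqi : ∀ e, q (G.inv e) = q e) (g : E → ℝ)
    (hg : ∀ e ∈ K, g e = 1 + q e * (G.vs K g (G.ter e) - g (G.inv e)))
    (hS : ∀ v, 0 < G.vs K g v) (x : V → ℝ) : 0 ≤ G.form K q x := by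
  set S := G.vs K g with hSdef
  have hqq : ∀ e, 0 < 1 - q e ^ 2 := fun e => by nlinarith [hq0 e, hq1 e]
  have hsolve : ∀ e ∈ K, g e = 1 / (1 + q e) +
      (q e * S (G.ter e) - q e ^ 2 * S (G.org e)) / (1 - q e ^ 2) := by
    intro e he
    have h1 := hg e he
    have h2 := hg (G.inv e) (hK e he)
    rw [hqi, G.inv_inv] at h2
    have h3 : G.ter (G.inv e) = G.org e := by unfold ter; rw [G.inv_inv]
    rw [h3] at h2
    have hp : 0 < 1 + q e := by linarith [hq0 e]
    have h4 : (1 - q e ^ 2) = (1 - q e) * (1 + q e) := by ring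
    have h5 : 0 < 1 - q e := by linarith [hq1 e]
    rw [h4]
    field_simp
    have h6 : g e = 1 + q e * (S (G.ter e) - (1 + q e * (S (G.org e) - g e))) := by
      rw [← h2]; exact h1
    linear_combination h6
  have hx : ∑ v, x v ^ 2 = ∑ e ∈ K, x (G.org e) ^ 2 / S (G.org e) * g e := by
    rw [← Finset.sum_fiberwise (s := K) (g := G.org)
      (f := fun e => x (G.org e) ^ 2 / S (G.org e) * g e)]
    refine Finset.sum_congr rfl fun v _ => ?_
    have h1 : ∑ e ∈ K.filter (fun e => G.org e = v), x (G.org e) ^ 2 / S (G.org e) * g e =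
        ∑ e ∈ K.filter (fun e => G.org e = v), x v ^ 2 / S v * g e := by
      refine Finset.sum_congr rfl fun e he => ?_
      rw [(Finset.mem_filter.1 he).2]
    rw [h1, ← Finset.mul_sum]
    have h2 : ∑ e ∈ K.filter (fun e => G.org e = v), g e = S v := rfl
    rw [h2, div_mul_cancel₀ _ (hS v).ne']
  unfold form
  rw [hx, ← Finset.sum_add_distrib]
  let τ : E → ℝ := fun e => q e / (1 - q e ^ 2) *
    (x (G.org e) ^ 2 * S (G.ter e) / S (G.org e) - x (G.org e) * x (G.ter e))
  have hrw : ∀ e ∈ K, x (G.org e) ^ 2 / S (G.org e) * g e +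
      (q e ^ 2 * x (G.org e) ^ 2 - q e * x (G.org e) * x (G.ter e)) / (1 - q e ^ 2) =
      x (G.org e) ^ 2 / (S (G.org e) * (1 + q e)) + τ e := by
    intro e he
    rw [hsolve e he]
    simp only [τ]
    have := hS (G.org e)
    have := hqq e
    have : 0 < 1 + q e := by linarith [hq0 e]
    field_simp
    ring
  rw [Finset.sum_congr rfl hrw, Finset.sum_add_distrib]
  have hτ : 0 ≤ ∑ e ∈ K, τ e := by
    have h1 : 0 ≤ 2 * ∑ e ∈ K, τ e := by
      rw [two_mul_sum G K hK]
      refine Finset.sum_nonneg fun e _ => ?_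
      have h3 : G.ter (G.inv e) = G.org e := by unfold ter; rw [G.inv_inv]
      have h4 : G.org (G.inv e) = G.ter e := rfl
      simp only [τ]
      rw [hqi, h3, h4]
      have ho := hS (G.org e)
      have ht := hS (G.ter e)
      have e1 : q e / (1 - q e ^ 2) *
          (x (G.org e) ^ 2 * S (G.ter e) / S (G.org e) - x (G.org e) * x (G.ter e)) +
          q e / (1 - q e ^ 2) *
          (x (G.ter e) ^ 2 * S (G.org e) / S (G.ter e) - x (G.ter e) * x (G.org e)) =
          q e / (1 - q e ^ 2) * (S (G.org e) * S (G.ter e) *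
            (x (G.org e) / S (G.org e) - x (G.ter e) / S (G.ter e)) ^ 2) := by
        have := (hqq e).ne'
        field_simp
        ring
      rw [e1]
      exact mul_nonneg (div_nonneg (hq0 e).le (hqq e).le)
        (mul_nonneg (mul_pos ho ht).le (sq_nonneg _))
    linarith
  have h2 : 0 ≤ ∑ e ∈ K, x (G.org e) ^ 2 / (S (G.org e) * (1 + q e)) :=
    Finset.sum_nonneg fun e _ => div_nonneg (sq_nonneg _)
      (mul_pos (hS _) (by linarith [hq0 e])).le
  linarith

/-- If a proper edge set `K` has entropy `< s`, the form at parameter `s` is nonnegative. -/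
theorem form_nonneg_of_entropy_lt (H : G.Subgraph) (K : Finset E) (hKH : ∀ e, e ∈ K ↔ e ∈ H.edges)
    {s : ℝ} (hs : 0 < s) (hent : H.entropy < s) (hcov : ∀ v : V, ∃ e ∈ K, G.org e = v)
    (x : V → ℝ) : 0 ≤ G.form K (fun e => Real.exp (-(s * G.len e))) x := by
  classical
  have hK : ∀ e ∈ K, G.inv e ∈ K := fun e he => (hKH _).2 (H.inv_mem e ((hKH e).1 he))
  rcases pf_dichotomy (mat (G.RB H.edges) G.len s) (mat_nonneg _ _ _) with
    ⟨g, hg1, hg⟩ | ⟨u, ρ, hρ, hu, hne, hu1⟩
  · refine ground_state G K hK _ (fun e => Real.exp_pos _)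
      (fun e => Real.exp_lt_one_iff.2 (by have := G.len_pos e; nlinarith [mul_pos hs (G.len_pos e)]))
      (fun e => by simp only [G.len_inv]) g ?_ ?_ x
    · intro e he
      conv_lhs => rw [hg e]
      congr 1
      have h1 : ∀ f, mat (G.RB H.edges) G.len s e f * g f =
          Real.exp (-(s * G.len e)) * (if f ∈ K ∧ G.Follows e f then g f else 0) := by
        intro f
        unfold mat RB
        have he' := (hKH e).1 he
        by_cases hf : f ∈ K ∧ G.Follows e f
        · rw [if_pos hf, if_pos ⟨he', (hKH f).1 hf.1, hf.2⟩]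
        · rw [if_neg hf, if_neg (fun h => hf ⟨(hKH f).2 h.2.1, h.2.2⟩)]
          ring
      rw [Finset.sum_congr rfl fun f _ => h1 f, ← Finset.mul_sum]
      congr 1
      rw [← Finset.sum_filter]
      unfold vs
      have hmem : G.inv e ∈ K.filter (fun f => G.org f = G.ter e) :=
        Finset.mem_filter.2 ⟨hK e he, rfl⟩
      rw [← Finset.add_sum_erase _ _ hmem, add_sub_cancel_left]
      refine Finset.sum_congr ?_ fun _ _ => rfl
      ext f
      simp only [Finset.mem_filter, Finset.mem_univ, true_and, Finset.mem_erase]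
      constructor
      · rintro ⟨h2, h3, h4⟩
        exact ⟨h4, h2, h3.symm⟩
      · rintro ⟨h2, h3, h4⟩
        exact ⟨h3, h4.symm, h2⟩
    · intro v
      obtain ⟨e, he, hev⟩ := hcov v
      refine Finset.sum_pos (fun e _ => lt_of_lt_of_le one_pos (hg1 e)) ⟨e, ?_⟩
      exact Finset.mem_filter.2 ⟨he, hev⟩
  · exfalso
    have := le_rate_circ (G.RB H.edges) G.len G.len_pos hs u hu hne (fun e => by
      rw [hu1 e]
      nlinarith [hu e])
    rw [← entropy_eq] at this
    linarith

end MGraph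

end Q186.ME
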