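import Pool.Agent.Q186.ME.Growth

/-!
A nonzero nonnegative subsolution `u ≤ M_s u` forces growth rate at least `s`.
-/

namespace Q186.ME

open Filter Topology

section
variable {E : Type*} [Fintype E] [DecidableEq E]

/-- an irreducible subsolution exists -/
theorem exists_irred (A : E → E → ℝ) (hA : ∀ e f, 0 ≤ A e f) (u : E → ℝ) (hu : ∀ e, 0 ≤ u e)
    (hne : ∃ e, 0 < u e) (hsub : ∀ e, u e ≤ ∑ f, A e f * u f) :
    ∃ v : E → ℝ, (∀ e, 0 ≤ v e) ∧ (∃ e, 0 < v e) ∧ (∀ e, v e ≤ ∑ f, A e f * v f) ∧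
      ∀ e f, 0 < v e → 0 < v f → Relation.ReflTransGen (fun x y => 0 < A x y) e f := by
  classical
  let sol : (E → ℝ) → Prop := fun v => (∀ e, 0 ≤ v e) ∧ (∃ e, 0 < v e) ∧
    (∀ e, v e ≤ ∑ f, A e f * v f)
  have hex : ∃ n : ℕ, ∃ v, sol v ∧ (Finset.univ.filter fun e => 0 < v e).card = n :=
    ⟨_, u, ⟨hu, hne, hsub⟩, rfl⟩
  obtain ⟨v, hv, hcard⟩ := Nat.find_spec hex
  refine ⟨v, hv.1, hv.2.1, hv.2.2, fun e f he hf => ?_⟩
  -- the set reachable from e
  let r : E → E → Prop := Relation.ReflTransGen (fun x y => 0 < A x y ∧ 0 < v y)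
  let D : E → Prop := fun f => ∃ e', (0 < A e e' ∧ 0 < v e') ∧ r e' f
  have hstep : ∀ x y, D x → 0 < A x y → 0 < v y → D y := by
    rintro x y ⟨e', h1, h2⟩ h3 h4
    exact ⟨e', h1, h2.tail ⟨h3, h4⟩⟩
  obtain ⟨e', he', hve'⟩ : ∃ e', 0 < A e e' ∧ 0 < v e' := by
    have h1 : 0 < ∑ f, A e f * v f := lt_of_lt_of_le he (hv.2.2 e)
    obtain ⟨e', he'⟩ : ∃ e', 0 < A e e' * v e' := by
      by_contra hcon
      push Not at hcon
      exact absurd h1 (not_lt.2 (Finset.sum_nonpos fun f _ => hcon f))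
    rcases (hA e e').eq_or_lt with h | h
    · rw [← h, zero_mul] at he'; exact absurd he' (lt_irrefl _)
    · exact ⟨e', h, (pos_iff_pos_of_mul_pos he').1 h⟩
  have hDe' : D e' := ⟨e', ⟨he', hve'⟩, Relation.ReflTransGen.refl⟩
  let w : E → ℝ := fun x => if D x then v x else 0
  have hw0 : ∀ x, 0 ≤ w x := fun x => by simp only [w]; split_ifs; exacts [hv.1 x, le_rfl]
  have hwsol : sol w := by
    refine ⟨hw0, ⟨e', by simp only [w]; rw [if_pos hDe']; exact hve'⟩, fun x => ?_⟩
    by_cases hx : D x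
    · have h1 : ∑ f, A x f * w f = ∑ f, A x f * v f := by
        refine Finset.sum_congr rfl fun y _ => ?_
        simp only [w]
        split_ifs with hy
        · rfl
        · rcases (hA x y).eq_or_lt with h | h
          · rw [← h, zero_mul, zero_mul]
          · rcases (hv.1 y).eq_or_lt with h' | h'
            · rw [← h']
            · exact absurd (hstep x y hx h h') hy
      rw [h1]
      simp only [w]
      rw [if_pos hx]
      exact hv.2.2 x
    · simp only [w]
      rw [if_neg hx]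
      exact Finset.sum_nonneg fun f _ => mul_nonneg (hA x f) (hw0 f)
  have hmin := Nat.find_min' hex ⟨w, hwsol, rfl⟩
  have hsubset : (Finset.univ.filter fun e => 0 < w e) ⊆ (Finset.univ.filter fun e => 0 < v e) := by
    intro x hx
    rw [Finset.mem_filter] at hx ⊢
    refine ⟨hx.1, ?_⟩
    have := hx.2
    simp only [w] at this
    split_ifs at this with h
    · exact this
    · exact absurd this (lt_irrefl _)
  have heq := Finset.eq_of_subset_of_card_le hsubset (by rw [hcard]; exact hmin)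
  have hfw : 0 < w f := by
    have : f ∈ (Finset.univ.filter fun e => 0 < w e) := by
      rw [heq, Finset.mem_filter]; exact ⟨Finset.mem_univ _, hf⟩
    exact (Finset.mem_filter.1 this).2
  have hDf : D f := by
    simp only [w] at hfw
    split_ifs at hfw with h
    · exact h
    · exact absurd hfw (lt_irrefl _)
  obtain ⟨g, hg1, hg2⟩ := hDf
  exact Relation.ReflTransGen.head hg1.1 (Relation.ReflTransGen.mono (fun x y h => h.1) _ _ hg2)

/-- recurrence: infinitely many closed path sums bounded below -/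
theorem exists_recur (A : E → E → ℝ) (hA : ∀ e f, 0 ≤ A e f) (u : E → ℝ) (hu : ∀ e, 0 ≤ u e)
    (hne : ∃ e, 0 < u e) (hsub : ∀ e, u e ≤ ∑ f, A e f * u f) :
    ∃ (e : E) (c : ℝ), 0 < c ∧ ∀ n, ∃ n' ≥ n, c ≤ W A n' e e := by
  classical
  obtain ⟨v, hv0, ⟨e, he⟩, hv, hirr⟩ := exists_irred A hA u hu hne hsub
  have hk : ∀ f, ∃ k : ℕ, 0 < v f → 0 < W A k f e := by
    intro f
    by_cases hf : 0 < v f
    · obtain ⟨k, hk⟩ := exists_W_pos hA (hirr f e hf he)
      exact ⟨k, fun _ => hk⟩
    · exact ⟨0, fun h => absurd h hf⟩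
  choose k hk using hk
  -- lower bound δ
  obtain ⟨δ, hδ0, hδ⟩ : ∃ δ : ℝ, 0 < δ ∧ ∀ f, 0 < v f → δ ≤ W A (k f) f e := by
    have : ∀ f, ∃ δ : ℝ, 0 < δ ∧ (0 < v f → δ ≤ W A (k f) f e) := by
      intro f
      by_cases hf : 0 < v f
      · exact ⟨_, hk f hf, fun _ => le_rfl⟩
      · exact ⟨1, one_pos, fun h => absurd h hf⟩
    choose δ h1 h2 using this
    have : Nonempty E := ⟨e⟩
    obtain ⟨f0, hf0⟩ := Finite.exists_min δ
    exact ⟨δ f0, h1 f0, fun f hf => (hf0 f).trans (h2 f hf)⟩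
  obtain ⟨M, hM0, hM⟩ : ∃ M : ℝ, 0 < M ∧ ∀ f, v f ≤ M := by
    have : Nonempty E := ⟨e⟩
    obtain ⟨f0, hf0⟩ := Finite.exists_max v
    exact ⟨v f0, lt_of_lt_of_le he (hf0 e), hf0⟩
  set K : ℝ := (Fintype.card E : ℝ) with hK
  have hK0 : 0 < K := by
    rw [hK]; exact_mod_cast Fintype.card_pos_iff.2 ⟨e⟩
  refine ⟨e, v e / (K * M) * δ, by positivity, fun n => ?_⟩
  have h1 := W_sub hA v hv n e
  obtain ⟨f, hf⟩ : ∃ f, v e / K ≤ W A n e f * v f := by
    by_contra hcon
    push Not at hcon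
    have : ∑ f, W A n e f * v f < ∑ f : E, v e / K :=
      Finset.sum_lt_sum_of_nonempty ⟨e, Finset.mem_univ e⟩ fun f _ => hcon f
    rw [Finset.sum_const, Finset.card_univ, nsmul_eq_mul, ← hK] at this
    have h2 : K * (v e / K) = v e := by field_simp
    linarith
  have hpos : 0 < v e / K := by positivity
  have hvf : 0 < v f := by
    rcases (hv0 f).eq_or_lt with h | h
    · rw [← h, mul_zero] at hf; linarith
    · exact h
  have h3 : v e / (K * M) ≤ W A n e f := by
    have h4 : W A n e f * v f ≤ W A n e f * M :=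
      mul_le_mul_of_nonneg_left (hM f) (W_nonneg hA n e f)
    rw [← div_div, div_le_iff₀ hM0]
    linarith
  refine ⟨n + k f, Nat.le_add_right _ _, ?_⟩
  calc v e / (K * M) * δ ≤ W A n e f * W A (k f) f e :=
        mul_le_mul h3 (hδ f hvf) hδ0.le (W_nonneg hA n e f)
    _ ≤ _ := W_mul_le hA n (k f) e f e

variable (R : E → E → Prop) [DecidableRel R] (ℓ : E → ℝ)

theorem le_rate_circ (hℓ : ∀ e, 0 < ℓ e) {s : ℝ} (hs : 0 < s) (u : E → ℝ) (hu : ∀ e, 0 ≤ u e)
    (hne : ∃ e, 0 < u e) (hsub : ∀ e, u e ≤ ∑ f, mat R ℓ s e f * u f) :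
    s ≤ rate (fun t => (circ R ℓ t).ncard) := by
  by_contra hcon
  push Not at hcon
  obtain ⟨m, hm0, hm⟩ := exists_min_pos ℓ hℓ
  obtain ⟨M, hM0, hM⟩ := exists_max ℓ hℓ
  have hr0 := rate_nonneg (circ_bdd R ℓ hℓ)
  obtain ⟨s', hs'1, hs'2⟩ := exists_between hcon
  have hs'0 : 0 ≤ s' := hr0.trans hs'1.le
  obtain ⟨T, hT⟩ := exists_exp_bound (circ_bdd R ℓ hℓ) hs'1
  obtain ⟨e, c, hc, hrec⟩ := exists_recur (mat R ℓ s) (mat_nonneg R ℓ s) u hu hne hsub
  set b := s - s' with hb
  have hb0 : 0 < b := by linarith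
  -- upper bound
  have hupper : ∀ n : ℕ, 1 ≤ n → T ≤ m * n → W (mat R ℓ s) n e e ≤
      ((M * n + 1) * n) * (Real.exp (s' + b) * Real.exp (-(b * (m * n)))) := by
    intro n hn hTn
    rw [← sum_PL R ℓ s n e e]
    have hlen : ∀ l ∈ PL R n e e, m * n ≤ (l.map ℓ).sum ∧ (l.map ℓ).sum ≤ M * n := by
      intro l hl
      have h1 := ((mem_PL R n e e l).1 hl).1
      rw [← h1]
      exact ⟨sum_ge_of_min ℓ hm l, sum_le_of_max ℓ hM l⟩
    have hmaps : ∀ l ∈ PL R n e e, ⌊(l.map ℓ).sum⌋₊ ∈ Finset.range (⌊M * n⌋₊ + 1) := by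
      intro l hl
      rw [Finset.mem_range, Nat.lt_succ_iff]
      exact Nat.floor_le_floor (hlen l hl).2
    rw [← Finset.sum_fiberwise_of_maps_to hmaps]
    have hfib : ∀ j ∈ Finset.range (⌊M * n⌋₊ + 1),
        ∑ l ∈ (PL R n e e).filter (fun l => ⌊(l.map ℓ).sum⌋₊ = j),
          Real.exp (-(s * (l.map ℓ).sum)) ≤
          n * (Real.exp (s' + b) * Real.exp (-(b * (m * n)))) := by
      intro j _
      rcases Finset.eq_empty_or_nonempty
        ((PL R n e e).filter (fun l => ⌊(l.map ℓ).sum⌋₊ = j)) with h0 | ⟨l0, hl0⟩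
      · rw [h0, Finset.sum_empty]; positivity
      · rw [Finset.mem_filter] at hl0
        have hj1 : m * n < j + 1 := by
          have := Nat.lt_floor_add_one (l0.map ℓ).sum
          rw [hl0.2] at this
          exact lt_of_le_of_lt (hlen l0 hl0.1).1 this
        have hterm : ∀ l ∈ (PL R n e e).filter (fun l => ⌊(l.map ℓ).sum⌋₊ = j),
            Real.exp (-(s * (l.map ℓ).sum)) ≤ Real.exp (-(s * j)) := by
          intro l hl
          rw [Finset.mem_filter] at hl
          refine Real.exp_le_exp.2 (neg_le_neg (mul_le_mul_of_nonneg_left ?_ hs.le))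
          rw [← hl.2]
          refine Nat.floor_le ?_
          have := (hlen l hl.1).1
          have : 0 ≤ m * n := by positivity
          linarith
        have hcard : (((PL R n e e).filter (fun l => ⌊(l.map ℓ).sum⌋₊ = j)).card : ℝ) ≤
            n * Real.exp (s' * (j + 1)) := by
          have h1 : ((PL R n e e).filter (fun l => ⌊(l.map ℓ).sum⌋₊ = j)) ⊆
              CL R ℓ n e (j + 1) := by
            intro l hl
            rw [Finset.mem_filter] at hl
            rw [CL, Finset.mem_filter]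
            refine ⟨hl.1, ?_⟩
            have := Nat.lt_floor_add_one (l.map ℓ).sum
            rw [hl.2] at this
            exact this.le
          have h2 : (((PL R n e e).filter (fun l => ⌊(l.map ℓ).sum⌋₊ = j)).card : ℝ) ≤
              (CL R ℓ n e (j + 1)).card := by exact_mod_cast Finset.card_le_card h1
          have h3 : ((CL R ℓ n e (j + 1)).card : ℝ) ≤ n * (circ R ℓ (j + 1)).ncard := by
            exact_mod_cast card_CL_le R ℓ hm0 hm hn e (j + 1)
          have h4 := hT (j + 1) (by linarith)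
          have h5 : (n:ℝ) * (circ R ℓ (j + 1)).ncard ≤ n * Real.exp (s' * (j + 1)) :=
            mul_le_mul_of_nonneg_left h4 (Nat.cast_nonneg _)
          linarith
        calc ∑ l ∈ (PL R n e e).filter (fun l => ⌊(l.map ℓ).sum⌋₊ = j),
              Real.exp (-(s * (l.map ℓ).sum)) ≤
            ∑ l ∈ (PL R n e e).filter (fun l => ⌊(l.map ℓ).sum⌋₊ = j), Real.exp (-(s * j)) :=
              Finset.sum_le_sum hterm
          _ = (((PL R n e e).filter (fun l => ⌊(l.map ℓ).sum⌋₊ = j)).card : ℝ) *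
                Real.exp (-(s * j)) := by rw [Finset.sum_const, nsmul_eq_mul]
          _ ≤ (n * Real.exp (s' * (j + 1))) * Real.exp (-(s * j)) :=
              mul_le_mul_of_nonneg_right hcard (Real.exp_pos _).le
          _ = n * Real.exp (s' + b - b * (j + 1)) := by
              rw [mul_assoc, ← Real.exp_add]
              congr 2
              rw [hb]; ring
          _ ≤ n * Real.exp (s' + b - b * (m * n)) := by
              refine mul_le_mul_of_nonneg_left (Real.exp_le_exp.2 ?_) (Nat.cast_nonneg _)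
              have := mul_le_mul_of_nonneg_left hj1.le hb0.le
              linarith
          _ = _ := by rw [sub_eq_add_neg, Real.exp_add]
    calc _ ≤ ∑ j ∈ Finset.range (⌊M * n⌋₊ + 1),
          (n * (Real.exp (s' + b) * Real.exp (-(b * (m * n)))) : ℝ) := Finset.sum_le_sum hfib
      _ = ((⌊M * n⌋₊ + 1 : ℕ) : ℝ) * (n * (Real.exp (s' + b) * Real.exp (-(b * (m * n))))) := by
          rw [Finset.sum_const, Finset.card_range, nsmul_eq_mul]
      _ ≤ (M * n + 1) * (n * (Real.exp (s' + b) * Real.exp (-(b * (m * n))))) := by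
          refine mul_le_mul_of_nonneg_right ?_ (by positivity)
          push_cast
          have : (⌊M * n⌋₊ : ℝ) ≤ M * n := Nat.floor_le (by positivity)
          linarith
      _ = _ := by ring
  -- the bound tends to zero
  have hlim : Tendsto (fun n : ℕ => ((M * n + 1) * n : ℝ) *
      (Real.exp (s' + b) * Real.exp (-(b * (m * n))))) atTop (𝓝 0) := by
    have hbm : 0 < b * m := by positivity
    have h1 : Tendsto (fun x : ℝ => x ^ 2 * Real.exp (-(b * m) * x)) atTop (𝓝 0) := by
      have := tendsto_rpow_mul_exp_neg_mul_atTop_nhds_zero 2 (b * m) hbm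
      simpa using this
    have h2 : Tendsto (fun x : ℝ => x ^ 1 * Real.exp (-(b * m) * x)) atTop (𝓝 0) := by
      have := tendsto_rpow_mul_exp_neg_mul_atTop_nhds_zero 1 (b * m) hbm
      simpa using this
    have h3 := ((h1.const_mul (M * Real.exp (s' + b))).add
      (h2.const_mul (Real.exp (s' + b)))).comp tendsto_natCast_atTop_atTop
    rw [mul_zero, mul_zero, add_zero] at h3
    refine h3.congr fun n => ?_
    simp only [Function.comp]
    have : -(b * m) * (n:ℝ) = -(b * (m * n)) := by ring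
    rw [this]
    ring
  obtain ⟨N1, hN1⟩ := eventually_atTop.1 (hlim.eventually_lt_const hc)
  obtain ⟨N2, hN2⟩ := exists_nat_ge (T / m)
  obtain ⟨n, hn, hcn⟩ := hrec (max (max N1 N2) 1)
  have hnN1 : N1 ≤ n := le_trans (le_trans (le_max_left _ _) (le_max_left _ _)) hn
  have hnN2 : N2 ≤ n := le_trans (le_trans (le_max_right _ _) (le_max_left _ _)) hn
  have hn1 : 1 ≤ n := le_trans (le_max_right _ _) hn
  have hTn : T ≤ m * n := by
    rw [div_le_iff₀ hm0] at hN2
    have : (N2 : ℝ) ≤ n := by exact_mod_cast hnN2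
    nlinarith
  have := hupper n hn1 hTn
  have h2 := hN1 n hnN1
  linarith

end

end Q186.ME
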