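import Mathlib

/-!
Perron-Frobenius dichotomy for a nonnegative matrix on a finite index set.
-/

namespace Q186.ME

open Filter Topology

variable {ι : Type*} [Fintype ι]

theorem exists_sol_of_super (A : ι → ι → ℝ) (hA : ∀ i j, 0 ≤ A i j) (h : ι → ℝ)
    (hh : ∀ i, 0 ≤ h i) (hs : ∀ i, 1 + ∑ j, A i j * h j ≤ h i) :
    ∃ g : ι → ℝ, (∀ i, 0 ≤ g i) ∧ ∀ i, g i = 1 + ∑ j, A i j * g j := by
  let x : ℕ → ι → ℝ := fun n => Nat.rec (fun _ => 0) (fun _ y i => 1 + ∑ j, A i j * y j) n
  have x0 : ∀ i, x 0 i = 0 := fun i => rfl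
  have xs : ∀ n i, x (n+1) i = 1 + ∑ j, A i j * x n j := fun n i => rfl
  have hnn : ∀ n i, 0 ≤ x n i := by
    intro n
    induction n with
    | zero => intro i; rw [x0]
    | succ n ih =>
      intro i
      rw [xs]
      have : 0 ≤ ∑ j, A i j * x n j := Finset.sum_nonneg fun j _ => mul_nonneg (hA i j) (ih j)
      linarith
  have hmono : ∀ n i, x n i ≤ x (n+1) i := by
    intro n
    induction n with
    | zero => intro i; rw [x0]; exact hnn 1 i
    | succ n ih =>
      intro i
      rw [xs n, xs (n+1)]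
      have : ∑ j, A i j * x n j ≤ ∑ j, A i j * x (n+1) j :=
        Finset.sum_le_sum fun j _ => mul_le_mul_of_nonneg_left (ih j) (hA i j)
      linarith
  have hle : ∀ n i, x n i ≤ h i := by
    intro n
    induction n with
    | zero => intro i; rw [x0]; exact hh i
    | succ n ih =>
      intro i
      rw [xs]
      have : ∑ j, A i j * x n j ≤ ∑ j, A i j * h j :=
        Finset.sum_le_sum fun j _ => mul_le_mul_of_nonneg_left (ih j) (hA i j)
      linarith [hs i]
  have hlim : ∀ i, ∃ l, Tendsto (fun n => x n i) atTop (𝓝 l) := by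
    intro i
    have hm : Monotone (fun n => x n i) := monotone_nat_of_le_succ fun n => hmono n i
    exact ⟨_, tendsto_atTop_ciSup hm ⟨h i, by rintro _ ⟨n, rfl⟩; exact hle n i⟩⟩
  choose g hg using hlim
  refine ⟨g, fun i => ge_of_tendsto' (hg i) fun n => hnn n i, fun i => ?_⟩
  have h1 : Tendsto (fun n => x (n+1) i) atTop (𝓝 (g i)) := (tendsto_add_atTop_iff_nat 1).2 (hg i)
  have h2 : Tendsto (fun n => x (n+1) i) atTop (𝓝 (1 + ∑ j, A i j * g j)) := by
    simp only [xs]
    exact tendsto_const_nhds.add (tendsto_finsetSum _ fun j _ => (hg j).const_mul _)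
  exact tendsto_nhds_unique h1 h2

theorem pf_dichotomy (A : ι → ι → ℝ) (hA : ∀ i j, 0 ≤ A i j) :
    (∃ g : ι → ℝ, (∀ i, 1 ≤ g i) ∧ ∀ i, g i = 1 + ∑ j, A i j * g j) ∨
    (∃ (u : ι → ℝ) (ρ : ℝ), 1 ≤ ρ ∧ (∀ i, 0 ≤ u i) ∧ (∃ i, 0 < u i) ∧
      ∀ i, ∑ j, A i j * u j = ρ * u i) := by
  let S : Set ℝ := {θ | 0 ≤ θ ∧ θ ≤ 1 ∧ ∃ g : ι → ℝ, (∀ i, 0 ≤ g i) ∧
    ∀ i, g i = 1 + θ * ∑ j, A i j * g j}
  have h0 : (0:ℝ) ∈ S := ⟨le_rfl, zero_le_one, fun _ => 1, fun _ => zero_le_one, fun i => by simp⟩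
  have hb : BddAbove S := ⟨1, fun θ h => h.2.1⟩
  set θs := sSup S with hθs
  have hs0 : 0 ≤ θs := le_csSup hb h0
  have hs1 : θs ≤ 1 := csSup_le ⟨0, h0⟩ fun θ h => h.2.1
  obtain ⟨θ, -, hθlim, hθS⟩ := exists_seq_tendsto_sSup ⟨0, h0⟩ hb
  choose g hg0 hg1 using fun n => (hθS n).2.2
  by_cases hbd : ∃ (R : ℝ) , ∃ᶠ n in atTop, ‖g n‖ ≤ R
  · -- a limit solution
    obtain ⟨R, hR⟩ := hbd
    obtain ⟨φ, hφ, hφR⟩ := extraction_of_frequently_atTop hR
    have hcomp : IsCompact (Metric.closedBall (0 : ι → ℝ) R) := isCompact_closedBall _ _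
    obtain ⟨G, hG, ψ, hψ, hlim⟩ := hcomp.tendsto_subseq (x := fun n => g (φ n))
      (fun n => by simpa [mem_closedBall_zero_iff] using hφR n)
    have hθ2 : Tendsto (fun n => θ (φ (ψ n))) atTop (𝓝 θs) :=
      hθlim.comp (hφ.tendsto_atTop.comp hψ.tendsto_atTop)
    have hcoord : ∀ i, Tendsto (fun n => g (φ (ψ n)) i) atTop (𝓝 (G i)) := fun i =>
      ((continuous_apply i).tendsto G).comp hlim
    have hG0 : ∀ i, 0 ≤ G i := fun i => ge_of_tendsto' (hcoord i) fun n => hg0 _ i
    have hG1 : ∀ i, G i = 1 + θs * ∑ j, A i j * G j := by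
      intro i
      have h2 : Tendsto (fun n => g (φ (ψ n)) i) atTop (𝓝 (1 + θs * ∑ j, A i j * G j)) := by
        have : (fun n => g (φ (ψ n)) i) =
            fun n => 1 + θ (φ (ψ n)) * ∑ j, A i j * g (φ (ψ n)) j := by
          funext n; exact hg1 _ i
        rw [this]
        exact tendsto_const_nhds.add
          (hθ2.mul (tendsto_finsetSum _ fun j _ => (hcoord j).const_mul _))
      exact tendsto_nhds_unique (hcoord i) h2
    rcases eq_or_lt_of_le hs1 with h1 | h1
    · left
      refine ⟨G, fun i => ?_, fun i => by rw [hG1 i, h1, one_mul]⟩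
      rw [hG1 i, h1, one_mul]
      have : 0 ≤ ∑ j, A i j * G j := Finset.sum_nonneg fun j _ => mul_nonneg (hA i j) (hG0 j)
      linarith
    · -- contradiction with the supremum
      exfalso
      obtain ⟨M, hM0, hM⟩ : ∃ M : ℝ, 0 < M ∧ ∀ i, ∑ j, A i j * G j ≤ M := by
        refine ⟨1 + ∑ i, ∑ j, A i j * G j, ?_, fun i => ?_⟩
        · have : 0 ≤ ∑ i, ∑ j, A i j * G j :=
            Finset.sum_nonneg fun i _ => Finset.sum_nonneg fun j _ => mul_nonneg (hA i j) (hG0 j)
          linarith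
        · have := Finset.single_le_sum (f := fun i => ∑ j, A i j * G j)
            (fun i _ => Finset.sum_nonneg fun j _ => mul_nonneg (hA i j) (hG0 j))
            (Finset.mem_univ i)
          linarith
      set θ' := min 1 (θs + 1 / (2 * M)) with hθ'
      have h2M : 0 < 1 / (2 * M) := by positivity
      have hgt : θs < θ' := lt_min h1 (by linarith)
      have hmem : θ' ∈ S := by
        refine ⟨hs0.trans hgt.le, min_le_left _ _, ?_⟩
        have hle : (θ' - θs) * M ≤ 1 / 2 := by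
          have : θ' - θs ≤ 1 / (2 * M) := by
            have := min_le_right 1 (θs + 1 / (2 * M))
            linarith
          calc (θ' - θs) * M ≤ 1 / (2 * M) * M := mul_le_mul_of_nonneg_right this hM0.le
            _ = 1 / 2 := by field_simp
        have hθ'0 : 0 ≤ θ' := hs0.trans hgt.le
        obtain ⟨g', hg'0, hg'1⟩ := exists_sol_of_super (fun i j => θ' * A i j)
          (fun i j => mul_nonneg hθ'0 (hA i j)) (fun i => 2 * G i)
          (fun i => mul_nonneg (by norm_num) (hG0 i)) (by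
            intro i
            have e1 : ∑ j, θ' * A i j * (2 * G j) = 2 * θ' * ∑ j, A i j * G j := by
              rw [Finset.mul_sum]
              exact Finset.sum_congr rfl fun j _ => by ring
            rw [e1]
            have h3 : 0 ≤ ∑ j, A i j * G j :=
              Finset.sum_nonneg fun j _ => mul_nonneg (hA i j) (hG0 j)
            have h4 : (θ' - θs) * ∑ j, A i j * G j ≤ (θ' - θs) * M :=
              mul_le_mul_of_nonneg_left (hM i) (by linarith)
            have h5 := hG1 i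
            nlinarith)
        refine ⟨g', hg'0, fun i => ?_⟩
        rw [hg'1 i, Finset.mul_sum]
        congr 1
        exact Finset.sum_congr rfl fun j _ => by ring
      exact absurd (le_csSup hb hmem) (not_le.2 hgt)
  · -- blow up
    right
    have hinf : Tendsto (fun n => ‖g n‖) atTop atTop := by
      rw [tendsto_atTop]
      intro R
      have : ¬ ∃ᶠ n in atTop, ‖g n‖ ≤ R := fun h => hbd ⟨R, h⟩
      rw [not_frequently] at this
      filter_upwards [this] with n hn
      exact (not_le.1 hn).le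
    have hcomp : IsCompact (Metric.sphere (0 : ι → ℝ) 1) := isCompact_sphere _ _
    obtain ⟨N, hN⟩ : ∃ N, ∀ n ≥ N, 1 ≤ ‖g n‖ := eventually_atTop.1 (hinf.eventually_ge_atTop 1)
    have hpos : ∀ n, 0 < ‖g (n + N)‖ := fun n =>
      lt_of_lt_of_le zero_lt_one (hN _ (Nat.le_add_left _ _))
    obtain ⟨u, hu, ψ, hψ, hlim⟩ := hcomp.tendsto_subseq
      (x := fun n => (‖g (n + N)‖)⁻¹ • g (n + N))
      (fun n => by
        rw [mem_sphere_zero_iff_norm, norm_smul, norm_inv, norm_norm]
        exact inv_mul_cancel₀ (hpos n).ne')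
    have hθ2 : Tendsto (fun n => θ (ψ n + N)) atTop (𝓝 θs) :=
      hθlim.comp ((tendsto_add_atTop_nat N).comp hψ.tendsto_atTop)
    have hinv : Tendsto (fun n => (‖g (ψ n + N)‖)⁻¹) atTop (𝓝 0) :=
      (hinf.comp ((tendsto_add_atTop_nat N).comp hψ.tendsto_atTop)).inv_tendsto_atTop
    have hcoord : ∀ i, Tendsto (fun n => (‖g (ψ n + N)‖)⁻¹ * g (ψ n + N) i) atTop (𝓝 (u i)) :=
      fun i => ((continuous_apply i).tendsto u).comp hlim
    have hu0 : ∀ i, 0 ≤ u i := fun i => ge_of_tendsto' (hcoord i) fun n =>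
      mul_nonneg (inv_nonneg.2 (norm_nonneg _)) (hg0 _ i)
    have hu1 : ∀ i, u i = θs * ∑ j, A i j * u j := by
      intro i
      have h2 : Tendsto (fun n => (‖g (ψ n + N)‖)⁻¹ * g (ψ n + N) i) atTop
          (𝓝 (0 + θs * ∑ j, A i j * u j)) := by
        have : (fun n => (‖g (ψ n + N)‖)⁻¹ * g (ψ n + N) i) =
            fun n => (‖g (ψ n + N)‖)⁻¹ + θ (ψ n + N) *
              ∑ j, A i j * ((‖g (ψ n + N)‖)⁻¹ * g (ψ n + N) j) := by
          funext n
          conv_lhs => rw [hg1 (ψ n + N) i]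
          rw [mul_add, mul_one]
          congr 1
          rw [Finset.mul_sum, Finset.mul_sum, Finset.mul_sum]
          exact Finset.sum_congr rfl fun j _ => by ring
        rw [this]
        exact hinv.add (hθ2.mul (tendsto_finsetSum _ fun j _ => (hcoord j).const_mul _))
      rw [zero_add] at h2
      exact tendsto_nhds_unique (hcoord i) h2
    have hune : u ≠ 0 := by
      intro h
      rw [mem_sphere_zero_iff_norm, h, norm_zero] at hu
      exact zero_ne_one hu
    obtain ⟨i, hi⟩ : ∃ i, 0 < u i := by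
      by_contra hcon
      push Not at hcon
      exact hune (funext fun i => le_antisymm (hcon i) (hu0 i))
    have hθpos : 0 < θs := by
      rcases eq_or_lt_of_le hs0 with h | h
      · exfalso
        have := hu1 i
        rw [← h, zero_mul] at this
        exact hi.ne' this
      · exact h
    refine ⟨u, θs⁻¹, (one_le_inv₀ hθpos).2 hs1, hu0, ⟨i, hi⟩, fun j => ?_⟩
    conv_rhs => rw [hu1 j]
    rw [inv_mul_cancel_left₀ hθpos.ne']

end Q186.ME
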