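import Pool.Agent.Q186.ME.Defs
import Pool.Agent.Q186.ME.PF
import Pool.Agent.Q186.ME.Lower

/-!
Circuits of subgraphs and the positive eigenvector.
-/

namespace Q186.ME

open Filter Topology

theorem isChain_of_forall_mem {α : Type*} {R S : α → α → Prop} {B : Set α}
    (h : ∀ a b, a ∈ B → b ∈ B → R a b → S a b) :
    ∀ l : List α, (∀ a ∈ l, a ∈ B) → List.IsChain R l → List.IsChain S l
  | [], _, _ => List.IsChain.nil
  | [a], _, _ => List.IsChain.singleton a
  | a :: b :: l, hB, hc => by
    rw [List.isChain_cons_cons] at hc ⊢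
    exact ⟨h a b (hB a (by simp)) (hB b (by simp)) hc.1,
      isChain_of_forall_mem h (b :: l) (fun x hx => hB x (by simp at hx ⊢; tauto)) hc.2⟩

theorem mem_of_isChain {α : Type*} {S : α → α → Prop} {B : Set α} (h : ∀ a b, S a b → a ∈ B) (x : α) :
    ∀ l : List α, List.IsChain S (l ++ [x]) → ∀ a ∈ l, a ∈ B
  | [], _ => by simp
  | [a], hc => by
    intro b hb
    rw [List.mem_singleton] at hb
    subst hb
    rw [List.singleton_append, List.isChain_cons_cons] at hc
    exact h _ _ hc.1
  | a :: b :: l, hc => by
    intro y hy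
    rw [List.cons_append, List.cons_append, List.isChain_cons_cons] at hc
    rw [List.mem_cons] at hy
    rcases hy with rfl | hy
    · exact h _ _ hc.1
    · exact mem_of_isChain h x (b :: l) hc.2 y hy

namespace MGraph

variable {V E : Type} {G : MGraph V E}

/-- successor relation inside an edge set -/
def RB (G : MGraph V E) (B : Set E) (e f : E) : Prop := e ∈ B ∧ f ∈ B ∧ G.Follows e f

theorem circuits_eq (H : G.Subgraph) (t : ℝ) :
    H.circuits t = circ (G.RB H.edges) G.len t := by
  ext c
  unfold Subgraph.circuits circ cycLen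
  simp only [Set.mem_setOf_eq]
  obtain ⟨l, rfl⟩ : ∃ l : List E, (l : Cycle E) = c := Quotient.exists_rep c
  cases l with
  | nil => simp
  | cons a l =>
    have key : (Cycle.Chain G.Follows ((a :: l : List E) : Cycle E) ∧
        (∀ e ∈ ((a :: l : List E) : Cycle E), e ∈ H.edges)) ↔
        Cycle.Chain (G.RB H.edges) ((a :: l : List E) : Cycle E) := by
      rw [Cycle.chain_coe_cons, Cycle.chain_coe_cons]
      simp only [Cycle.mem_coe_iff]
      constructor
      · rintro ⟨h1, h2⟩
        refine isChain_of_forall_mem (B := H.edges) (fun x y hx hy h => ⟨hx, hy, h⟩) _ ?_ h1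
        intro x hx
        refine h2 x ?_
        simp at hx ⊢
        tauto
      · intro h1
        exact ⟨isChain_of_forall_mem (B := Set.univ) (fun x y _ _ h => h.2.2) _ (by simp) h1,
          mem_of_isChain (S := G.RB H.edges) (fun x y h => h.1) a (a :: l) h1⟩
    tauto

theorem entropy_eq (H : G.Subgraph) :
    H.entropy = rate fun t => (circ (G.RB H.edges) G.len t).ncard := by
  unfold Subgraph.entropy rate
  simp only [circuits_eq]

/-! ### monotonicity -/

theorem circuits_mono {H K : G.Subgraph} (h : H.edges ⊆ K.edges) (t : ℝ) :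
    H.circuits t ⊆ K.circuits t := fun _ hc => ⟨hc.1, hc.2.1, fun e he => h (hc.2.2.1 e he), hc.2.2.2⟩

variable [Fintype E]

theorem circuits_finite (H : G.Subgraph) (t : ℝ) : (H.circuits t).Finite := by
  classical
  obtain ⟨m, hm0, hm⟩ := exists_min_pos G.len G.len_pos
  rw [circuits_eq]
  exact circ_finite _ _ hm0 hm t

theorem entropy_mono {H K : G.Subgraph} (h : H.edges ⊆ K.edges) : H.entropy ≤ K.entropy := by
  classical
  unfold Subgraph.entropy
  refine rate_mono (N := fun t => (H.circuits t).ncard) (N' := fun t => (K.circuits t).ncard)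
    (fun t => Set.ncard_le_ncard (circuits_mono h t) (circuits_finite K t)) ?_
  simp only [circuits_eq]
  exact circ_bdd _ _ G.len_pos

theorem entropy_nonneg (H : G.Subgraph) : 0 ≤ H.entropy := by
  classical
  rw [entropy_eq]
  exact rate_nonneg (circ_bdd _ _ G.len_pos)

theorem le_entropy (H : G.Subgraph) {s : ℝ} (hs : 0 < s) (u : E → ℝ) (hu : ∀ e, 0 ≤ u e)
    (hne : ∃ e, 0 < u e) (hsupp : ∀ e, 0 < u e → e ∈ H.edges)
    (hsub : ∀ e ∈ H.edges, 0 < u e →
      u e ≤ ∑ f, open Classical in if G.Follows e f then Real.exp (-(s * G.len e)) * u f else 0) :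
    s ≤ H.entropy := by
  classical
  rw [entropy_eq]
  refine le_rate_circ _ _ G.len_pos hs u hu hne fun e => ?_
  rcases (hu e).eq_or_lt with h | h
  · rw [← h]
    exact Finset.sum_nonneg fun f _ => mul_nonneg (mat_nonneg _ _ _ _ _) (hu f)
  · refine (hsub e (hsupp e h) h).trans (le_of_eq (Finset.sum_congr rfl fun f _ => ?_))
    unfold mat RB
    rcases (hu f).eq_or_lt with h' | h'
    · rw [← h']; simp
    · have := hsupp f h'
      have h2 := hsupp e h
      by_cases hf : G.Follows e f
      · rw [if_pos hf, if_pos ⟨h2, this, hf⟩]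
      · rw [if_neg hf, if_neg (fun hh => hf hh.2.2), zero_mul]

/-- if the entropy of the whole graph is `1` there is a nonnegative eigenvector -/
theorem exists_eigen (h1 : G.whole.entropy = 1) :
    ∃ u : E → ℝ, (∀ e, 0 ≤ u e) ∧ (∃ e, 0 < u e) ∧ ∀ e, u e =
      ∑ f, open Classical in if G.Follows e f then Real.exp (-G.len e) * u f else 0 := by
  classical
  have hmat : ∀ (s : ℝ) (e f : E) (x : ℝ), mat (G.RB G.whole.edges) G.len s e f * x =
      if G.Follows e f then Real.exp (-(s * G.len e)) * x else 0 := by
    intro s e f x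
    unfold mat RB whole
    simp only [Set.mem_univ, true_and]
    split_ifs <;> simp
  rcases pf_dichotomy (mat (G.RB G.whole.edges) G.len 1) (mat_nonneg _ _ _) with
    ⟨g, hg1, hg⟩ | ⟨u, ρ, hρ, hu, hne, hu1⟩
  · exfalso
    have := rate_circ_lt (G.RB G.whole.edges) G.len G.len_pos one_pos g
      (fun e => lt_of_lt_of_le one_pos (hg1 e)) (fun e => by rw [hg e]; linarith)
    rw [← entropy_eq, h1] at this
    exact lt_irrefl _ this
  · obtain ⟨M, hM0, hM⟩ := exists_max G.len G.len_pos
    rcases hρ.eq_or_lt with h | h
    · refine ⟨u, hu, hne, fun e => ?_⟩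
      have := hu1 e
      rw [← h, one_mul] at this
      rw [← this]
      refine Finset.sum_congr rfl fun f _ => ?_
      rw [hmat, one_mul]
    · exfalso
      have hlog := Real.log_pos h
      set δ := Real.log ρ / M with hδ
      have hδ0 : 0 < δ := by positivity
      have hδM : δ * M = Real.log ρ := by rw [hδ]; field_simp
      have := le_rate_circ (G.RB G.whole.edges) G.len G.len_pos (s := 1 + δ) (by positivity) u hu hne
        (fun e => by
          have h3 : Real.exp (-(Real.log ρ)) * ∑ f, mat (G.RB G.whole.edges) G.len 1 e f * u f ≤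
              ∑ f, mat (G.RB G.whole.edges) G.len (1 + δ) e f * u f := by
            rw [Finset.mul_sum]
            refine Finset.sum_le_sum fun f _ => ?_
            rw [hmat, hmat]
            split_ifs
            · rw [← mul_assoc, ← Real.exp_add]
              refine mul_le_mul_of_nonneg_right (Real.exp_le_exp.2 ?_) (hu f)
              have := mul_le_mul_of_nonneg_left (hM e) hδ0.le
              linarith
            · rw [mul_zero]
          rw [hu1 e, Real.exp_neg, Real.exp_log (by linarith),
            inv_mul_cancel_left₀ (by linarith)] at h3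
          exact h3)
      rw [← entropy_eq, h1] at this
      linarith

theorem follows_rev {e f : E} (h : G.Follows e f) : G.Follows (G.inv f) (G.inv e) := by
  refine ⟨?_, ?_⟩
  · unfold ter; rw [G.inv_inv, ← h.1]; rfl
  · rw [G.inv_inv]; exact fun h' => h.2 h'.symm

/-- positivity of the eigenvector when all proper subgraphs have entropy `< 1`. -/
theorem exists_pos_eigen (h1 : G.whole.entropy = 1)
    (hprop : ∀ H : G.Subgraph, H ≠ G.whole → H.entropy < 1) :
    ∃ u : E → ℝ, (∀ e, 0 < u e) ∧ ∀ e, u e =
      ∑ f, open Classical in if G.Follows e f then Real.exp (-G.len e) * u f else 0 := by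
  classical
  obtain ⟨u, hu, ⟨e0, he0⟩, hue⟩ := exists_eigen h1
  -- step 1
  have hP : ∀ e, 0 < u e ∨ 0 < u (G.inv e) := by
    by_contra hcon
    push Not at hcon
    obtain ⟨e1, he1, he1'⟩ := hcon
    let H : G.Subgraph := ⟨Set.univ, {e | 0 < u e ∨ 0 < u (G.inv e)},
      fun e he => by
        simp only [Set.mem_setOf_eq, G.inv_inv] at he ⊢
        exact he.symm, fun _ _ => trivial⟩
    have hne : H ≠ G.whole := by
      intro h
      have : e1 ∈ H.edges := by rw [h]; trivial
      rcases this with h | h
      · exact absurd h (not_lt.2 he1)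
      · exact absurd h (not_lt.2 he1')
    have := le_entropy H one_pos u hu ⟨e0, he0⟩ (fun e he => Or.inl he) (fun e _ _ => by
      conv_lhs => rw [hue e]
      rw [one_mul])
    exact absurd (hprop H hne) (not_lt.2 this)
  have hzero : ∀ e f, u e = 0 → G.Follows e f → u f = 0 := by
    intro e f he hf
    have h2 := hue e
    rw [he] at h2
    have h3 := (Finset.sum_eq_zero_iff_of_nonneg (fun g _ => by
      split_ifs
      · exact mul_nonneg (Real.exp_pos _).le (hu g)
      · exact le_rfl)).1 h2.symm f (Finset.mem_univ f)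
    rw [if_pos hf] at h3
    exact (mul_eq_zero.1 h3).resolve_left (Real.exp_pos _).ne'
  -- step 2 : leafless
  have hleaf : ∀ e, ∃ f, G.Follows e f := by
    by_contra hcon
    push Not at hcon
    obtain ⟨e, he⟩ := hcon
    have hue0 : u e = 0 := by
      rw [hue e]
      exact Finset.sum_eq_zero fun f _ => if_neg (he f)
    have huinv : 0 < u (G.inv e) := by
      rcases hP e with h | h
      · rw [hue0] at h; exact absurd h (lt_irrefl _)
      · exact h
    let H : G.Subgraph := ⟨Set.univ, {f | f ≠ e ∧ f ≠ G.inv e},
      fun f hf => by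
        simp only [Set.mem_setOf_eq] at hf ⊢
        refine ⟨fun h => hf.2 ?_, fun h => hf.1 ?_⟩
        · rw [← h, G.inv_inv]
        · have := congrArg G.inv h
          rwa [G.inv_inv, G.inv_inv] at this, fun _ _ => trivial⟩
    have hne : H ≠ G.whole := by
      intro h
      have : e ∈ H.edges := by rw [h]; trivial
      exact this.1 rfl
    have hnotfol : ∀ x, x ≠ e → ¬ G.Follows x (G.inv e) := by
      intro x hx hfol
      refine he (G.inv x) ⟨?_, ?_⟩
      · have := hfol.1
        unfold ter at this ⊢
        rw [← this]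
      · intro h
        apply hx
        have := congrArg G.inv h
        rwa [G.inv_inv, G.inv_inv] at this
    obtain ⟨f, hf, hf0⟩ : ∃ f, G.Follows (G.inv e) f ∧ 0 < u f := by
      by_contra hcon2
      push Not at hcon2
      have : u (G.inv e) ≤ 0 := by
        rw [hue (G.inv e)]
        refine Finset.sum_nonpos fun f _ => ?_
        split_ifs with h
        · exact mul_nonpos_of_nonneg_of_nonpos (Real.exp_pos _).le (hcon2 f h)
        · exact le_rfl
      linarith
    have hfe : f ≠ e := by rintro rfl; rw [hue0] at hf0; exact lt_irrefl _ hf0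
    have hfe' : f ≠ G.inv e := by
      rintro rfl
      refine he e ⟨?_, (G.inv_ne e).symm⟩
      have := hf.1
      unfold ter at this ⊢
      rw [G.inv_inv] at this
      exact this.symm
    have := le_entropy H one_pos (fun f => if f ∈ H.edges then u f else 0)
      (fun f => by split_ifs; exacts [hu f, le_rfl])
      ⟨f, by rw [if_pos (show f ∈ H.edges from ⟨hfe, hfe'⟩)]; exact hf0⟩
      (fun x hx => by
        by_contra h
        rw [if_neg h] at hx
        exact lt_irrefl _ hx)
      (fun x hx _ => by
        rw [if_pos hx]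
        conv_lhs => rw [hue x]
        refine le_of_eq (Finset.sum_congr rfl fun y _ => ?_)
        split_ifs with h2 h3
        · rw [one_mul]
        · have h4 : y = e ∨ y = G.inv e := by
            by_contra h5
            push Not at h5
            exact h3 h5
          rcases h4 with rfl | rfl
          · rw [hue0, mul_zero, mul_zero]
          · exact absurd h2 (hnotfol x hx.1)
        · rfl)
    exact absurd (hprop H hne) (not_lt.2 this)
  -- step 3
  refine ⟨u, ?_, hue⟩
  by_contra hcon
  push Not at hcon
  obtain ⟨e1, he1⟩ := hcon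
  have hZ : (Finset.univ.filter fun e => u e = 0).Nonempty :=
    ⟨e1, Finset.mem_filter.2 ⟨Finset.mem_univ _, le_antisymm he1 (hu e1)⟩⟩
  obtain ⟨e, he, hmin⟩ := Finset.exists_min_image _ (fun e => u (G.inv e)) hZ
  rw [Finset.mem_filter] at he
  have he2 : 0 < u (G.inv e) := by
    rcases hP e with h | h
    · rw [he.2] at h; exact absurd h (lt_irrefl _)
    · exact h
  obtain ⟨f, hf⟩ := hleaf e
  have hf0 := hzero e f he.2 hf
  have hsum : u (G.inv f) = Real.exp (-G.len f) * u (G.inv e) := by
    rw [hue (G.inv f), Finset.sum_eq_single (G.inv e)]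
    · rw [if_pos (follows_rev hf), G.len_inv]
    · intro g _ hg
      split_ifs with h
      · have : u g = 0 := by
          refine hzero e g he.2 ⟨?_, hg⟩
          have h3 := h.1
          unfold ter at h3
          rw [G.inv_inv] at h3
          rw [hf.1, h3]
        rw [this, mul_zero]
      · rfl
    · intro h; exact absurd (Finset.mem_univ _) h
  have hle := hmin f (Finset.mem_filter.2 ⟨Finset.mem_univ _, hf0⟩)
  rw [hsum] at hle
  have hlt : Real.exp (-G.len f) < 1 := Real.exp_lt_one_iff.2 (by linarith [G.len_pos f])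
  nlinarith

end MGraph

end Q186.ME
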