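import Pool.Agent.Q186.ME.Circ

/-!
The exponential growth rate of the number of circuits: upper bound from a supersolution, lower bound
from a subsolution.
-/

namespace Q186.ME

open Filter Topology

/-- exponential growth rate -/
noncomputable def rate (N : ℝ → ℕ) : ℝ := limsup (fun t : ℝ => Real.log (N t : ℝ) / t) atTop

theorem rate_nonneg_aux (N : ℝ → ℕ) : ∀ᶠ t in atTop, 0 ≤ Real.log (N t : ℝ) / t := by
  filter_upwards [eventually_gt_atTop 0] with t ht
  exact div_nonneg (Real.log_natCast_nonneg _) ht.le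

theorem rate_cobdd (N : ℝ → ℕ) :
    IsCoboundedUnder (· ≤ ·) atTop (fun t : ℝ => Real.log (N t : ℝ) / t) :=
  IsBoundedUnder.isCoboundedUnder_le ⟨0, by simpa using rate_nonneg_aux N⟩

theorem log_div_le {N : ℝ → ℕ} {c s : ℝ} (hc : 1 ≤ c) (hs : 0 ≤ s)
    (hN : ∀ t, 1 ≤ t → (N t : ℝ) ≤ c * t * Real.exp (s * t)) {ε : ℝ} (hε : 0 < ε) :
    ∀ᶠ t in atTop, Real.log (N t : ℝ) / t ≤ s + ε := by
  have h1 : Tendsto (fun t : ℝ => Real.log c / t + Real.log t / t) atTop (𝓝 (0 + 0)) := by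
    refine Tendsto.add (tendsto_const_nhds.div_atTop tendsto_id) ?_
    exact Real.isLittleO_log_id_atTop.tendsto_div_nhds_zero
  rw [add_zero] at h1
  filter_upwards [h1.eventually_le_const hε, eventually_ge_atTop 1] with t ht ht1
  have ht0 : 0 < t := by linarith
  have hlogt : 0 ≤ Real.log t := Real.log_nonneg ht1
  have hlogc : 0 ≤ Real.log c := Real.log_nonneg hc
  rcases Nat.eq_zero_or_pos (N t) with h | h
  · rw [h, Nat.cast_zero, Real.log_zero, zero_div]; linarith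
  · have hpos : (0:ℝ) < N t := by exact_mod_cast h
    have h2 : Real.log (N t : ℝ) ≤ Real.log c + Real.log t + s * t := by
      calc Real.log (N t : ℝ) ≤ Real.log (c * t * Real.exp (s * t)) :=
            Real.log_le_log hpos (hN t ht1)
        _ = _ := by
          rw [Real.log_mul (by positivity) (Real.exp_pos _).ne',
            Real.log_mul (by positivity) ht0.ne', Real.log_exp]
    calc Real.log (N t : ℝ) / t ≤ (Real.log c + Real.log t + s * t) / t :=
          div_le_div_of_nonneg_right h2 ht0.le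
      _ = s + (Real.log c / t + Real.log t / t) := by field_simp; ring
      _ ≤ s + ε := by linarith

theorem rate_bdd {N : ℝ → ℕ} {c s : ℝ} (hc : 1 ≤ c) (hs : 0 ≤ s)
    (hN : ∀ t, 1 ≤ t → (N t : ℝ) ≤ c * t * Real.exp (s * t)) :
    IsBoundedUnder (· ≤ ·) atTop (fun t : ℝ => Real.log (N t : ℝ) / t) :=
  ⟨s + 1, by simpa using log_div_le hc hs hN zero_lt_one⟩

theorem rate_le {N : ℝ → ℕ} {c s : ℝ} (hc : 1 ≤ c) (hs : 0 ≤ s)
    (hN : ∀ t, 1 ≤ t → (N t : ℝ) ≤ c * t * Real.exp (s * t)) : rate N ≤ s := by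
  refine le_of_forall_pos_le_add fun ε hε => ?_
  exact limsup_le_of_le (rate_cobdd N) (log_div_le hc hs hN hε)

theorem rate_nonneg {N : ℝ → ℕ}
    (hb : IsBoundedUnder (· ≤ ·) atTop (fun t : ℝ => Real.log (N t : ℝ) / t)) : 0 ≤ rate N :=
  le_limsup_of_frequently_le (rate_nonneg_aux N).frequently hb

theorem rate_mono {N N' : ℝ → ℕ} (h : ∀ t, N t ≤ N' t)
    (hb : IsBoundedUnder (· ≤ ·) atTop (fun t : ℝ => Real.log (N' t : ℝ) / t)) :
    rate N ≤ rate N' := by
  refine limsup_le_limsup ?_ (rate_cobdd N) hb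
  filter_upwards [eventually_gt_atTop 0] with t ht
  refine div_le_div_of_nonneg_right ?_ ht.le
  rcases Nat.eq_zero_or_pos (N t) with h0 | h0
  · rw [h0, Nat.cast_zero, Real.log_zero]; exact Real.log_natCast_nonneg _
  · exact Real.log_le_log (by exact_mod_cast h0) (by exact_mod_cast h t)

theorem exists_exp_bound {N : ℝ → ℕ} {s : ℝ}
    (hb : IsBoundedUnder (· ≤ ·) atTop (fun t : ℝ => Real.log (N t : ℝ) / t))
    (h : rate N < s) : ∃ T : ℝ, ∀ t, T ≤ t → (N t : ℝ) ≤ Real.exp (s * t) := by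
  have h1 : ∀ᶠ t in atTop, Real.log (N t : ℝ) / t < s := eventually_lt_of_limsup_lt h hb
  obtain ⟨T, hT⟩ := eventually_atTop.1 (h1.and (eventually_gt_atTop 0))
  refine ⟨T, fun t ht => ?_⟩
  obtain ⟨h2, h3⟩ := hT t ht
  rcases Nat.eq_zero_or_pos (N t) with h0 | h0
  · rw [h0, Nat.cast_zero]; exact (Real.exp_pos _).le
  · have hpos : (0:ℝ) < N t := by exact_mod_cast h0
    rw [div_lt_iff₀ h3] at h2
    rw [← Real.log_le_iff_le_exp hpos]
    exact h2.le

section
variable {E : Type*} [Fintype E] [DecidableEq E] (R : E → E → Prop) [DecidableRel R] (ℓ : E → ℝ)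

theorem exists_min_pos (hℓ : ∀ e, 0 < ℓ e) : ∃ m, 0 < m ∧ ∀ e, m ≤ ℓ e := by
  rcases isEmpty_or_nonempty E with h | h
  · exact ⟨1, zero_lt_one, fun e => h.elim e⟩
  · obtain ⟨e0, h0⟩ := Finite.exists_min ℓ
    exact ⟨ℓ e0, hℓ e0, h0⟩

theorem exists_max (hℓ : ∀ e, 0 < ℓ e) : ∃ m, 0 < m ∧ ∀ e, ℓ e ≤ m := by
  rcases isEmpty_or_nonempty E with h | h
  · exact ⟨1, zero_lt_one, fun e => h.elim e⟩
  · obtain ⟨e0, h0⟩ := Finite.exists_max ℓ
    exact ⟨ℓ e0, hℓ e0, h0⟩

/-- counting bound from a supersolution -/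
theorem ncard_le_of_super (hℓ : ∀ e, 0 < ℓ e) {s : ℝ} (hs : 0 ≤ s) (g : E → ℝ) (hg : ∀ e, 0 < g e)
    (hsup : ∀ e, ∑ f, mat R ℓ s e f * g f ≤ g e) :
    ∃ c : ℝ, 1 ≤ c ∧ ∀ t, 1 ≤ t → ((circ R ℓ t).ncard : ℝ) ≤ c * t * Real.exp (s * t) := by
  obtain ⟨m, hm0, hm⟩ := exists_min_pos ℓ hℓ
  have hA := mat_nonneg R ℓ s
  have hW : ∀ n e, W (mat R ℓ s) n e e ≤ 1 := by
    intro n e
    have h1 := W_super hA g hsup n e
    have h2 : W (mat R ℓ s) n e e * g e ≤ ∑ f, W (mat R ℓ s) n e f * g f :=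
      Finset.single_le_sum (f := fun f => W (mat R ℓ s) n e f * g f)
        (fun f _ => mul_nonneg (W_nonneg hA n e f) (hg f).le) (Finset.mem_univ e)
    have h3 : W (mat R ℓ s) n e e * g e ≤ 1 * g e := by linarith
    exact le_of_mul_le_mul_right h3 (hg e)
  have hcard : ∀ n e t, ((CL R ℓ n e t).card : ℝ) ≤ Real.exp (s * t) := by
    intro n e t
    have h1 : ∑ l ∈ CL R ℓ n e t, Real.exp (-(s * t)) ≤
        ∑ l ∈ PL R n e e, Real.exp (-(s * (l.map ℓ).sum)) := by
      calc ∑ l ∈ CL R ℓ n e t, Real.exp (-(s * t)) ≤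
          ∑ l ∈ CL R ℓ n e t, Real.exp (-(s * (l.map ℓ).sum)) := by
            refine Finset.sum_le_sum fun l hl => Real.exp_le_exp.2 ?_
            have := (Finset.mem_filter.1 hl).2
            have := mul_le_mul_of_nonneg_left this hs
            linarith
        _ ≤ _ := Finset.sum_le_sum_of_subset_of_nonneg (Finset.filter_subset _ _)
            fun _ _ _ => (Real.exp_pos _).le
    rw [sum_PL, Finset.sum_const, nsmul_eq_mul] at h1
    have h2 := h1.trans (hW n e)
    have h3 : ((CL R ℓ n e t).card : ℝ) * (Real.exp (-(s * t)) * Real.exp (s * t)) ≤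
        1 * Real.exp (s * t) := by
      rw [← mul_assoc]
      exact mul_le_mul_of_nonneg_right h2 (Real.exp_pos _).le
    rw [← Real.exp_add, neg_add_cancel, Real.exp_zero, mul_one, one_mul] at h3
    exact h3
  refine ⟨1 + (1 / m + 1) * Fintype.card E, ?_, fun t ht => ?_⟩
  · have : 0 ≤ (1 / m + 1) * (Fintype.card E : ℝ) := by positivity
    linarith
  · have h1 : ((circ R ℓ t).ncard : ℝ) ≤
        ∑ n ∈ Finset.range (⌊t / m⌋₊ + 1), ∑ e : E, ((CL R ℓ n e t).card : ℝ) := by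
      exact_mod_cast ncard_circ_le R ℓ hm0 hm t
    have h2 : ∑ n ∈ Finset.range (⌊t / m⌋₊ + 1), ∑ e : E, ((CL R ℓ n e t).card : ℝ) ≤
        ∑ n ∈ Finset.range (⌊t / m⌋₊ + 1), ∑ e : E, Real.exp (s * t) :=
      Finset.sum_le_sum fun n _ => Finset.sum_le_sum fun e _ => hcard n e t
    simp only [Finset.sum_const, Finset.card_range, nsmul_eq_mul, Finset.card_univ] at h2
    have h3 : ((⌊t / m⌋₊ + 1 : ℕ) : ℝ) ≤ (1 / m + 1) * t := by
      push_cast
      have : (⌊t / m⌋₊ : ℝ) ≤ t / m := Nat.floor_le (by positivity)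
      have e : (1 / m + 1) * t = t / m + t := by ring
      rw [e]; linarith
    have hexp := Real.exp_pos (s * t)
    calc ((circ R ℓ t).ncard : ℝ) ≤ _ := h1
      _ ≤ _ := h2
      _ ≤ ((1 / m + 1) * t) * ((Fintype.card E : ℝ) * Real.exp (s * t)) :=
        mul_le_mul_of_nonneg_right h3 (by positivity)
      _ = ((1 / m + 1) * Fintype.card E) * t * Real.exp (s * t) := by ring
      _ ≤ (1 + (1 / m + 1) * Fintype.card E) * t * Real.exp (s * t) := by
        have : 0 ≤ t * Real.exp (s * t) := by positivity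
        nlinarith

theorem rate_circ_le (hℓ : ∀ e, 0 < ℓ e) {s : ℝ} (hs : 0 ≤ s) (g : E → ℝ) (hg : ∀ e, 0 < g e)
    (hsup : ∀ e, ∑ f, mat R ℓ s e f * g f ≤ g e) :
    rate (fun t => (circ R ℓ t).ncard) ≤ s := by
  obtain ⟨c, hc, h⟩ := ncard_le_of_super R ℓ hℓ hs g hg hsup
  exact rate_le hc hs h

/-- if `M g < g` strictly then the rate is `< s`. -/
theorem rate_circ_lt (hℓ : ∀ e, 0 < ℓ e) {s : ℝ} (hs : 0 < s) (g : E → ℝ) (hg : ∀ e, 0 < g e)
    (hsup : ∀ e, ∑ f, mat R ℓ s e f * g f < g e) :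
    rate (fun t => (circ R ℓ t).ncard) < s := by
  obtain ⟨M, hM0, hM⟩ := exists_max ℓ hℓ
  -- θ
  obtain ⟨θ, hθ1, hθ⟩ : ∃ θ : ℝ, 1 < θ ∧ ∀ e, θ * ∑ f, mat R ℓ s e f * g f ≤ g e := by
    have key : ∀ e, ∃ θ : ℝ, 1 < θ ∧ θ * ∑ f, mat R ℓ s e f * g f ≤ g e := by
      intro e
      have h0 : 0 ≤ ∑ f, mat R ℓ s e f * g f :=
        Finset.sum_nonneg fun f _ => mul_nonneg (mat_nonneg R ℓ s e f) (hg f).le
      rcases eq_or_lt_of_le h0 with h | h
      · exact ⟨2, by norm_num, by rw [← h, mul_zero]; exact (hg e).le⟩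
      · exact ⟨g e / ∑ f, mat R ℓ s e f * g f, (one_lt_div h).2 (hsup e),
          by rw [div_mul_cancel₀ _ h.ne']⟩
    choose θ hθ1 hθ2 using key
    rcases isEmpty_or_nonempty E with hE | hE
    · exact ⟨2, by norm_num, fun e => hE.elim e⟩
    · obtain ⟨e0, he0⟩ := Finite.exists_min θ
      refine ⟨θ e0, hθ1 e0, fun e => le_trans ?_ (hθ2 e)⟩
      exact mul_le_mul_of_nonneg_right (he0 e)
        (Finset.sum_nonneg fun f _ => mul_nonneg (mat_nonneg R ℓ s e f) (hg f).le)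
  -- s' slightly smaller
  set δ := min (s / 2) (Real.log θ / M) with hδ
  have hlog : 0 < Real.log θ := Real.log_pos hθ1
  have hδ0 : 0 < δ := lt_min (by linarith) (by positivity)
  have hδM : δ * M ≤ Real.log θ := by
    have := min_le_right (s / 2) (Real.log θ / M)
    calc δ * M ≤ Real.log θ / M * M := mul_le_mul_of_nonneg_right this hM0.le
      _ = _ := by field_simp
  have hsle : rate (fun t => (circ R ℓ t).ncard) ≤ s - δ := by
    refine rate_circ_le R ℓ hℓ ?_ g hg fun e => ?_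
    · have := min_le_left (s / 2) (Real.log θ / M)
      linarith
    · refine le_trans ?_ (hθ e)
      rw [Finset.mul_sum]
      refine Finset.sum_le_sum fun f _ => ?_
      rw [← mul_assoc]
      refine mul_le_mul_of_nonneg_right ?_ (hg f).le
      unfold mat
      split_ifs
      · have h1 : Real.exp (δ * ℓ e) ≤ θ := by
          rw [← Real.exp_log (by linarith : 0 < θ)]
          refine Real.exp_le_exp.2 (le_trans ?_ hδM)
          exact mul_le_mul_of_nonneg_left (hM e) hδ0.le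
        have h2 : Real.exp (-((s - δ) * ℓ e)) = Real.exp (δ * ℓ e) * Real.exp (-(s * ℓ e)) := by
          rw [← Real.exp_add]; congr 1; ring
        rw [h2]
        exact mul_le_mul_of_nonneg_right h1 (Real.exp_pos _).le
      · rw [mul_zero]
  linarith

theorem circ_bdd (hℓ : ∀ e, 0 < ℓ e) :
    IsBoundedUnder (· ≤ ·) atTop
      (fun t : ℝ => Real.log ((circ R ℓ t).ncard : ℝ) / t) := by
  obtain ⟨m, hm0, hm⟩ := exists_min_pos ℓ hℓ
  set K : ℝ := (Fintype.card E : ℝ) with hK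
  have hK0 : 0 ≤ K := Nat.cast_nonneg _
  set s := K / m with hs
  have hs0 : 0 ≤ s := by positivity
  obtain ⟨c, hc, h⟩ := ncard_le_of_super R ℓ hℓ hs0 (fun _ => 1) (fun _ => one_pos) (fun e => by
    have h1 : ∀ f, mat R ℓ s e f * 1 ≤ Real.exp (-K) := by
      intro f
      rw [mul_one]
      unfold mat
      split_ifs
      · refine Real.exp_le_exp.2 ?_
        have h1 : s * m ≤ s * ℓ e := mul_le_mul_of_nonneg_left (hm e) hs0
        have h2 : s * m = K := by rw [hs]; field_simp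
        linarith
      · exact (Real.exp_pos _).le
    calc ∑ f, mat R ℓ s e f * 1 ≤ ∑ f : E, Real.exp (-K) := Finset.sum_le_sum fun f _ => h1 f
      _ = K * Real.exp (-K) := by rw [Finset.sum_const, Finset.card_univ, nsmul_eq_mul]
      _ ≤ Real.exp K * Real.exp (-K) := by
        refine mul_le_mul_of_nonneg_right ?_ (Real.exp_pos _).le
        linarith [Real.add_one_le_exp K]
      _ = 1 := by rw [← Real.exp_add, add_neg_cancel, Real.exp_zero])
  exact rate_bdd hc hs0 h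

end

end Q186.ME
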