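import Pool.Agent.Q186.ME.Lower
import Pool.Agent.Q186.ME.PF

/-!
The growth rate of the number of circuits is a genuine limit.
-/

namespace Q186.ME

open Filter Topology

section
variable {E : Type*} [Fintype E] [DecidableEq E] (R : E → E → Prop) [DecidableRel R] (ℓ : E → ℝ)

theorem append_mem_PL (n m : ℕ) (e g f : E) (l l' : List E) (h : l ∈ PL R n e g)
    (h' : l' ∈ PL R m g f) : l ++ l' ∈ PL R (n + m) e f := by
  induction n generalizing e l with
  | zero =>
    rw [PL_zero] at h
    split_ifs at h with he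
    · rw [Finset.mem_singleton] at h
      subst h
      subst he
      simpa using h'
    · simp at h
  | succ n ih =>
    rw [PL_succ] at h
    simp only [Finset.mem_biUnion, Finset.mem_filter, Finset.mem_univ, true_and,
      Finset.mem_image] at h
    obtain ⟨x, hx, l1, hl1, rfl⟩ := h
    rw [show n + 1 + m = (n + m) + 1 by ring, PL_succ]
    simp only [Finset.mem_biUnion, Finset.mem_filter, Finset.mem_univ, true_and, Finset.mem_image]
    exact ⟨x, hx, l1 ++ l', ih x l1 hl1, rfl⟩

theorem pow_card_le (n : ℕ) (e : E) (T : ℝ) (k : ℕ) :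
    (CL R ℓ n e T).card ^ k ≤ (CL R ℓ (k * n) e (k * T)).card := by
  classical
  induction k with
  | zero =>
    rw [pow_zero, Nat.one_le_iff_ne_zero, ← Nat.pos_iff_ne_zero, Finset.card_pos]
    refine ⟨[], ?_⟩
    rw [CL, Finset.mem_filter, Nat.zero_mul, PL_zero, if_pos rfl]
    simp
  | succ k ih =>
    rw [pow_succ]
    calc (CL R ℓ n e T).card ^ k * (CL R ℓ n e T).card
        ≤ (CL R ℓ (k * n) e (k * T)).card * (CL R ℓ n e T).card := Nat.mul_le_mul_right _ ih
      _ = (CL R ℓ (k * n) e (k * T) ×ˢ CL R ℓ n e T).card := (Finset.card_product _ _).symm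
      _ ≤ _ := by
        refine Finset.card_le_card_of_injOn (fun p => p.1 ++ p.2) ?_ ?_
        · rintro ⟨a, b⟩ hab
          rw [Finset.mem_coe, Finset.mem_product] at hab
          obtain ⟨ha, hb⟩ := hab
          simp only [CL, Finset.mem_filter] at ha hb
          rw [Finset.mem_coe, CL, Finset.mem_filter]
          refine ⟨?_, ?_⟩
          · rw [show (k + 1) * n = k * n + n by ring]
            exact append_mem_PL R _ _ e e e a b ha.1 hb.1
          · simp only [List.map_append, List.sum_append]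
            push_cast
            linarith [ha.2, hb.2]
        · rintro ⟨a, b⟩ hab ⟨a', b'⟩ hab' heq
          rw [Finset.mem_coe, Finset.mem_product] at hab hab'
          have h1 := ((mem_PL R _ _ _ _).1 (Finset.mem_filter.1 hab.1).1).1
          have h2 := ((mem_PL R _ _ _ _).1 (Finset.mem_filter.1 hab'.1).1).1
          obtain ⟨h3, h4⟩ := List.append_inj heq (h1.trans h2.symm)
          exact Prod.ext h3 h4

/-- pigeonhole: many closed lists in a single length class -/
theorem exists_many (hℓ : ∀ e, 0 < ℓ e) {s s' : ℝ} (hs' : 0 ≤ s') (hss : s' < s)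
    (h : s < rate (fun t => (circ R ℓ t).ncard)) :
    ∃ (n : ℕ) (e : E) (T : ℝ), 1 ≤ n ∧ 1 ≤ T ∧
      Real.exp (s' * T) ≤ (CL R ℓ n e T).card := by
  obtain ⟨m, hm0, hm⟩ := exists_min_pos ℓ hℓ
  obtain ⟨M, hM0, hM⟩ := exists_max ℓ hℓ
  have hs0 : 0 < s := lt_of_le_of_lt hs' hss
  obtain ⟨u, hu, hne, hsub⟩ : ∃ u : E → ℝ, (∀ e, 0 ≤ u e) ∧ (∃ e, 0 < u e) ∧
      ∀ e, u e ≤ ∑ f, mat R ℓ s e f * u f := by
    rcases pf_dichotomy (mat R ℓ s) (mat_nonneg _ _ _) with ⟨g, hg1, hg⟩ | ⟨u, ρ, hρ, hu, hne, hu1⟩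
    · exfalso
      have := rate_circ_le R ℓ hℓ hs0.le g (fun e => lt_of_lt_of_le one_pos (hg1 e))
        (fun e => by linarith [hg e])
      linarith
    · exact ⟨u, hu, hne, fun e => by rw [hu1 e]; nlinarith [hu e]⟩
  obtain ⟨e, c, hc, hrec⟩ := exists_recur (mat R ℓ s) (mat_nonneg R ℓ s) u hu hne hsub
  set b := s - s' with hb
  have hb0 : 0 < b := by linarith
  -- choose n large
  have hlim : Tendsto (fun n : ℕ => ((M * n + 1) : ℝ) *
      (Real.exp s * Real.exp (-(b * (m * n))))) atTop (𝓝 0) := by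
    have hbm : 0 < b * m := by positivity
    have h2 : Tendsto (fun x : ℝ => x ^ 1 * Real.exp (-(b * m) * x)) atTop (𝓝 0) := by
      have := tendsto_rpow_mul_exp_neg_mul_atTop_nhds_zero 1 (b * m) hbm
      simpa using this
    have h1 : Tendsto (fun x : ℝ => x ^ 0 * Real.exp (-(b * m) * x)) atTop (𝓝 0) := by
      have := tendsto_rpow_mul_exp_neg_mul_atTop_nhds_zero 0 (b * m) hbm
      simpa using this
    have h3 := ((h2.const_mul (M * Real.exp s)).add
      (h1.const_mul (Real.exp s))).comp tendsto_natCast_atTop_atTop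
    rw [mul_zero, mul_zero, add_zero] at h3
    refine h3.congr fun n => ?_
    simp only [Function.comp]
    have : -(b * m) * (n:ℝ) = -(b * (m * n)) := by ring
    rw [this]
    ring
  obtain ⟨N1, hN1⟩ := eventually_atTop.1 (hlim.eventually_lt_const hc)
  obtain ⟨n, hn, hcn⟩ := hrec (max N1 1)
  have hn1 : 1 ≤ n := le_trans (le_max_right _ _) hn
  have hsmall := hN1 n (le_trans (le_max_left _ _) hn)
  refine ⟨n, e, ?_⟩
  by_contra hcon
  push Not at hcon
  have hcard : ∀ j : ℕ, ((CL R ℓ n e (j + 1)).card : ℝ) < Real.exp (s' * (j + 1)) := by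
    intro j
    exact hcon (j + 1) hn1 (by have : (0:ℝ) ≤ j := Nat.cast_nonneg j; linarith)
  have hupper : W (mat R ℓ s) n e e ≤ (M * n + 1) * (Real.exp s * Real.exp (-(b * (m * n)))) := by
    rw [← sum_PL R ℓ s n e e]
    have hlen : ∀ l ∈ PL R n e e, m * n ≤ (l.map ℓ).sum ∧ (l.map ℓ).sum ≤ M * n := by
      intro l hl
      have h1 := ((mem_PL R n e e l).1 hl).1
      rw [← h1]
      exact ⟨sum_ge_of_min ℓ hm l, sum_le_of_max ℓ hM l⟩
    have hmaps : ∀ l ∈ PL R n e e, ⌊(l.map ℓ).sum⌋₊ ∈ Finset.range (⌊M * n⌋₊ + 1) := by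
      intro l hl
      rw [Finset.mem_range, Nat.lt_succ_iff]
      exact Nat.floor_le_floor (hlen l hl).2
    rw [← Finset.sum_fiberwise_of_maps_to hmaps]
    have hfib : ∀ j ∈ Finset.range (⌊M * n⌋₊ + 1),
        ∑ l ∈ (PL R n e e).filter (fun l => ⌊(l.map ℓ).sum⌋₊ = j),
          Real.exp (-(s * (l.map ℓ).sum)) ≤
          (Real.exp s * Real.exp (-(b * (m * n)))) := by
      intro j _
      rcases Finset.eq_empty_or_nonempty
        ((PL R n e e).filter (fun l => ⌊(l.map ℓ).sum⌋₊ = j)) with h0 | ⟨l0, hl0⟩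
      · rw [h0, Finset.sum_empty]; positivity
      · rw [Finset.mem_filter] at hl0
        have hj1 : m * n < j + 1 := by
          have := Nat.lt_floor_add_one (l0.map ℓ).sum
          rw [hl0.2] at this
          exact lt_of_le_of_lt (hlen l0 hl0.1).1 this
        have hterm : ∀ l ∈ (PL R n e e).filter (fun l => ⌊(l.map ℓ).sum⌋₊ = j),
            Real.exp (-(s * (l.map ℓ).sum)) ≤ Real.exp (-(s * j)) := by
          intro l hl
          rw [Finset.mem_filter] at hl
          refine Real.exp_le_exp.2 (neg_le_neg (mul_le_mul_of_nonneg_left ?_ hs0.le))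
          rw [← hl.2]
          refine Nat.floor_le ?_
          have := (hlen l hl.1).1
          have : 0 ≤ m * n := by positivity
          linarith
        have hcard2 : (((PL R n e e).filter (fun l => ⌊(l.map ℓ).sum⌋₊ = j)).card : ℝ) ≤
            Real.exp (s' * (j + 1)) := by
          have h1 : ((PL R n e e).filter (fun l => ⌊(l.map ℓ).sum⌋₊ = j)) ⊆
              CL R ℓ n e (j + 1) := by
            intro l hl
            rw [Finset.mem_filter] at hl
            rw [CL, Finset.mem_filter]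
            refine ⟨hl.1, ?_⟩
            have := Nat.lt_floor_add_one (l.map ℓ).sum
            rw [hl.2] at this
            exact this.le
          have h2 : (((PL R n e e).filter (fun l => ⌊(l.map ℓ).sum⌋₊ = j)).card : ℝ) ≤
              (CL R ℓ n e (j + 1)).card := by exact_mod_cast Finset.card_le_card h1
          exact h2.trans (hcard j).le
        calc ∑ l ∈ (PL R n e e).filter (fun l => ⌊(l.map ℓ).sum⌋₊ = j),
              Real.exp (-(s * (l.map ℓ).sum)) ≤
            ∑ l ∈ (PL R n e e).filter (fun l => ⌊(l.map ℓ).sum⌋₊ = j), Real.exp (-(s * j)) :=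
              Finset.sum_le_sum hterm
          _ = (((PL R n e e).filter (fun l => ⌊(l.map ℓ).sum⌋₊ = j)).card : ℝ) *
                Real.exp (-(s * j)) := by rw [Finset.sum_const, nsmul_eq_mul]
          _ ≤ (Real.exp (s' * (j + 1))) * Real.exp (-(s * j)) :=
              mul_le_mul_of_nonneg_right hcard2 (Real.exp_pos _).le
          _ = Real.exp (s' + b - b * (j + 1)) := by
              rw [← Real.exp_add]
              congr 1
              rw [hb]; ring
          _ ≤ Real.exp (s - b * (m * n)) := by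
              refine Real.exp_le_exp.2 ?_
              have := mul_le_mul_of_nonneg_left hj1.le hb0.le
              linarith
          _ = _ := by rw [sub_eq_add_neg, Real.exp_add]
    calc _ ≤ ∑ j ∈ Finset.range (⌊M * n⌋₊ + 1),
          ((Real.exp s * Real.exp (-(b * (m * n)))) : ℝ) := Finset.sum_le_sum hfib
      _ = ((⌊M * n⌋₊ + 1 : ℕ) : ℝ) * ((Real.exp s * Real.exp (-(b * (m * n))))) := by
          rw [Finset.sum_const, Finset.card_range, nsmul_eq_mul]
      _ ≤ (M * n + 1) * ((Real.exp s * Real.exp (-(b * (m * n))))) := by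
          refine mul_le_mul_of_nonneg_right ?_ (by positivity)
          push_cast
          have : (⌊M * n⌋₊ : ℝ) ≤ M * n := Nat.floor_le (by positivity)
          linarith
  linarith

theorem circ_mono {m : ℝ} (hm0 : 0 < m) (hm : ∀ e, m ≤ ℓ e) {t t' : ℝ} (h : t ≤ t') :
    (circ R ℓ t).ncard ≤ (circ R ℓ t').ncard :=
  Set.ncard_le_ncard (fun _ hc => ⟨hc.1, hc.2.1, hc.2.2.trans h⟩) (circ_finite R ℓ hm0 hm t')

theorem tendsto_rate (hℓ : ∀ e, 0 < ℓ e) :
    Tendsto (fun t : ℝ => Real.log ((circ R ℓ t).ncard : ℝ) / t) atTop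
      (𝓝 (rate (fun t => (circ R ℓ t).ncard))) := by
  obtain ⟨m, hm0, hm⟩ := exists_min_pos ℓ hℓ
  have hbdd := circ_bdd R ℓ hℓ
  rw [tendsto_order]
  refine ⟨fun a ha => ?_, fun a ha => eventually_lt_of_limsup_lt ha hbdd⟩
  rcases lt_or_ge a 0 with h0 | h0
  · filter_upwards [rate_nonneg_aux fun t => (circ R ℓ t).ncard] with t ht
    exact lt_of_lt_of_le h0 ht
  · obtain ⟨s', hs'1, hs'2⟩ := exists_between ha
    obtain ⟨s, hs1, hs2⟩ := exists_between hs'2
    obtain ⟨n, e, T, hn, hT, hcard⟩ := exists_many R ℓ hℓ (h0.trans hs'1.le) hs1 hs2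
    have hT0 : 0 < T := by linarith
    have hn0 : (0:ℝ) < n := by exact_mod_cast hn
    -- N(kT) ≥ exp(s' k T) / (k n)
    have hlow : ∀ k : ℕ, 1 ≤ k →
        Real.exp (s' * T * k) ≤ (k * n) * ((circ R ℓ (k * T)).ncard : ℝ) := by
      intro k hk
      have h1 : (Real.exp (s' * T)) ^ k ≤ ((CL R ℓ n e T).card : ℝ) ^ k :=
        pow_le_pow_left₀ (Real.exp_pos _).le hcard k
      have h2 : ((CL R ℓ n e T).card : ℝ) ^ k ≤ ((CL R ℓ (k * n) e (k * T)).card : ℝ) := by
        exact_mod_cast pow_card_le R ℓ n e T k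
      have h3 : ((CL R ℓ (k * n) e (k * T)).card : ℝ) ≤
          (k * n : ℕ) * ((circ R ℓ (k * T)).ncard : ℝ) := by
        exact_mod_cast card_CL_le R ℓ hm0 hm (Nat.one_le_iff_ne_zero.2
          (Nat.mul_ne_zero (by omega) (by omega))) e (k * T)
      rw [← Real.exp_nat_mul] at h1
      push_cast at h3
      rw [show s' * T * k = k * (s' * T) by ring]
      linarith
    have hlim : Tendsto (fun t : ℝ => s' - s' * T / t - (Real.log (n / T) / t + Real.log t / t))
        atTop (𝓝 (s' - 0 - (0 + 0))) := by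
      refine (tendsto_const_nhds.sub (tendsto_const_nhds.div_atTop tendsto_id)).sub
        ((tendsto_const_nhds.div_atTop tendsto_id).add ?_)
      exact Real.isLittleO_log_id_atTop.tendsto_div_nhds_zero
    rw [sub_zero, add_zero, sub_zero] at hlim
    filter_upwards [hlim.eventually_const_lt hs'1, eventually_ge_atTop T, eventually_gt_atTop 0]
      with t ht htT ht0
    refine lt_of_lt_of_le ht ?_
    set k := ⌊t / T⌋₊ with hk
    have hk1 : 1 ≤ k := Nat.le_floor (by rw [Nat.cast_one, le_div_iff₀ hT0, one_mul]; exact htT)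
    have hk2 : (k:ℝ) ≤ t / T := Nat.floor_le (by positivity)
    have hk3 : t / T < k + 1 := Nat.lt_floor_add_one _
    have hkT : (k:ℝ) * T ≤ t := by rwa [le_div_iff₀ hT0] at hk2
    have hkT2 : t < (k + 1) * T := by rwa [div_lt_iff₀ hT0] at hk3
    have hs'0 : 0 ≤ s' := h0.trans hs'1.le
    have h1 := hlow k hk1
    have h2 : ((circ R ℓ (k * T)).ncard : ℝ) ≤ (circ R ℓ t).ncard := by
      exact_mod_cast circ_mono R ℓ hm0 hm hkT
    have h3 : Real.exp (s' * t - s' * T) ≤ Real.exp (s' * T * k) := by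
      refine Real.exp_le_exp.2 ?_
      have := mul_le_mul_of_nonneg_left hkT2.le hs'0
      linarith
    have h4 : (k * n : ℝ) * ((circ R ℓ (k * T)).ncard : ℝ) ≤ (t / T * n) * (circ R ℓ t).ncard := by
      refine mul_le_mul (mul_le_mul_of_nonneg_right hk2 hn0.le) h2 (Nat.cast_nonneg _)
        (by positivity)
    have h5 : Real.exp (s' * t - s' * T) ≤ (t * (n / T)) * (circ R ℓ t).ncard := by
      have : t / T * n = t * (n / T) := by ring
      rw [← this]
      linarith
    have hNpos : (0:ℝ) < (circ R ℓ t).ncard := by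
      have : 0 < (t * (n / T)) * ((circ R ℓ t).ncard : ℝ) := lt_of_lt_of_le (Real.exp_pos _) h5
      exact (pos_iff_pos_of_mul_pos this).1 (by positivity)
    have h6 := Real.log_le_log (Real.exp_pos _) h5
    rw [Real.log_exp, Real.log_mul (by positivity) hNpos.ne', Real.log_mul ht0.ne' (by positivity)]
      at h6
    rw [le_div_iff₀ ht0]
    have h7 : (s' - s' * T / t - (Real.log (n / T) / t + Real.log t / t)) * t =
        s' * t - s' * T - (Real.log (n / T) + Real.log t) := by
      field_simp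
    rw [h7]
    linarith

end

end Q186.ME
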