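import Pool.Agent.Q186.ME.Step
import Pool.Agent.Q186.ME.Lim

/-!
Assembly of the metric graph theorem.
-/

namespace Q186.ME

open Filter Topology

namespace MGraph

variable {V E : Type} {G : MGraph V E} [Fintype V] [Fintype E]

theorem sum_follows [DecidableEq V] [DecidableEq E] (u : E → ℝ) (q : ℝ) (e : E) :
    (∑ f, open Classical in if G.Follows e f then q * u f else 0) =
      q * (G.vs Finset.univ u (G.ter e) - u (G.inv e)) := by
  classical
  have h1 : ∀ f, (if G.Follows e f then q * u f else 0) = q * (if G.Follows e f then u f else 0) := by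
    intro f; split_ifs <;> simp
  have h2 : ∑ f, (if G.Follows e f then q * u f else 0) =
      q * ∑ f, (if G.Follows e f then u f else 0) := by
    rw [Finset.mul_sum]; exact Finset.sum_congr rfl fun f _ => h1 f
  have h3 : ∑ f, (if G.Follows e f then u f else 0) =
      G.vs Finset.univ u (G.ter e) - u (G.inv e) := by
    rw [← Finset.sum_filter]
    unfold vs
    have hmem : G.inv e ∈ Finset.univ.filter (fun f => G.org f = G.ter e) :=
      Finset.mem_filter.2 ⟨Finset.mem_univ _, rfl⟩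
    rw [← Finset.add_sum_erase _ _ hmem, add_sub_cancel_left]
    refine Finset.sum_congr ?_ fun _ _ => rfl
    ext f
    simp only [Finset.mem_filter, Finset.mem_univ, true_and, Finset.mem_erase]
    constructor
    · rintro ⟨h3, h4⟩
      exact ⟨h4, h3.symm⟩
    · rintro ⟨h3, h4⟩
      exact ⟨h4.symm, h3⟩
  rw [← h3, ← h2]

theorem main_graph {r : ℕ} (hr : G.HasRank r) (h1 : G.whole.entropy = 1)
    {s c : ℝ} (hs0 : 0 < s) (hs1 : s < 1) (hc0 : 0 ≤ c) (hc1 : c ≤ (2:ℝ) ^ (-s))
    (hc2 : c ≤ Real.log 2) (hbig : 1 < (1 - s) * c * (r - 1)) :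
    ∃ H : G.Subgraph, H ≠ G.whole ∧ s ≤ H.entropy := by
  classical
  by_cases hprop : ∀ H : G.Subgraph, H ≠ G.whole → H.entropy < 1
  · obtain ⟨u, hu, hue⟩ := exists_pos_eigen h1 hprop
    have hV : ∀ v, ∃ e, G.org e = v := by
      intro v
      let H : G.Subgraph := ⟨{v | ∃ e, G.org e = v}, Set.univ, fun _ _ => trivial,
        fun e _ => ⟨e, rfl⟩⟩
      have hH : H = G.whole := by
        by_contra hne
        have h2 := hprop H hne
        have h3 : G.whole.entropy ≤ H.entropy := entropy_mono (H := G.whole) (K := H) subset_rfl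
        linarith
      have : v ∈ H.verts := by rw [hH]; trivial
      exact this
    have hpe : G.PosEig u := ⟨hu, fun e => by
      conv_lhs => rw [hue e]
      exact sum_follows u _ e⟩
    exact main_step hpe hV hr hs0 hs1 hc0 hc1 hc2 hbig
  · push Not at hprop
    obtain ⟨H, hH, h2⟩ := hprop
    exact ⟨H, hH, hs1.le.trans h2⟩

theorem entropy_le_whole (H : G.Subgraph) : H.entropy ≤ G.whole.entropy :=
  entropy_mono fun _ _ => trivial

theorem proper_nonempty [Nonempty V] :
    {x : ℝ | ∃ H : G.Subgraph, H ≠ G.whole ∧ x = H.entropy}.Nonempty := by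
  let H : G.Subgraph := ⟨∅, ∅, fun _ h => h, fun _ h => h.elim⟩
  refine ⟨H.entropy, H, fun h => ?_, rfl⟩
  obtain ⟨v⟩ := (inferInstance : Nonempty V)
  have : v ∈ H.verts := by rw [h]; trivial
  exact this

theorem proper_bdd : BddAbove {x : ℝ | ∃ H : G.Subgraph, H ≠ G.whole ∧ x = H.entropy} := by
  refine ⟨G.whole.entropy, ?_⟩
  rintro x ⟨H, -, rfl⟩
  exact entropy_le_whole H

theorem proper_finite : {x : ℝ | ∃ H : G.Subgraph, H ≠ G.whole ∧ x = H.entropy}.Finite := by
  have : Finite G.Subgraph := by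
    refine Finite.of_injective (β := Set V × Set E) (fun H => (H.verts, H.edges)) ?_
    rintro ⟨a, b, _, _⟩ ⟨a', b', _, _⟩ h
    simp only [Prod.mk.injEq] at h
    obtain ⟨rfl, rfl⟩ := h
    rfl
  refine (Set.finite_range (fun H : G.Subgraph => H.entropy)).subset ?_
  rintro x ⟨H, -, rfl⟩
  exact ⟨H, rfl⟩

theorem isGreatest_maxProper [Nonempty V] :
    IsGreatest {x : ℝ | ∃ H : G.Subgraph, H ≠ G.whole ∧ x = H.entropy} G.maxProper :=
  ⟨proper_nonempty.csSup_mem proper_finite, fun _ hx => le_csSup proper_bdd hx⟩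

theorem tendsto_entropy (H : G.Subgraph) :
    Tendsto (fun t : ℝ => Real.log ((H.circuits t).ncard : ℝ) / t) atTop (𝓝 H.entropy) := by
  classical
  rw [entropy_eq]
  simp only [circuits_eq]
  exact tendsto_rate _ _ G.len_pos

end MGraph

/-! ### the rose -/

/-- rose with `r` petals of equal length `log (2r-1)` -/
noncomputable def rose (r : ℕ) (hr : 2 ≤ r) : MGraph Unit (Fin r × Bool) where
  org := fun _ => ()
  inv := fun e => (e.1, !e.2)
  inv_inv := fun e => by simp
  inv_ne := fun e => by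
    intro h
    have := congrArg Prod.snd h
    simp at this
  len := fun _ => Real.log (2 * r - 1)
  len_inv := fun _ => rfl
  len_pos := fun _ => by
    refine Real.log_pos ?_
    have : (2:ℝ) ≤ r := by exact_mod_cast hr
    linarith

theorem rose_follows (r : ℕ) (hr : 2 ≤ r) (e : Fin r × Bool) :
    (∑ f, open Classical in if (rose r hr).Follows e f then (1:ℝ) else 0) = 2 * r - 1 := by
  classical
  have h1 : ∀ f, (rose r hr).Follows e f ↔ f ≠ (rose r hr).inv e := by
    intro f
    unfold MGraph.Follows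
    constructor
    · exact fun h => h.2
    · exact fun h => ⟨rfl, h⟩
  simp only [h1]
  rw [Finset.sum_ite, Finset.sum_const_zero, add_zero, Finset.sum_const, nsmul_eq_mul, mul_one]
  have : (Finset.univ.filter fun f => f ≠ (rose r hr).inv e) =
      Finset.univ.erase ((rose r hr).inv e) := by
    ext f; simp
  rw [this, Finset.card_erase_of_mem (Finset.mem_univ _), Finset.card_univ, Fintype.card_prod,
    Fintype.card_fin, Fintype.card_bool, Nat.cast_sub (by omega)]
  push_cast
  ring

theorem rose_entropy (r : ℕ) (hr : 2 ≤ r) : (rose r hr).whole.entropy = 1 := by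
  classical
  have hpos : (0:ℝ) < 2 * r - 1 := by
    have : (2:ℝ) ≤ r := by exact_mod_cast hr
    linarith
  have hexp : Real.exp (-Real.log (2 * r - 1)) = (2 * (r:ℝ) - 1)⁻¹ := by
    rw [Real.exp_neg, Real.exp_log hpos]
  apply le_antisymm
  · rw [MGraph.entropy_eq]
    refine rate_circ_le _ _ (rose r hr).len_pos zero_le_one (fun _ => 1) (fun _ => one_pos) fun e => ?_
    have h1 : ∀ f, mat ((rose r hr).RB (rose r hr).whole.edges) (rose r hr).len 1 e f * 1 =
        (2 * (r:ℝ) - 1)⁻¹ * (if (rose r hr).Follows e f then (1:ℝ) else 0) := by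
      intro f
      unfold mat MGraph.RB MGraph.whole
      simp only [Set.mem_univ, true_and, mul_one, one_mul]
      split_ifs
      · rw [mul_one]; exact hexp
      · rw [mul_zero]
    rw [Finset.sum_congr rfl fun f _ => h1 f, ← Finset.mul_sum, rose_follows,
      inv_mul_cancel₀ hpos.ne']
  · refine MGraph.le_entropy _ one_pos (fun _ => 1) (fun _ => zero_le_one)
      ⟨(⟨0, by omega⟩, true), one_pos⟩ (fun _ _ => trivial) fun e _ _ => ?_
    have h1 : ∀ f, (if (rose r hr).Follows e f then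
        Real.exp (-(1 * (rose r hr).len e)) * 1 else 0) =
        (2 * (r:ℝ) - 1)⁻¹ * (if (rose r hr).Follows e f then (1:ℝ) else 0) := by
      intro f
      split_ifs
      · rw [mul_one, mul_one, one_mul]; exact hexp
      · rw [mul_zero]
    rw [Finset.sum_congr rfl fun f _ => h1 f, ← Finset.mul_sum, rose_follows,
      inv_mul_cancel₀ hpos.ne']

theorem values_nonempty (r : ℕ) (hr : 2 ≤ r) : (values r).Nonempty := by
  refine ⟨(rose r hr).maxProper, Unit, Fin r × Bool, inferInstance, inferInstance, rose r hr,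
    ⟨⟨()⟩, fun v w => by cases v; cases w; exact Relation.ReflTransGen.refl⟩, ?_,
    rose_entropy r hr, rfl⟩
  unfold MGraph.HasRank
  rw [Fintype.card_prod, Fintype.card_fin, Fintype.card_bool, Fintype.card_unit]
  ring

theorem values_nonneg {r : ℕ} {x : ℝ} (hx : x ∈ values r) : 0 ≤ x := by
  obtain ⟨V, E, _, _, G, -, -, -, rfl⟩ := hx
  refine Real.sSup_nonneg ?_
  rintro y ⟨H, -, rfl⟩
  exact MGraph.entropy_nonneg H

theorem values_le_one {r : ℕ} {x : ℝ} (hx : x ∈ values r) : x ≤ 1 := by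
  obtain ⟨V, E, _, _, G, hconn, -, h1, rfl⟩ := hx
  have : Nonempty V := hconn.1
  refine csSup_le MGraph.proper_nonempty ?_
  rintro y ⟨H, -, rfl⟩
  rw [← h1]
  exact MGraph.entropy_le_whole H

theorem C_le_one (r : ℕ) (hr : 2 ≤ r) : C r ≤ 1 := by
  obtain ⟨x, hx⟩ := values_nonempty r hr
  exact (csInf_le ⟨0, fun y hy => values_nonneg hy⟩ hx).trans (values_le_one hx)

theorem le_C (r : ℕ) (hr : 2 ≤ r) {s c : ℝ} (hs0 : 0 < s) (hs1 : s < 1) (hc0 : 0 ≤ c)
    (hc1 : c ≤ (2:ℝ) ^ (-s)) (hc2 : c ≤ Real.log 2) (hbig : 1 < (1 - s) * c * (r - 1)) :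
    s ≤ C r := by
  refine le_csInf (values_nonempty r hr) ?_
  rintro x ⟨V, E, _, _, G, -, hrank, h1, rfl⟩
  obtain ⟨H, hH, hs⟩ := MGraph.main_graph hrank h1 hs0 hs1 hc0 hc1 hc2 hbig
  exact hs.trans (le_csSup MGraph.proper_bdd ⟨H, hH, rfl⟩)

theorem quarter_le_C (r : ℕ) (hr : 3 ≤ r) : 1 / 4 ≤ C r := by
  have hr' : (3:ℝ) ≤ r := by exact_mod_cast hr
  have hlog := Real.log_two_gt_d9
  have hlog2 := Real.log_two_lt_d9
  refine le_C r (by omega) (s := 1 / 4) (c := 0.69) (by norm_num) (by norm_num) (by norm_num)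
    ?_ (by linarith) (by nlinarith)
  rw [Real.rpow_def_of_pos (by norm_num)]
  have := Real.add_one_le_exp (Real.log 2 * -(1 / 4))
  linarith

theorem lower_C (r : ℕ) (hr : 3 ≤ r) : 1 - 2 / ((r:ℝ) - 1) ≤ C r := by
  have hr' : (3:ℝ) ≤ r := by exact_mod_cast hr
  have hr1 : (0:ℝ) < r - 1 := by linarith
  refine le_of_forall_lt fun s hs => ?_
  rcases le_or_gt s 0 with h0 | h0
  · have := quarter_le_C r hr
    linarith
  · obtain ⟨s', hs1, hs2⟩ := exists_between hs
    have h2 : 0 < 2 / ((r:ℝ) - 1) := by positivity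
    refine lt_of_lt_of_le hs1 ?_
    refine le_C r (by omega) (s := s') (c := 1 / 2) (by linarith) (by linarith) (by norm_num)
      ?_ (by linarith [Real.log_two_gt_d9]) ?_
    · calc (1 / 2 : ℝ) = (2:ℝ) ^ (-1 : ℝ) := by rw [Real.rpow_neg_one]; norm_num
        _ ≤ (2:ℝ) ^ (-s') := Real.rpow_le_rpow_of_exponent_le (by norm_num) (by linarith)
    · have h3 : 2 / ((r:ℝ) - 1) < 1 - s' := by linarith
      rw [div_lt_iff₀ hr1] at h3
      linarith

theorem tendsto_C : Tendsto C atTop (𝓝 1) := by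
  have h1 : Tendsto (fun r : ℕ => 1 - 2 / ((r:ℝ) - 1)) atTop (𝓝 (1 - 0)) := by
    refine tendsto_const_nhds.sub (tendsto_const_nhds.div_atTop ?_)
    exact tendsto_atTop_add_const_right _ _ tendsto_natCast_atTop_atTop
  rw [sub_zero] at h1
  refine tendsto_of_tendsto_of_tendsto_of_le_of_le' h1 tendsto_const_nhds ?_ ?_
  · filter_upwards [eventually_ge_atTop 3] with r hr using lower_C r hr
  · filter_upwards [eventually_ge_atTop 2] with r hr using C_le_one r hr

theorem inf_C_pos : 1 / 4 ≤ sInf (C '' {r | 3 ≤ r}) := by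
  refine le_csInf ⟨C 3, 3, le_refl 3, rfl⟩ ?_
  rintro x ⟨r, hr, rfl⟩
  exact quarter_le_C r hr

end Q186.ME
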