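import Mathlib

/-!
Weighted path sums of a relation on a finite set, and closed paths versus cyclic sequences.
-/

namespace Q186.ME

open Filter Topology

section W
variable {E : Type*} [Fintype E] [DecidableEq E] (A : E → E → ℝ)

/-- Weighted path sums (powers of the matrix `A`). -/
def W : ℕ → E → E → ℝ
  | 0, e, f => if e = f then 1 else 0
  | n + 1, e, f => ∑ g, A e g * W n g f

theorem W_zero (e f : E) : W A 0 e f = if e = f then 1 else 0 := rfl
theorem W_succ (n : ℕ) (e f : E) : W A (n+1) e f = ∑ g, A e g * W A n g f := rfl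

variable {A} (hA : ∀ e f, 0 ≤ A e f)
include hA

theorem W_nonneg (n : ℕ) (e f : E) : 0 ≤ W A n e f := by
  induction n generalizing e with
  | zero => rw [W_zero]; split_ifs <;> norm_num
  | succ n ih => rw [W_succ]; exact Finset.sum_nonneg fun g _ => mul_nonneg (hA e g) (ih g)

theorem W_mul_le (m n : ℕ) (e g f : E) : W A m e g * W A n g f ≤ W A (m + n) e f := by
  induction m generalizing e with
  | zero =>
    rw [W_zero, Nat.zero_add]
    split_ifs with h
    · rw [h, one_mul]
    · rw [zero_mul]; exact W_nonneg hA n e f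
  | succ m ih =>
    rw [W_succ, show m + 1 + n = (m + n) + 1 by ring, W_succ, Finset.sum_mul]
    refine Finset.sum_le_sum fun h _ => ?_
    rw [mul_assoc]
    exact mul_le_mul_of_nonneg_left (ih h) (hA e h)

theorem W_sub (u : E → ℝ) (hu : ∀ e, u e ≤ ∑ f, A e f * u f) (n : ℕ) (e : E) :
    u e ≤ ∑ f, W A n e f * u f := by
  induction n generalizing e with
  | zero => simp [W_zero]
  | succ n ih =>
    calc u e ≤ ∑ g, A e g * u g := hu e
      _ ≤ ∑ g, A e g * ∑ f, W A n g f * u f :=
        Finset.sum_le_sum fun g _ => mul_le_mul_of_nonneg_left (ih g) (hA e g)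
      _ = ∑ f, W A (n+1) e f * u f := by
        simp only [W_succ, Finset.mul_sum, Finset.sum_mul]
        rw [Finset.sum_comm]
        exact Finset.sum_congr rfl fun f _ => Finset.sum_congr rfl fun g _ => by ring

theorem W_super (g : E → ℝ) (hg : ∀ e, ∑ f, A e f * g f ≤ g e) (n : ℕ) (e : E) :
    ∑ f, W A n e f * g f ≤ g e := by
  induction n generalizing e with
  | zero => simp [W_zero]
  | succ n ih =>
    calc ∑ f, W A (n+1) e f * g f = ∑ h, A e h * ∑ f, W A n h f * g f := by
          simp only [W_succ, Finset.mul_sum, Finset.sum_mul]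
          rw [Finset.sum_comm]
          exact Finset.sum_congr rfl fun f _ => Finset.sum_congr rfl fun g _ => by ring
      _ ≤ ∑ h, A e h * g h :=
        Finset.sum_le_sum fun h _ => mul_le_mul_of_nonneg_left (ih h) (hA e h)
      _ ≤ g e := hg e

theorem exists_W_pos {e f : E} (h : Relation.ReflTransGen (fun x y => 0 < A x y) e f) :
    ∃ n, 0 < W A n e f := by
  induction h using Relation.ReflTransGen.head_induction_on with
  | refl => exact ⟨0, by simp [W_zero]⟩
  | @head a b hab _ ih =>
    obtain ⟨n, hn⟩ := ih
    refine ⟨n + 1, ?_⟩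
    rw [W_succ]
    exact Finset.sum_pos' (fun g _ => mul_nonneg (hA a g) (W_nonneg hA n g f))
      ⟨b, Finset.mem_univ _, mul_pos hab hn⟩

end W

section lists
variable {E : Type*} [Fintype E] [DecidableEq E] (R : E → E → Prop) [DecidableRel R] (ℓ : E → ℝ)

/-- The matrix with entries `exp (-s ℓ e)` for `R e f`. -/
noncomputable def mat (s : ℝ) (e f : E) : ℝ := if R e f then Real.exp (-(s * ℓ e)) else 0

theorem mat_nonneg (s : ℝ) (e f : E) : 0 ≤ mat R ℓ s e f := by
  unfold mat; split_ifs
  · exact (Real.exp_pos _).le
  · exact le_rfl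

/-- Paths with `n` steps from `e` to `f` (the last vertex is not recorded). -/
def PL : ℕ → E → E → Finset (List E)
  | 0, e, f => if e = f then {[]} else ∅
  | n + 1, e, f => (Finset.univ.filter (R e)).biUnion fun g => (PL n g f).image (List.cons e)

theorem PL_zero (e f : E) : PL R 0 e f = if e = f then {[]} else ∅ := rfl
theorem PL_succ (n : ℕ) (e f : E) :
    PL R (n+1) e f = (Finset.univ.filter (R e)).biUnion fun g => (PL R n g f).image (List.cons e) :=
  rfl

theorem mem_PL (n : ℕ) (e f : E) (l : List E) :
    l ∈ PL R n e f ↔ l.length = n ∧ List.IsChain R (l ++ [f]) ∧ (l ++ [f]).head? = some e := by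
  induction n generalizing e l with
  | zero =>
    rw [PL_zero]
    split_ifs with h
    · subst h
      simp only [Finset.mem_singleton]
      constructor
      · rintro rfl; simp
      · rintro ⟨h, -⟩; exact List.length_eq_zero_iff.1 h
    · simp only [Finset.notMem_empty, false_iff]
      rintro ⟨h1, -, h3⟩
      rw [List.length_eq_zero_iff.1 h1] at h3
      simp at h3
      exact h h3.symm
  | succ n ih =>
    rw [PL_succ]
    simp only [Finset.mem_biUnion, Finset.mem_filter, Finset.mem_univ, true_and, Finset.mem_image]
    constructor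
    · rintro ⟨g, hg, l', hl', rfl⟩
      obtain ⟨h1, h2, h3⟩ := (ih g l').1 hl'
      refine ⟨by simp [h1], ?_, by simp⟩
      rw [List.cons_append, List.isChain_cons]
      refine ⟨?_, h2⟩
      intro y hy
      rw [h3] at hy
      simp at hy
      rw [← hy]; exact hg
    · rintro ⟨h1, h2, h3⟩
      cases l with
      | nil => simp at h1
      | cons a l' =>
        simp at h3
        subst h3
        rw [List.cons_append, List.isChain_cons] at h2
        obtain ⟨g, hg⟩ : ∃ g, (l' ++ [f]).head? = some g := by
          cases l' with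
          | nil => exact ⟨f, rfl⟩
          | cons b l'' => exact ⟨b, rfl⟩
        exact ⟨g, h2.1 g (by rw [hg]; rfl), l', (ih g l').2 ⟨by simpa using h1, h2.2, hg⟩, rfl⟩

theorem sum_PL (s : ℝ) (n : ℕ) (e f : E) :
    ∑ l ∈ PL R n e f, Real.exp (-(s * (l.map ℓ).sum)) = W (mat R ℓ s) n e f := by
  induction n generalizing e with
  | zero =>
    rw [PL_zero, W_zero]
    split_ifs <;> simp
  | succ n ih =>
    rw [PL_succ, W_succ, Finset.sum_biUnion]
    · have h1 : ∀ g, ∑ l ∈ (PL R n g f).image (List.cons e), Real.exp (-(s * (l.map ℓ).sum)) =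
          Real.exp (-(s * ℓ e)) * W (mat R ℓ s) n g f := by
        intro g
        rw [Finset.sum_image (by intro a _ b _ h; exact (List.cons_injective h)), ← ih, Finset.mul_sum]
        refine Finset.sum_congr rfl fun l _ => ?_
        rw [← Real.exp_add]
        congr 1
        simp only [List.map_cons, List.sum_cons]
        ring
      rw [Finset.sum_congr rfl fun g _ => h1 g, Finset.sum_filter]
      refine Finset.sum_congr rfl fun g _ => ?_
      unfold mat
      split_ifs <;> simp
    · intro g _ h _ hgh
      rw [Function.onFun, Finset.disjoint_left]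
      intro l hl hl'
      rw [Finset.mem_image] at hl hl'
      obtain ⟨a, ha, rfl⟩ := hl
      obtain ⟨b, hb, hab⟩ := hl'
      have := List.cons_injective hab
      subst this
      have h1 := ((mem_PL R n g f b).1 ha).2.2
      have h2 := ((mem_PL R n h f b).1 hb).2.2
      rw [h1] at h2
      exact hgh (by simpa using h2)

end lists

end Q186.ME
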