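import Pool.Agent.Q186.ME.Upper

/-!
Selection of the deleted edge and the main step.
-/

namespace Q186.ME

open Real

namespace MGraph

variable {V E : Type} {G : MGraph V E} [Fintype V] [Fintype E] [DecidableEq V] [DecidableEq E]
  {u : E → ℝ}

/-- half edges at `v` -/
def Dg (G : MGraph V E) (v : V) : Finset E := Finset.univ.filter fun e => G.org e = v

omit [Fintype V] [DecidableEq E] in
theorem mem_Dg (v : V) (e : E) : e ∈ G.Dg v ↔ G.org e = v := by
  unfold Dg; simp

omit [Fintype V] [DecidableEq E] in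
theorem UU_def (v : V) : G.UU u v = ∑ e ∈ G.Dg v, u e := rfl

omit [Fintype V] in
/-- another half-edge at the same vertex -/
theorem exists_other (h : G.PosEig u) (e : E) : ∃ f, f ≠ e ∧ G.org f = G.org e := by
  by_contra hcon
  push Not at hcon
  have h1 := sub_pos' h e
  have h2 : G.Dg (G.org e) = {e} := by
    ext f
    rw [mem_Dg, Finset.mem_singleton]
    constructor
    · intro hf
      by_contra hne
      exact hcon f hne hf
    · rintro rfl; rfl
  rw [UU_def, h2, Finset.sum_singleton] at h1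
  linarith

omit [Fintype V] in
theorem two_le_card (h : G.PosEig u) (e : E) : 2 ≤ (G.Dg (G.org e)).card := by
  obtain ⟨f, hf, hfe⟩ := exists_other h e
  have : ({e, f} : Finset E) ⊆ G.Dg (G.org e) := by
    intro x hx
    rw [Finset.mem_insert, Finset.mem_singleton] at hx
    rw [mem_Dg]
    rcases hx with rfl | rfl
    · rfl
    · exact hfe
  calc 2 = ({e, f} : Finset E).card := (Finset.card_pair hf.symm).symm
    _ ≤ _ := Finset.card_le_card this

/-- at a vertex of degree at least three, a half-edge with minimal `κ` has `α ≥ 0`. -/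
theorem alp_nonneg_of_min (h : G.PosEig u) (e : E) (hd : 3 ≤ (G.Dg (G.org e)).card)
    (hmin : ∀ f, G.org f = G.org e → G.kap u e ≤ G.kap u f) : 0 ≤ G.alp u e := by
  unfold alp
  rw [al_nonneg_iff (h.pos e) (sub_pos' h e)]
  by_contra hcon
  push Not at hcon
  have hmem : e ∈ G.Dg (G.org e) := (mem_Dg _ _).2 rfl
  have hcard : 1 < ((G.Dg (G.org e)).erase e).card := by
    rw [Finset.card_erase_of_mem hmem]; omega
  obtain ⟨f, hf, g, hg, hfg⟩ := Finset.one_lt_card.1 hcard
  rw [Finset.mem_erase, mem_Dg] at hf hg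
  have hsub : ({e, f, g} : Finset E) ⊆ G.Dg (G.org e) := by
    intro x hx
    simp only [Finset.mem_insert, Finset.mem_singleton] at hx
    rw [mem_Dg]
    rcases hx with rfl | rfl | rfl
    · rfl
    · exact hf.2
    · exact hg.2
  have hsum : u e + (u f + u g) ≤ G.UU u (G.org e) := by
    rw [UU_def]
    have h1 : ∑ x ∈ ({e, f, g} : Finset E), u x = u e + (u f + u g) := by
      rw [Finset.sum_insert, Finset.sum_pair hfg]
      simp only [Finset.mem_insert, Finset.mem_singleton, not_or]
      exact ⟨hf.1.symm, hg.1.symm⟩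
    rw [← h1]
    exact Finset.sum_le_sum_of_subset_of_nonneg hsub fun x _ _ => (h.pos x).le
  have hk := hmin f hf.2
  unfold kap at hk
  rw [hf.2] at hk
  have pf := h.pos f
  have pg := h.pos g
  have pe := h.pos e
  nlinarith

/-- The edge to be deleted. -/
theorem exists_edge (h : G.PosEig u) (hT : ∃ e : E, 3 ≤ (G.Dg (G.org e)).card) :
    ∃ f : E, 0 ≤ G.alp u f ∧ 0 ≤ G.alp u (G.inv f) ∧
      ∀ e, 3 ≤ (G.Dg (G.org e)).card → G.kap u f ≤ G.kap u e := by
  have hTne : (Finset.univ.filter fun e : E => 3 ≤ (G.Dg (G.org e)).card).Nonempty := by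
    obtain ⟨e, he⟩ := hT
    exact ⟨e, Finset.mem_filter.2 ⟨Finset.mem_univ _, he⟩⟩
  obtain ⟨e0, he0, hmin⟩ := Finset.exists_min_image _ (G.kap u) hTne
  rw [Finset.mem_filter] at he0
  have hmin' : ∀ e, 3 ≤ (G.Dg (G.org e)).card → G.kap u e0 ≤ G.kap u e := fun e he =>
    hmin e (Finset.mem_filter.2 ⟨Finset.mem_univ _, he⟩)
  have hα0 : 0 ≤ G.alp u e0 := alp_nonneg_of_min h e0 he0.2 (fun f hf => hmin' f (by
    rw [hf]; exact he0.2))
  have hPne : (Finset.univ.filter fun e : E => G.kap u e = G.kap u e0 ∧ 0 ≤ G.alp u e).Nonempty :=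
    ⟨e0, Finset.mem_filter.2 ⟨Finset.mem_univ _, rfl, hα0⟩⟩
  obtain ⟨f, hf, hfmin⟩ := Finset.exists_min_image _ (G.alp u) hPne
  rw [Finset.mem_filter] at hf
  refine ⟨f, hf.2.2, ?_, fun e he => by rw [hf.2.1]; exact hmin' e he⟩
  by_contra hcon
  push Not at hcon
  have hk : G.kap u (G.inv f) = G.kap u e0 := by rw [kap_inv h, hf.2.1]
  have h2 := two_le_card h (G.inv f)
  rcases Nat.lt_or_ge 2 (G.Dg (G.org (G.inv f))).card with h3 | h3
  · have := alp_nonneg_of_min h (G.inv f) h3 (fun g hg => by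
      rw [hk]
      exact hmin' g (by rw [hg]; exact h3))
    linarith
  · obtain ⟨g, hg, hgo⟩ := exists_other h (G.inv f)
    have hD : G.Dg (G.org (G.inv f)) = {G.inv f, g} := by
      symm
      apply Finset.eq_of_subset_of_card_le
      · intro x hx
        rw [Finset.mem_insert, Finset.mem_singleton] at hx
        rw [mem_Dg]
        rcases hx with rfl | rfl
        · rfl
        · exact hgo
      · rw [Finset.card_pair hg.symm]; exact h3
    have hU : G.UU u (G.org (G.inv f)) = u (G.inv f) + u g := by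
      rw [UU_def, hD, Finset.sum_pair hg.symm]
    have hUg : G.UU u (G.org g) = u (G.inv f) + u g := by rw [hgo, hU]
    have hkg : G.kap u g = G.kap u e0 := by
      rw [← hk]
      unfold kap
      rw [hU, hUg]
      ring
    have hαg : G.alp u g = -G.alp u (G.inv f) := by
      unfold alp
      rw [hU, hUg, add_sub_cancel_right, add_sub_cancel_left]
      exact al_swap (h.pos _) (h.pos _)
    have := hfmin g (Finset.mem_filter.2 ⟨Finset.mem_univ _, hkg, by rw [hαg]; linarith⟩)
    have h5 := alp_add h f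
    have h6 := G.len_pos f
    linarith

theorem main_step (h : G.PosEig u) (hV : ∀ v, ∃ e, G.org e = v) {r : ℕ} (hr : G.HasRank r)
    {s c : ℝ} (hs0 : 0 < s) (hs1 : s < 1) (hc0 : 0 ≤ c) (hc1 : c ≤ (2:ℝ) ^ (-s))
    (hc2 : c ≤ Real.log 2) (hbig : 1 < (1 - s) * c * (r - 1)) :
    ∃ H : G.Subgraph, H ≠ G.whole ∧ s ≤ H.entropy := by
  -- degrees
  have hcardE : ∑ v, (G.Dg v).card = Fintype.card E := by
    have := Finset.card_eq_sum_card_fiberwise (f := G.org) (s := (Finset.univ : Finset E))
      (t := (Finset.univ : Finset V)) (fun _ _ => by simp)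
    rw [Finset.card_univ] at this
    rw [this]
    rfl
  have hr1 : (1:ℝ) < r := by
    by_contra hcon
    push Not at hcon
    have : (1 - s) * c * ((r:ℝ) - 1) ≤ 0 :=
      mul_nonpos_of_nonneg_of_nonpos (mul_nonneg (by linarith) hc0) (by linarith)
    linarith
  have hr2 : 2 ≤ r := by
    have : 1 < r := by exact_mod_cast hr1
    omega
  unfold HasRank at hr
  have hT : ∃ e : E, 3 ≤ (G.Dg (G.org e)).card := by
    by_contra hcon
    push Not at hcon
    have h1 : ∑ v, (G.Dg v).card ≤ ∑ _v : V, 2 := by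
      refine Finset.sum_le_sum fun v _ => ?_
      obtain ⟨e, rfl⟩ := hV v
      have := hcon e
      omega
    rw [hcardE, Finset.sum_const, Finset.card_univ, smul_eq_mul] at h1
    omega
  obtain ⟨f, hα, hα', hfmin⟩ := exists_edge h hT
  -- the subgraph
  let H : G.Subgraph := ⟨Set.univ, {e | e ≠ f ∧ e ≠ G.inv f},
    fun e he => by
      refine ⟨fun h => he.2 ?_, fun h => he.1 ?_⟩
      · rw [← h, G.inv_inv]
      · have := congrArg G.inv h
        rwa [G.inv_inv, G.inv_inv] at this, fun _ _ => trivial⟩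
  have hne : H ≠ G.whole := by
    intro hh
    have : f ∈ H.edges := by rw [hh]; trivial
    exact this.1 rfl
  refine ⟨H, hne, ?_⟩
  by_contra hcon
  push Not at hcon
  set K : Finset E := (Finset.univ.erase f).erase (G.inv f) with hKdef
  have hKH : ∀ e, e ∈ K ↔ e ∈ H.edges := by
    intro e
    rw [hKdef, Finset.mem_erase, Finset.mem_erase]
    constructor
    · rintro ⟨h1, h2, -⟩; exact ⟨h2, h1⟩
    · rintro ⟨h1, h2⟩; exact ⟨h2, h1, Finset.mem_univ _⟩
  have hKinv : ∀ e ∈ K, G.inv e ∈ K := fun e he => (hKH _).2 (H.inv_mem e ((hKH e).1 he))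
  -- every vertex meets K
  have hcov : ∀ v : V, ∃ e ∈ K, G.org e = v := by
    intro v
    by_contra hno
    push Not at hno
    have hsub : ∀ e, G.org e = v → e = f ∨ e = G.inv f := by
      intro e he
      by_contra hx
      push Not at hx
      exact hno e ((hKH e).2 hx) he
    obtain ⟨e, he⟩ := hV v
    obtain ⟨g, hg, hge⟩ := exists_other h e
    rw [he] at hge
    -- both f and inv f are at v and are the only ones
    have hf1 : G.org f = v ∧ G.org (G.inv f) = v := by
      rcases hsub e he with h1 | h1 <;> rcases hsub g hge with h2 | h2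
      · exact absurd (h2.trans h1.symm) hg
      · exact ⟨h1 ▸ he, h2 ▸ hge⟩
      · exact ⟨h2 ▸ hge, h1 ▸ he⟩
      · exact absurd (h2.trans h1.symm) hg
    have hD : G.Dg v = {f, G.inv f} := by
      ext x
      rw [mem_Dg, Finset.mem_insert, Finset.mem_singleton]
      constructor
      · exact hsub x
      · rintro (rfl | rfl)
        · exact hf1.1
        · exact hf1.2
    have hU : G.UU u v = u f + u (G.inv f) := by
      rw [UU_def, hD, Finset.sum_pair (G.inv_ne f).symm]
    have h3 := eig' h f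
    rw [hf1.1, hU, add_sub_cancel_left] at h3
    have h4 : Real.exp (-G.len f) < 1 := Real.exp_lt_one_iff.2 (by linarith [G.len_pos f])
    have := h.pos (G.inv f)
    nlinarith
  have hlow := form_nonneg_of_entropy_lt G H K hKH hs0 hcon hcov (G.xs u s)
  -- upper bound
  set ψ : E → ℝ := fun e => (Real.exp (-(s * G.len e)) ^ 2 * G.xs u s (G.org e) ^ 2 -
        Real.exp (-(s * G.len e)) * G.xs u s (G.org e) * G.xs u s (G.ter e)) /
        (1 - Real.exp (-(s * G.len e)) ^ 2) with hψ
  have hform : G.form K (fun e => Real.exp (-(s * G.len e))) (G.xs u s) =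
      ∑ v, G.xs u s v ^ 2 + ∑ e ∈ K, ψ e := rfl
  have hψχ : ∑ e ∈ K, ψ e ≤ ∑ e ∈ K, G.chi u s e := by
    have h1 : 2 * ∑ e ∈ K, ψ e ≤ 2 * ∑ e ∈ K, G.chi u s e := by
      rw [two_mul_sum G K hKinv, two_mul_sum G K hKinv]
      refine Finset.sum_le_sum fun e _ => ?_
      have h2 := psi_le h hs0 e
      have h3 : G.org (G.inv e) = G.ter e := rfl
      simp only [hψ]
      rw [G.len_inv, h3, ter_inv]
      exact h2
    linarith
  have hχK : ∑ e ∈ K, G.chi u s e = ∑ e, G.chi u s e - G.chi u s f - G.chi u s (G.inv f) := by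
    have h1 : G.inv f ∈ (Finset.univ.erase f : Finset E) :=
      Finset.mem_erase.2 ⟨G.inv_ne f, Finset.mem_univ _⟩
    have h2 := Finset.add_sum_erase (Finset.univ : Finset E) (G.chi u s) (Finset.mem_univ f)
    have h3 := Finset.add_sum_erase (Finset.univ.erase f : Finset E) (G.chi u s) h1
    rw [hKdef]
    linarith
  have hf1 := neg_chi_le h hs0.le f hα
  have hf2 := neg_chi_le h hs0.le (G.inv f) hα'
  rw [kap_inv h] at hf2
  -- fiberwise sums
  have hfib : ∀ τ : E → ℝ, ∑ e, τ e = ∑ v, ∑ e ∈ G.Dg v, τ e := by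
    intro τ
    exact (Finset.sum_fiberwise (s := (Finset.univ : Finset E)) (g := G.org) (f := τ)).symm
  have hUpos : ∀ v, 0 < G.UU u v := by
    intro v
    obtain ⟨e, rfl⟩ := hV v
    exact UU_pos h e
  have hp1 : ∀ v, ∑ e ∈ G.Dg v, u e / G.UU u v = 1 := by
    intro v
    rw [← Finset.sum_div, ← UU_def, div_self (hUpos v).ne']
  have hχall : ∑ e, G.chi u s e = -∑ v, G.xs u s v ^ 2 -
      (1 - s) / 2 * ∑ v, G.xs u s v ^ 2 * ∑ e ∈ G.Dg v, eta s (1 - 2 * (u e / G.UU u v)) := by
    rw [hfib, Finset.mul_sum, ← Finset.sum_neg_distrib, ← Finset.sum_sub_distrib]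
    refine Finset.sum_congr rfl fun v _ => ?_
    have h1 : ∑ e ∈ G.Dg v, G.chi u s e = ∑ e ∈ G.Dg v, (-(u e / G.UU u v) * G.xs u s v ^ 2 -
      (1 - s) / 2 * (G.xs u s v ^ 2 * eta s (1 - 2 * (u e / G.UU u v)))) := by
      refine Finset.sum_congr rfl fun e he => ?_
      rw [chi_eq h e, (mem_Dg v e).1 he]
    rw [h1, Finset.sum_sub_distrib, ← Finset.sum_mul, Finset.sum_neg_distrib, hp1 v,
      ← Finset.mul_sum, ← Finset.mul_sum]
    ring
  -- vertex inequality
  set κ := G.kap u f with hκ
  have hκ0 : 0 < κ := kap_pos h f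
  have hvert : ∀ v, c * ((G.Dg v).card - 2) * κ ^ s ≤
      G.xs u s v ^ 2 * ∑ e ∈ G.Dg v, eta s (1 - 2 * (u e / G.UU u v)) := by
    intro v
    have hUv := hUpos v
    have h2c : 2 ≤ (G.Dg v).card := by
      obtain ⟨e, rfl⟩ := hV v
      exact two_le_card h e
    have hpp : ∀ e ∈ G.Dg v, 0 < u e / G.UU u v := fun e _ => div_pos (h.pos e) hUv
    have hxv : G.xs u s v ^ 2 = (G.UU u v ^ 2) ^ s := by
      unfold xs
      rw [← Real.rpow_natCast, ← Real.rpow_mul hUv.le, ← Real.rpow_natCast (G.UU u v) 2,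
        ← Real.rpow_mul hUv.le]
      congr 1
      ring
    have hxpos : 0 < G.xs u s v ^ 2 := by
      rw [hxv]; exact Real.rpow_pos_of_pos (by positivity) _
    rcases Nat.lt_or_ge 2 (G.Dg v).card with h3 | h3
    · have h4 := vertex_ineq (s := s) (c := c) (μ := κ / G.UU u v ^ 2) hs0.le hs1 hc0 hc1 hc2
        (by positivity) (fun e => u e / G.UU u v) (G.Dg v) h2c hpp (fun e he => by
          have h5 := hfmin e (by rw [(mem_Dg v e).1 he]; exact h3)
          have h6 : G.kap u e = 4 * u e * (G.UU u v - u e) := by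
            unfold kap; rw [(mem_Dg v e).1 he]
          rw [h6] at h5
          rw [div_le_iff₀ (by positivity)]
          have h7 : 4 * (u e / G.UU u v) * (1 - u e / G.UU u v) * G.UU u v ^ 2 =
              4 * u e * (G.UU u v - u e) := by field_simp
          rw [h7]; exact h5) (hp1 v)
      have h8 : (κ / G.UU u v ^ 2) ^ s * G.xs u s v ^ 2 = κ ^ s := by
        rw [hxv, ← Real.mul_rpow (by positivity) (by positivity), div_mul_cancel₀ _ (by positivity)]
      have h9 := mul_le_mul_of_nonneg_left h4 hxpos.le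
      calc c * ((G.Dg v).card - 2) * κ ^ s
          = G.xs u s v ^ 2 * (c * ((G.Dg v).card - 2) * (κ / G.UU u v ^ 2) ^ s) := by
            rw [← h8]; ring
        _ ≤ _ := h9
    · have h4 := vertex_ineq (s := s) (c := c) (μ := 0) hs0.le hs1 hc0 hc1 hc2
        le_rfl (fun e => u e / G.UU u v) (G.Dg v) h2c hpp (fun e he => by
          have h6 : u e < G.UU u v := by
            have := sub_pos' h e
            rw [(mem_Dg v e).1 he] at this
            linarith
          have h7 : u e / G.UU u v < 1 := (div_lt_one hUv).2 h6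
          have := hpp e he
          nlinarith) (hp1 v)
      have h5 : ((G.Dg v).card : ℝ) = 2 := by
        have : (G.Dg v).card = 2 := le_antisymm h3 h2c
        rw [this]; norm_num
      rw [h5] at h4 ⊢
      have h6 : c * (2 - 2) * (0:ℝ) ^ s = 0 := by ring
      rw [h6] at h4
      have h7 : c * (2 - 2) * κ ^ s = 0 := by ring
      rw [h7]
      exact mul_nonneg hxpos.le h4
  have hsumv : c * (2 * (r - 1)) * κ ^ s ≤
      ∑ v, G.xs u s v ^ 2 * ∑ e ∈ G.Dg v, eta s (1 - 2 * (u e / G.UU u v)) := by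
    have h1 := Finset.sum_le_sum (fun v (_ : v ∈ (Finset.univ : Finset V)) => hvert v)
    rw [← Finset.sum_mul, ← Finset.mul_sum, Finset.sum_sub_distrib] at h1
    have h2 : ∑ v : V, ((G.Dg v).card : ℝ) = Fintype.card E := by exact_mod_cast hcardE
    rw [h2, Finset.sum_const, Finset.card_univ, nsmul_eq_mul] at h1
    have h3 : (Fintype.card E : ℝ) + 2 = 2 * (Fintype.card V + r) := by exact_mod_cast hr
    have h4 : (Fintype.card E : ℝ) - Fintype.card V * 2 = 2 * (r - 1) := by linarith
    rw [h4] at h1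
    exact h1
  have hκs : 0 < κ ^ s := Real.rpow_pos_of_pos hκ0 _
  have hfin : G.form K (fun e => Real.exp (-(s * G.len e))) (G.xs u s) ≤
      κ ^ s - (1 - s) / 2 * (c * (2 * (r - 1)) * κ ^ s) := by
    rw [hform]
    have h1 := mul_le_mul_of_nonneg_left hsumv (by linarith : 0 ≤ (1 - s) / 2)
    linarith
  have h10 : κ ^ s - (1 - s) / 2 * (c * (2 * (r - 1)) * κ ^ s) =
      κ ^ s * (1 - (1 - s) * c * (r - 1)) := by ring
  rw [h10] at hfin
  have h11 : κ ^ s * (1 - (1 - s) * c * (r - 1)) < 0 :=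
    mul_neg_of_pos_of_neg hκs (by linarith)
  linarith

end MGraph

end Q186.ME
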