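import Pool.Agent.Q186.ME.Form

/-!
The test vector `U^s` and the upper bound of the form.
-/

namespace Q186.ME

open Real

/-- `½ log (z/y)` -/
noncomputable def al (y z : ℝ) : ℝ := Real.log (z / y) / 2

theorem exp_two_al {y z : ℝ} (hy : 0 < y) (hz : 0 < z) : Real.exp (al y z) ^ 2 = z / y := by
  rw [← Real.exp_nat_mul]
  unfold al
  rw [show ((2:ℕ):ℝ) * (Real.log (z / y) / 2) = Real.log (z / y) by push_cast; ring,
    Real.exp_log (by positivity)]

theorem cosh_al {y z : ℝ} (hy : 0 < y) (hz : 0 < z) :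
    Real.cosh (al y z) ^ 2 * (4 * y * z) = (y + z) ^ 2 := by
  have h1 := exp_two_al hy hz
  have h2 := Real.exp_pos (al y z)
  rw [Real.cosh_eq, Real.exp_neg]
  have h3 : ((Real.exp (al y z) + (Real.exp (al y z))⁻¹) / 2) ^ 2 =
      (Real.exp (al y z) ^ 2 + 2 + (Real.exp (al y z) ^ 2)⁻¹) / 4 := by
    field_simp
    ring
  rw [h3, h1]
  field_simp
  ring

theorem tanh_al {y z : ℝ} (hy : 0 < y) (hz : 0 < z) :
    Real.tanh (al y z) = 1 - 2 * (y / (y + z)) := by
  have h1 := exp_two_al hy hz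
  have h2 := Real.exp_pos (al y z)
  rw [Real.tanh_eq_sinh_div_cosh, Real.sinh_eq, Real.cosh_eq, Real.exp_neg]
  have h3 : ((Real.exp (al y z) - (Real.exp (al y z))⁻¹) / 2) /
      ((Real.exp (al y z) + (Real.exp (al y z))⁻¹) / 2) =
      (Real.exp (al y z) ^ 2 - 1) / (Real.exp (al y z) ^ 2 + 1) := by
    field_simp
  rw [h3, h1]
  field_simp
  ring

theorem al_nonneg_iff {y z : ℝ} (hy : 0 < y) (hz : 0 < z) : 0 ≤ al y z ↔ y ≤ z := by
  unfold al
  have h1 : 0 < z / y := by positivity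
  constructor
  · intro h
    have h2 : 0 ≤ Real.log (z / y) := by linarith
    have h3 := (Real.log_nonneg_iff h1).1 h2
    rwa [le_div_iff₀ hy, one_mul] at h3
  · intro h
    have : 1 ≤ z / y := by rw [le_div_iff₀ hy, one_mul]; exact h
    have := Real.log_nonneg this
    linarith

theorem al_swap {y z : ℝ} (hy : 0 < y) (hz : 0 < z) : al z y = -al y z := by
  unfold al
  rw [Real.log_div hy.ne' hz.ne', Real.log_div hz.ne' hy.ne']
  ring

namespace MGraph

variable {V E : Type} (G : MGraph V E) [Fintype V] [Fintype E] [DecidableEq V] [DecidableEq E]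

/-- data of a positive eigenvector -/
structure PosEig (u : E → ℝ) : Prop where
  pos : ∀ e, 0 < u e
  eig : ∀ e, u e = Real.exp (-G.len e) * (G.vs Finset.univ u (G.ter e) - u (G.inv e))

variable {G} {u : E → ℝ}

/-- vertex value -/
def UU (G : MGraph V E) (u : E → ℝ) (v : V) : ℝ := G.vs Finset.univ u v

/-- `κ` -/
def kap (G : MGraph V E) (u : E → ℝ) (e : E) : ℝ := 4 * u e * (G.UU u (G.org e) - u e)

/-- `α` -/
noncomputable def alp (G : MGraph V E) (u : E → ℝ) (e : E) : ℝ := al (u e) (G.UU u (G.org e) - u e)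

omit [Fintype V] [DecidableEq E] in
theorem ter_inv (e : E) : G.ter (G.inv e) = G.org e := by unfold ter; rw [G.inv_inv]

omit [Fintype V] [DecidableEq E] in
theorem eig' (h : G.PosEig u) (e : E) :
    u (G.inv e) = Real.exp (-G.len e) * (G.UU u (G.org e) - u e) := by
  have := h.eig (G.inv e)
  rw [G.len_inv, G.inv_inv, ter_inv] at this
  exact this

omit [Fintype V] [DecidableEq E] in
theorem sub_pos' (h : G.PosEig u) (e : E) : 0 < G.UU u (G.org e) - u e := by
  have h1 := eig' h e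
  have h2 := h.pos (G.inv e)
  rw [h1] at h2
  exact (pos_iff_pos_of_mul_pos h2).1 (Real.exp_pos _)

omit [Fintype V] [DecidableEq E] in
theorem kap_pos (h : G.PosEig u) (e : E) : 0 < G.kap u e :=
  mul_pos (mul_pos (by norm_num) (h.pos e)) (sub_pos' h e)

omit [Fintype V] [DecidableEq E] in
theorem kap_inv (h : G.PosEig u) (e : E) : G.kap u (G.inv e) = G.kap u e := by
  unfold kap
  have h1 := eig' h e
  have h2 := h.eig e
  have h3 : G.org (G.inv e) = G.ter e := rfl
  have hx := Real.exp_pos (-G.len e)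
  rw [h3]
  have h4 : G.UU u (G.ter e) - u (G.inv e) = u e / Real.exp (-G.len e) := by
    rw [eq_div_iff hx.ne', mul_comm]; exact h2.symm
  have h5 : G.UU u (G.org e) - u e = u (G.inv e) / Real.exp (-G.len e) := by
    rw [eq_div_iff hx.ne', mul_comm]; exact h1.symm
  rw [h4, h5]
  field_simp

omit [Fintype V] [DecidableEq E] in
theorem alp_add (h : G.PosEig u) (e : E) : G.alp u e + G.alp u (G.inv e) = G.len e := by
  unfold alp al
  have h1 := eig' h e
  have h2 := h.eig e
  have h3 : G.org (G.inv e) = G.ter e := rfl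
  have hx := Real.exp_pos (-G.len e)
  rw [h3]
  have h4 : G.UU u (G.ter e) - u (G.inv e) = u e / Real.exp (-G.len e) := by
    rw [eq_div_iff hx.ne', mul_comm]; exact h2.symm
  have h5 : G.UU u (G.org e) - u e = u (G.inv e) / Real.exp (-G.len e) := by
    rw [eq_div_iff hx.ne', mul_comm]; exact h1.symm
  rw [h4, h5]
  have p1 := h.pos e
  have p2 := h.pos (G.inv e)
  rw [Real.log_div (by positivity) (by positivity), Real.log_div (by positivity) (by positivity),
    Real.log_div (by positivity) (by positivity), Real.log_div (by positivity) (by positivity),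
    Real.log_exp]
  ring

omit [Fintype V] [DecidableEq E] in
theorem UU_pos (h : G.PosEig u) (e : E) : 0 < G.UU u (G.org e) := by
  have := sub_pos' h e
  have := h.pos e
  linarith

omit [Fintype V] [DecidableEq E] in
theorem UU_eq (h : G.PosEig u) (e : E) :
    G.UU u (G.org e) = Real.sqrt (G.kap u e) * Real.cosh (G.alp u e) := by
  have h1 := cosh_al (h.pos e) (sub_pos' h e)
  rw [add_sub_cancel] at h1
  have h2 : (Real.sqrt (G.kap u e) * Real.cosh (G.alp u e)) ^ 2 = G.UU u (G.org e) ^ 2 := by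
    rw [mul_pow, Real.sq_sqrt (kap_pos h e).le, mul_comm]
    exact h1
  have h3 : 0 ≤ Real.sqrt (G.kap u e) * Real.cosh (G.alp u e) := by
    have := Real.cosh_pos (G.alp u e)
    positivity
  exact ((sq_eq_sq₀ h3 (UU_pos h e).le).1 h2).symm

omit [Fintype V] [DecidableEq E] in
theorem tanh_alp (h : G.PosEig u) (e : E) :
    Real.tanh (G.alp u e) = 1 - 2 * (u e / G.UU u (G.org e)) := by
  have h1 := tanh_al (h.pos e) (sub_pos' h e)
  rw [add_sub_cancel] at h1
  exact h1

/-- `x_v = U_v^s` -/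
noncomputable def xs (G : MGraph V E) (u : E → ℝ) (s : ℝ) (v : V) : ℝ := G.UU u v ^ s

/-- `χ_e` -/
noncomputable def chi (G : MGraph V E) (u : E → ℝ) (s : ℝ) (e : E) : ℝ :=
  (G.kap u e ^ s * Ff s (G.alp u e) - G.xs u s (G.org e) ^ 2) / 2

omit [Fintype V] [DecidableEq E] in
theorem xs_eq (h : G.PosEig u) (s : ℝ) (e : E) :
    G.xs u s (G.org e) = Real.sqrt (G.kap u e) ^ s * Real.cosh (G.alp u e) ^ s := by
  unfold xs
  rw [UU_eq h e, Real.mul_rpow (Real.sqrt_nonneg _) (Real.cosh_pos _).le]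

omit [Fintype V] [DecidableEq E] in
theorem sqrt_kap_rpow (h : G.PosEig u) (s : ℝ) (e : E) :
    (Real.sqrt (G.kap u e) ^ s) ^ 2 = G.kap u e ^ s := by
  rw [← Real.rpow_natCast, ← Real.rpow_mul (Real.sqrt_nonneg _), Real.sqrt_eq_rpow,
    ← Real.rpow_mul (kap_pos h e).le]
  congr 1
  push_cast
  ring

omit [Fintype V] [DecidableEq E] in
theorem xs_sq (h : G.PosEig u) (s : ℝ) (e : E) :
    G.xs u s (G.org e) ^ 2 = G.kap u e ^ s * Real.cosh (G.alp u e) ^ (2 * s) := by
  rw [xs_eq h s e, mul_pow, sqrt_kap_rpow h s e]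
  congr 1
  rw [← Real.rpow_natCast, ← Real.rpow_mul (Real.cosh_pos _).le]
  congr 1
  push_cast
  ring

omit [Fintype V] [DecidableEq E] in
/-- per-edge inequality -/
theorem psi_le (h : G.PosEig u) {s : ℝ} (hs : 0 < s) (e : E) :
    (Real.exp (-(s * G.len e)) ^ 2 * G.xs u s (G.org e) ^ 2 -
        Real.exp (-(s * G.len e)) * G.xs u s (G.org e) * G.xs u s (G.ter e)) /
        (1 - Real.exp (-(s * G.len e)) ^ 2) +
      (Real.exp (-(s * G.len e)) ^ 2 * G.xs u s (G.ter e) ^ 2 -
        Real.exp (-(s * G.len e)) * G.xs u s (G.ter e) * G.xs u s (G.org e)) /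
        (1 - Real.exp (-(s * G.len e)) ^ 2) ≤ G.chi u s e + G.chi u s (G.inv e) := by
  have hlen := alp_add h e
  have hl0 := G.len_pos e
  have h1 := edge_ineq (s := s) (α := G.alp u e) (β := G.alp u (G.inv e)) hs (by linarith)
  rw [hlen] at h1
  have hko : G.xs u s (G.org e) = Real.sqrt (G.kap u e) ^ s * Real.cosh (G.alp u e) ^ s :=
    xs_eq h s e
  have hkt : G.xs u s (G.ter e) =
      Real.sqrt (G.kap u e) ^ s * Real.cosh (G.alp u (G.inv e)) ^ s := by
    have := xs_eq h s (G.inv e)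
    rw [kap_inv h e] at this
    exact this
  have hz := sqrt_kap_rpow h s e
  unfold chi
  have h3 : G.org (G.inv e) = G.ter e := rfl
  rw [h3, kap_inv h e, ← hz, hko, hkt]
  set z := Real.sqrt (G.kap u e) ^ s
  set a := Real.cosh (G.alp u e) ^ s
  set b := Real.cosh (G.alp u (G.inv e)) ^ s
  set q := Real.exp (-(s * G.len e)) with hq
  have hq0 : 0 < q := Real.exp_pos _
  have hq1 : q < 1 := by
    rw [hq]
    have : 0 < s * G.len e := by positivity
    exact Real.exp_lt_one_iff.2 (by linarith)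
  have hqq : 0 < 1 - q ^ 2 := by nlinarith
  have h4 := mul_le_mul_of_nonneg_left h1 (sq_nonneg z)
  have e1 : (q ^ 2 * (z * a) ^ 2 - q * (z * a) * (z * b)) / (1 - q ^ 2) +
      (q ^ 2 * (z * b) ^ 2 - q * (z * b) * (z * a)) / (1 - q ^ 2) =
      z ^ 2 * (((1 + q ^ 2) * (a ^ 2 + b ^ 2) / 2 - 2 * q * (a * b)) / (1 - q ^ 2)) -
      ((z * a) ^ 2 + (z * b) ^ 2) / 2 := by
    field_simp
    ring
  rw [e1]
  linarith

/-- removing an edge end with `α ≥ 0` costs at most `κ^s / 2`. -/
theorem neg_chi_le (h : G.PosEig u) {s : ℝ} (hs : 0 ≤ s) (e : E) (hα : 0 ≤ G.alp u e) :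
    -G.chi u s e ≤ G.kap u e ^ s / 2 := by
  unfold chi
  rw [xs_sq h s e]
  have h1 := deletion_ineq (s := s) hs hα
  have h2 : 0 ≤ G.kap u e ^ s := Real.rpow_nonneg (kap_pos h e).le _
  have h3 := mul_le_mul_of_nonneg_left h1 h2
  unfold Ff
  linarith

/-- `χ_e = - p U^{2s} - (1-s)/2 U^{2s} η(1-2p)` -/
theorem chi_eq (h : G.PosEig u) {s : ℝ} (e : E) :
    G.chi u s e = -(u e / G.UU u (G.org e)) * G.xs u s (G.org e) ^ 2 -
      (1 - s) / 2 * (G.xs u s (G.org e) ^ 2 * eta s (1 - 2 * (u e / G.UU u (G.org e)))) := by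
  unfold chi
  have hx := xs_sq h s e
  have ht := tanh_alp h e
  have hc := Real.cosh_pos (G.alp u e)
  have h1 : G.xs u s (G.org e) ^ 2 * eta s (1 - 2 * (u e / G.UU u (G.org e))) =
      G.kap u e ^ s * Gs s (Real.tanh (G.alp u e)) := by
    rw [← ht, hx]
    unfold eta
    rw [one_sub_tanh_sq, Real.inv_rpow (by positivity), ← Real.rpow_natCast _ 2,
      ← Real.rpow_mul hc.le]
    push_cast
    have : Real.cosh (G.alp u e) ^ (2 * s) ≠ 0 := (Real.rpow_pos_of_pos hc _).ne'
    field_simp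
  rw [h1]
  unfold Ff
  have h2 : G.kap u e ^ s * (Real.cosh (G.alp u e) ^ (2 * s) * Real.tanh (G.alp u e)) =
      G.xs u s (G.org e) ^ 2 * (1 - 2 * (u e / G.UU u (G.org e))) := by
    rw [hx, ht]; ring
  linear_combination (1 / 2 : ℝ) * h2

end MGraph

end Q186.ME
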